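import Mathlib

/-!
# Numerical inequalities for the gain at a test
-/

set_option autoImplicit false

namespace Pool.Agent.H87.LL

open Real

/-- The cost function of a test. -/
noncomputable def gf (θ : ℝ) : ℝ := if θ < 1 / 2 then θ else Real.binEntropy θ

theorem gf_nonneg (θ : ℝ) (h0 : 0 ≤ θ) (h1 : θ ≤ 1) : 0 ≤ gf θ := by
  unfold gf
  split_ifs
  · exact h0
  · exact Real.binEntropy_nonneg h0 h1

theorem gf_le (θ : ℝ) (h0 : 0 ≤ θ) : gf θ ≤ 2 * θ := by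
  unfold gf
  split_ifs with h
  · linarith
  · have h2 := Real.binEntropy_le_log_two (p := θ)
    have h3 := Real.log_two_lt_d9
    push Not at h
    linarith

theorem bin_le (ψ : ℝ) (h1 : ψ < 1) :
    Real.binEntropy ψ ≤ ψ * (-log ψ) + ψ := by
  rw [Real.binEntropy, Real.log_inv]
  have h2 : log ((1 - ψ)⁻¹) ≤ (1 - ψ)⁻¹ - 1 :=
    Real.log_le_sub_one_of_pos (inv_pos.2 (by linarith))
  have h3 := mul_le_mul_of_nonneg_left h2 (show 0 ≤ 1 - ψ by linarith)
  have h4 : (1 - ψ) * ((1 - ψ)⁻¹ - 1) = ψ := by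
    have : (1 - ψ) ≠ 0 := by linarith
    field_simp
    ring
  linarith

theorem numA (θ τ : ℝ) (h0 : 0 < θ) (h1 : θ ≤ 1 / 2) (t0 : 0 ≤ τ) (t1 : τ ≤ 1 / 100) :
    29 / 100 * θ ≤ Real.binEntropy θ +
      θ * ((1 - τ) * log (2 * θ / (1 + θ)) + τ * log (θ / 2 / (1 - θ / 2))) +
      (1 - θ) * (τ * log ((1 - θ) / (1 + θ)) + (1 - τ) * log ((1 - θ) / (1 - θ / 2))) := by
  have a1 : (1 + θ) ≠ 0 := by linarith
  have a2 : (1 - θ / 2) ≠ 0 := by linarith
  have a3 : (1 - θ) ≠ 0 := by linarith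
  rw [Real.binEntropy, Real.log_inv, Real.log_inv, Real.log_div (by positivity) a1,
    Real.log_div (by positivity) a2, Real.log_div a3 a1, Real.log_div a3 a2,
    Real.log_mul (by norm_num) h0.ne', Real.log_div h0.ne' (by norm_num)]
  have hx : log (1 + θ) ≤ θ := by
    have := Real.log_le_sub_one_of_pos (show 0 < 1 + θ by linarith)
    linarith
  have hy : log (1 - θ / 2) ≤ -(θ / 2) := by
    have := Real.log_le_sub_one_of_pos (show 0 < 1 - θ / 2 by linarith)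
    linarith
  have hL := Real.log_two_gt_d9
  set x := log (1 + θ)
  set y := log (1 - θ / 2)
  set L := log 2
  have e : θ * -log θ + (1 - θ) * -log (1 - θ) +
      θ * ((1 - τ) * (L + log θ - x) + τ * (log θ - L - y)) +
      (1 - θ) * (τ * (log (1 - θ) - x) + (1 - τ) * (log (1 - θ) - y)) =
      θ * ((1 - τ) * (L - x) - τ * L - τ * y) + (1 - θ) * (-τ * x - (1 - τ) * y) := by ring
  rw [e]
  have c1 : 0 ≤ θ * (1 - τ) + (1 - θ) * τ := by
    have := mul_nonneg h0.le (show 0 ≤ 1 - τ by linarith)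
    have := mul_nonneg (show 0 ≤ 1 - θ by linarith) t0
    linarith
  have c2 : 0 ≤ θ * τ + (1 - θ) * (1 - τ) := by
    have := mul_nonneg h0.le t0
    have := mul_nonneg (show 0 ≤ 1 - θ by linarith) (show 0 ≤ 1 - τ by linarith)
    linarith
  have b1 := mul_le_mul_of_nonneg_left hx c1
  have b2 := mul_le_mul_of_nonneg_left hy c2
  have b3 : 0 ≤ θ * (1 - 2 * τ) * (L - 69 / 100) := by
    refine mul_nonneg (mul_nonneg h0.le (by linarith)) (by linarith)
  have b4 : 29 / 100 * θ ≤ θ * ((1 - 2 * τ) * (69 / 100) - (1 - τ) * θ + τ * θ / 2 +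
      (1 - θ) * (1 - 3 * τ) / 2) := by
    rw [mul_comm]
    refine mul_le_mul_of_nonneg_left ?_ h0.le
    nlinarith [mul_nonneg h0.le t0, mul_nonneg h0.le (show 0 ≤ 1 / 100 - τ by linarith)]
  nlinarith

theorem numB (ψ τ : ℝ) (h0 : 0 < ψ) (h1 : ψ ≤ 1 / 2) (t0 : 0 ≤ τ) (t1 : τ ≤ 1 / 100) :
    29 / 100 * ψ ≤ Real.binEntropy (1 - ψ) +
      (1 - ψ) * ((1 - τ) * log ((1 - ψ) / (1 - ψ / 2)) + τ * log ((1 - ψ) / (1 + ψ))) +
      ψ * (τ * log (ψ / 2 / (1 - ψ / 2)) + (1 - τ) * log (2 * ψ / (1 + ψ))) := by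
  have a1 : (1 + ψ) ≠ 0 := by linarith
  have a2 : (1 - ψ / 2) ≠ 0 := by linarith
  have a3 : (1 - ψ) ≠ 0 := by linarith
  rw [Real.binEntropy, Real.log_inv, Real.log_inv, Real.log_div (show 2 * ψ ≠ 0 by positivity) a1,
    Real.log_div (show ψ / 2 ≠ 0 by positivity) a2, Real.log_div a3 a1, Real.log_div a3 a2,
    Real.log_mul (by norm_num) h0.ne', Real.log_div h0.ne' (by norm_num)]
  have e0 : 1 - (1 - ψ) = ψ := by ring
  rw [e0]
  have hx : log (1 + ψ) ≤ ψ := by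
    have := Real.log_le_sub_one_of_pos (show 0 < 1 + ψ by linarith)
    linarith
  have hy : log (1 - ψ / 2) ≤ -(ψ / 2) := by
    have := Real.log_le_sub_one_of_pos (show 0 < 1 - ψ / 2 by linarith)
    linarith
  have hL := Real.log_two_gt_d9
  set x := log (1 + ψ)
  set y := log (1 - ψ / 2)
  set L := log 2
  have e : (1 - ψ) * -log (1 - ψ) + ψ * -log ψ +
      (1 - ψ) * ((1 - τ) * (log (1 - ψ) - y) + τ * (log (1 - ψ) - x)) +
      ψ * (τ * (log ψ - L - y) + (1 - τ) * (L + log ψ - x)) =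
      ψ * ((1 - τ) * (L - x) - τ * L - τ * y) + (1 - ψ) * (-τ * x - (1 - τ) * y) := by ring
  rw [e]
  have c1 : 0 ≤ ψ * (1 - τ) + (1 - ψ) * τ := by
    have := mul_nonneg h0.le (show 0 ≤ 1 - τ by linarith)
    have := mul_nonneg (show 0 ≤ 1 - ψ by linarith) t0
    linarith
  have c2 : 0 ≤ ψ * τ + (1 - ψ) * (1 - τ) := by
    have := mul_nonneg h0.le t0
    have := mul_nonneg (show 0 ≤ 1 - ψ by linarith) (show 0 ≤ 1 - τ by linarith)
    linarith
  have b1 := mul_le_mul_of_nonneg_left hx c1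
  have b2 := mul_le_mul_of_nonneg_left hy c2
  have b3 : 0 ≤ ψ * (1 - 2 * τ) * (L - 69 / 100) := by
    refine mul_nonneg (mul_nonneg h0.le (by linarith)) (by linarith)
  have b4 : 29 / 100 * ψ ≤ ψ * ((1 - 2 * τ) * (69 / 100) - (1 - τ) * ψ + τ * ψ / 2 +
      (1 - ψ) * (1 - 3 * τ) / 2) := by
    rw [mul_comm]
    refine mul_le_mul_of_nonneg_left ?_ h0.le
    nlinarith [mul_nonneg h0.le t0, mul_nonneg h0.le (show 0 ≤ 1 / 100 - τ by linarith)]
  nlinarith

theorem numC (ψ τ : ℝ) (h0 : 0 < ψ) (h1 : ψ ≤ 1 / 2) (t0 : 0 ≤ τ) (t1 : τ ≤ 1 / 100)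
    (t2 : τ ≤ ψ) :
    ψ * (99 / 100 * (-log ψ) - 138 / 100) ≤ Real.binEntropy (1 - ψ) +
      (1 - ψ) * ((1 - τ) * log (1 - ψ) + τ * log (1 / 2)) +
      ψ * (τ * log ψ + (1 - τ) * log (1 / 2)) := by
  rw [Real.binEntropy, Real.log_inv, Real.log_inv, one_div, Real.log_inv]
  have e0 : 1 - (1 - ψ) = ψ := by ring
  rw [e0]
  have hL := Real.log_two_lt_d9
  have hL0 := Real.log_two_gt_d9
  have h2 : log (1 - ψ) ≤ 0 := Real.log_nonpos (by linarith) (by linarith)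
  have h3 : log ψ ≤ -log 2 := by
    rw [← Real.log_inv]
    exact Real.log_le_log h0 (by norm_num at h1 ⊢; linarith)
  set x := log (1 - ψ)
  set y := log ψ
  set L := log 2
  have e : (1 - ψ) * -x + ψ * -y + (1 - ψ) * ((1 - τ) * x + τ * -L) +
      ψ * (τ * y + (1 - τ) * -L) =
      -((1 - ψ) * τ * x) - (1 - ψ) * τ * L + (1 - τ) * ψ * (-y - L) := by ring
  rw [e]
  have b1 : 0 ≤ (1 - ψ) * τ * (-x) :=
    mul_nonneg (mul_nonneg (by linarith) t0) (by linarith)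
  have b2 : (1 - ψ) * τ * L ≤ ψ * L := by
    refine mul_le_mul_of_nonneg_right ?_ (by linarith)
    nlinarith
  have b3 : (99 / 100) * ψ * (-y - L) ≤ (1 - τ) * ψ * (-y - L) := by
    refine mul_le_mul_of_nonneg_right ?_ (by linarith)
    exact mul_le_mul_of_nonneg_right (by linarith) h0.le
  nlinarith

/-- The combination of the two bounds for `θ = 1 - ψ`. -/
theorem numComb (ψ I : ℝ) (h0 : 0 < ψ) (h1 : ψ ≤ 1 / 2) (hB : 29 / 100 * ψ ≤ I)
    (hC : ψ * (99 / 100 * (-log ψ) - 138 / 100) ≤ I) :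
    Real.binEntropy (1 - ψ) ≤ 16 * I := by
  rw [Real.binEntropy_one_sub]
  have h2 := bin_le ψ (by linarith)
  rcases le_or_gt (-log ψ) (36 / 10) with h3 | h3
  · nlinarith
  · nlinarith

end Pool.Agent.H87.LL
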