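import Mathlib
import Pool.Agent.H87.LL.NumG

/-!
# One coordinate of the local estimate
-/

set_option autoImplicit false

namespace Pool.Agent.H87.LL

open Finset Real

theorem log_term (x z : ℝ) (hx : 0 < x) (hz : 0 ≤ z) :
    z * -log (z / x) = z * log x - z * log z := by
  rcases hz.eq_or_lt with h | h
  · rw [← h]; simp
  · rw [Real.log_div h.ne' hx.ne']
    ring

theorem ent_term (x y : ℝ) (hy : 0 ≤ y) (hxy : y ≤ x) :
    x * Real.binEntropy (y / x) = x * log x - (x - y) * log (x - y) - y * log y := by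
  rcases (hy.trans hxy).eq_or_lt with h | h
  · have : y = 0 := by linarith
    rw [← h, this]; simp
  · have h1 := log_term x y h hy
    have h2 := log_term x (x - y) h (by linarith)
    have h3 : 1 - y / x = (x - y) / x := by field_simp
    rw [Real.binEntropy, h3, Real.log_inv, Real.log_inv]
    have h4 : x * (y / x * -log (y / x) + (x - y) / x * -log ((x - y) / x)) =
        y * -log (y / x) + (x - y) * -log ((x - y) / x) := by
      field_simp
    rw [h4, h1, h2]
    ring

theorem tele (n : ℕ → ℝ) (a b : ℕ) (hab : a ≤ b) :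
    ∑ v ∈ Finset.Ico a b, (n v - n (v + 1)) = n a - n b := by
  induction b, hab using Nat.le_induction with
  | base => simp
  | succ b hab ih => rw [Finset.sum_Ico_succ_top hab, ih]; ring

theorem tele_ent (n : ℕ → ℝ) (hn : Antitone n) (hn0 : ∀ v, 0 ≤ n v) (a b : ℕ) (hab : a ≤ b) :
    ∑ v ∈ Finset.Ico a b, n v * Real.binEntropy (n (v + 1) / n v) =
      n a * log (n a) - n b * log (n b) -
        ∑ v ∈ Finset.Ico a b, (n v - n (v + 1)) * log (n v - n (v + 1)) := by
  induction b, hab using Nat.le_induction with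
  | base => simp
  | succ b hab ih =>
    rw [Finset.sum_Ico_succ_top hab, Finset.sum_Ico_succ_top hab, ih,
      ent_term (n b) (n (b + 1)) (hn0 _) (hn (Nat.le_succ b))]
    ring

theorem gf_term_nonneg (n : ℕ → ℝ) (hn : Antitone n) (hn0 : ∀ v, 0 ≤ n v) (v : ℕ) :
    0 ≤ n v * gf (n (v + 1) / n v) :=
  mul_nonneg (hn0 v) (gf_nonneg _ (div_nonneg (hn0 _) (hn0 _))
    (div_le_one_of_le₀ (hn (Nat.le_succ v)) (hn0 _)))

/-- The entropy beyond the first halving. -/
theorem ent_tail (n : ℕ → ℝ) (hn : Antitone n) (hn0 : ∀ v, 0 ≤ n v) (F d : ℕ) :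
    ∀ a, a + d = F → n F = 0 →
    ∑ v ∈ Finset.Ico a F, n v * Real.binEntropy (n (v + 1) / n v) ≤
      ∑ v ∈ Finset.Ico a F, n v * gf (n (v + 1) / n v) + 2 * log 2 * n a := by
  induction d with
  | zero =>
    intro a ha hF
    have : a = F := by omega
    rw [this, hF]
    simp
  | succ d ih =>
    intro a ha hF
    have haF : a < F := by omega
    rw [Finset.sum_eq_sum_Ico_succ_bot haF, Finset.sum_eq_sum_Ico_succ_bot haF]
    have h1 := ih (a + 1) (by omega) hF
    have hL : 0 < log 2 := Real.log_pos (by norm_num)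
    have h2 := hn (Nat.le_succ a)
    have h2' : n (a + 1) ≤ n a := h2
    by_cases hθ : n (a + 1) / n a < 1 / 2
    · have hg := gf_term_nonneg n hn hn0 a
      have h3 : n a * Real.binEntropy (n (a + 1) / n a) ≤ n a * log 2 :=
        mul_le_mul_of_nonneg_left Real.binEntropy_le_log_two (hn0 a)
      have h4 : 2 * n (a + 1) ≤ n a := by
        rcases (hn0 a).eq_or_lt with h | h
        · have := hn0 (a + 1)
          linarith
        · rw [div_lt_iff₀ h] at hθ
          linarith
      nlinarith
    · have h3 : gf (n (a + 1) / n a) = Real.binEntropy (n (a + 1) / n a) := if_neg hθ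
      rw [h3]
      nlinarith

/-- The first halving. -/
theorem exists_half (n : ℕ → ℝ) (hn0 : ∀ v, 0 ≤ n v) (h0 : 0 < n 0) (F : ℕ)
    (hF : n F = 0) : ∃ e < F, 0 < n e ∧ 2 * n (e + 1) < n e ∧
      ∀ v < e, n v ≤ 2 * n (v + 1) := by
  classical
  have hex : ∃ j, n j = 0 := ⟨F, hF⟩
  have hspec := Nat.find_spec hex
  have hmin := fun m => Nat.find_min hex (m := m)
  have hj0 : Nat.find hex ≠ 0 := by
    intro h
    rw [h] at hspec
    linarith
  obtain ⟨j, hj⟩ := Nat.exists_eq_succ_of_ne_zero hj0
  have hjF : Nat.find hex ≤ F := Nat.find_le hF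
  have hjpos : ∀ v ≤ j, 0 < n v := by
    intro v hv
    exact lt_of_le_of_ne (hn0 v) (Ne.symm (hmin v (by omega)))
  have hex2 : ∃ e, 2 * n (e + 1) < n e := by
    refine ⟨j, ?_⟩
    have : n (j + 1) = 0 := by
      rw [hj] at hspec
      exact hspec
    rw [this, mul_zero]
    exact hjpos j le_rfl
  have hspec2 := Nat.find_spec hex2
  have hmin2 := fun m => Nat.find_min hex2 (m := m)
  have hle : Nat.find hex2 ≤ j := by
    apply Nat.find_le
    have : n (j + 1) = 0 := by
      rw [hj] at hspec
      exact hspec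
    rw [this, mul_zero]
    exact hjpos j le_rfl
  refine ⟨Nat.find hex2, by omega, hjpos _ hle, hspec2, ?_⟩
  intro v hv
  have := hmin2 v hv
  push Not at this
  exact this

/-- One coordinate. -/
theorem coord (n : ℕ → ℝ) (hn : Antitone n) (hn0 : ∀ v, 0 ≤ n v) (h0 : 0 < n 0) (F : ℕ)
    (hF : n F = 0) (K : ℝ) (hK : 2 ≤ K) :
    ∃ (e : ℕ) (lam : ℕ → ℝ) (A : ℝ), e < F ∧ (∀ v, 0 ≤ lam v) ∧
      (∀ v < F, n (v + 1) < n v → 0 < lam v) ∧
      ∑ v ∈ Finset.range F, lam v = 1 ∧ 0 < A ∧
      ∑ v ∈ (Finset.range F).filter (fun v => e ≤ v), lam v = A ∧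
      (1 - 1 / K) * A ≤ lam e ∧
      ∑ v ∈ Finset.range F, (n v - n (v + 1)) *
        (-log (if v = e then A else lam v) + (if v = e then 0 else log 2)) ≤
        4 * log K * ∑ v ∈ Finset.range F, n v * gf (n (v + 1) / n v) := by
  obtain ⟨e, heF, hne, he2, hemin⟩ := exists_half n hn0 h0 F hF
  set N : ℝ := n 0 with hN
  have hq : ∀ v, 0 ≤ n v - n (v + 1) := fun v => sub_nonneg.2 (hn (Nat.le_succ v))
  have hK0 : 0 < K := by linarith
  set A : ℝ := n e / N with hA
  have hA0 : 0 < A := div_pos hne h0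
  set δ : ℝ := n (e + 1) / n (e + 1) with hδ
  have hδ0 : 0 ≤ δ := div_nonneg (hn0 _) (hn0 _)
  have hδ1 : δ ≤ 1 := div_self_le_one _
  have hK1 : 1 / K ≤ 1 / 2 := one_div_le_one_div_of_le (by norm_num) hK
  have hK2 : 0 < 1 / K := by positivity
  set lam : ℕ → ℝ := fun v => if v < e then (n v - n (v + 1)) / N else
    if v = e then A * (1 - δ / K) else A / K * ((n v - n (v + 1)) / n (e + 1)) with hlam
  have hl1 : ∀ v, v < e → lam v = (n v - n (v + 1)) / N := fun v hv => if_pos hv
  have hl2 : lam e = A * (1 - δ / K) := by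
    simp only [hlam, lt_irrefl, if_false, if_true]
  have hl3 : ∀ v, e < v → lam v = A / K * ((n v - n (v + 1)) / n (e + 1)) := by
    intro v hv
    simp only [hlam]
    rw [if_neg (by omega), if_neg (by omega)]
  have hδK : δ / K ≤ 1 / K := div_le_div_of_nonneg_right hδ1 hK0.le
  have hδK0 : 0 ≤ δ / K := div_nonneg hδ0 hK0.le
  have hrange : Finset.range F = Finset.Ico 0 F := by rw [Finset.range_eq_Ico]
  have hsplit : ∀ g : ℕ → ℝ, ∑ v ∈ Finset.range F, g v =
      ∑ v ∈ Finset.Ico 0 e, g v + (g e + ∑ v ∈ Finset.Ico (e + 1) F, g v) := by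
    intro g
    rw [hrange, ← Finset.sum_Ico_consecutive g (Nat.zero_le e) heF.le,
      Finset.sum_eq_sum_Ico_succ_bot heF]
  have hsum1 : ∑ v ∈ Finset.Ico 0 e, lam v = (N - n e) / N := by
    rw [Finset.sum_congr rfl (fun v hv => hl1 v (Finset.mem_Ico.1 hv).2), ← Finset.sum_div,
      tele n 0 e (Nat.zero_le _)]
  have hsum2 : ∑ v ∈ Finset.Ico (e + 1) F, lam v = A / K * δ := by
    rw [Finset.sum_congr rfl (fun v hv => hl3 v (Finset.mem_Ico.1 hv).1), ← Finset.mul_sum,
      ← Finset.sum_div, tele n (e + 1) F heF, hF, sub_zero]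
  refine ⟨e, lam, A, heF, ?_, ?_, ?_, hA0, ?_, ?_, ?_⟩
  · intro v
    rcases lt_trichotomy v e with h | h | h
    · rw [hl1 v h]
      exact div_nonneg (hq v) h0.le
    · rw [h, hl2]
      exact mul_nonneg hA0.le (by linarith)
    · rw [hl3 v h]
      exact mul_nonneg (div_nonneg hA0.le hK0.le) (div_nonneg (hq v) (hn0 _))
  · intro v _ hv2
    have hqv : 0 < n v - n (v + 1) := sub_pos.2 hv2
    rcases lt_trichotomy v e with h | h | h
    · rw [hl1 v h]
      exact div_pos hqv h0
    · rw [h, hl2]
      exact mul_pos hA0 (by linarith)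
    · rw [hl3 v h]
      have : n v ≤ n (e + 1) := hn h
      have h5 := hn0 (v + 1)
      exact mul_pos (div_pos hA0 hK0) (div_pos hqv (by linarith))
  · rw [hsplit, hsum1, hsum2, hl2, hA]
    field_simp
    ring
  · have h1 : (Finset.range F).filter (fun v => e ≤ v) = Finset.Ico e F := by
      ext v
      simp only [Finset.mem_filter, Finset.mem_range, Finset.mem_Ico]
      omega
    rw [h1, Finset.sum_eq_sum_Ico_succ_bot heF, hsum2, hl2]
    field_simp
    ring
  · rw [hl2, mul_comm]
    exact mul_le_mul_of_nonneg_left (by linarith) hA0.le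
  · -- the cost
    rw [hsplit]
    have hL0 : 0 < log 2 := Real.log_pos (by norm_num)
    have hLK : log 2 ≤ log K := Real.log_le_log (by norm_num) hK
    -- below `e`
    have c1 : ∑ v ∈ Finset.Ico 0 e, (n v - n (v + 1)) *
        (-log (if v = e then A else lam v) + (if v = e then 0 else log 2)) =
        (N - n e) * (log N + log 2) -
          ∑ v ∈ Finset.Ico 0 e, (n v - n (v + 1)) * log (n v - n (v + 1)) := by
      rw [← tele n 0 e (Nat.zero_le _), Finset.sum_mul, ← Finset.sum_sub_distrib]
      refine Finset.sum_congr rfl fun v hv => ?_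
      have hv' := (Finset.mem_Ico.1 hv).2
      rw [if_neg (by omega), if_neg (by omega), hl1 v hv']
      have := log_term N (n v - n (v + 1)) h0 (hq v)
      linarith
    have c2 : (n e - n (e + 1)) *
        (-log (if e = e then A else lam e) + (if e = e then 0 else log 2)) =
        (n e - n (e + 1)) * (log N - log (n e)) := by
      rw [if_pos rfl, if_pos rfl, hA, Real.log_div hne.ne' h0.ne']
      ring
    have c3 : ∑ v ∈ Finset.Ico (e + 1) F, (n v - n (v + 1)) *
        (-log (if v = e then A else lam v) + (if v = e then 0 else log 2)) =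
        n (e + 1) * (log N - log (n e) + log K + log (n (e + 1)) + log 2) -
          ∑ v ∈ Finset.Ico (e + 1) F, (n v - n (v + 1)) * log (n v - n (v + 1)) := by
      have e1 : n (e + 1) = ∑ v ∈ Finset.Ico (e + 1) F, (n v - n (v + 1)) := by
        rw [tele n (e + 1) F heF, hF, sub_zero]
      have e2 : n (e + 1) * (log N - log (n e) + log K + log (n (e + 1)) + log 2) =
          ∑ v ∈ Finset.Ico (e + 1) F, (n v - n (v + 1)) *
            (log N - log (n e) + log K + log (n (e + 1)) + log 2) := by
        rw [← Finset.sum_mul, ← e1]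
      rw [e2, ← Finset.sum_sub_distrib]
      refine Finset.sum_congr rfl fun v hv => ?_
      have hv' := (Finset.mem_Ico.1 hv).1
      rw [if_neg (by omega), if_neg (by omega), hl3 v hv']
      rcases (hq v).eq_or_lt with h | h
      · rw [← h]; simp
      · have h5 : n v ≤ n (e + 1) := hn hv'
        have h6 := hn0 (v + 1)
        have h7 : 0 < n (e + 1) := by linarith
        rw [Real.log_mul (by positivity) (by positivity), Real.log_div (by positivity) hK0.ne',
          Real.log_div h.ne' h7.ne', hA, Real.log_div hne.ne' h0.ne']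
        ring
    rw [c1, c2, c3]
    have t1 := tele_ent n hn hn0 0 e (Nat.zero_le _)
    have t2 := tele_ent n hn hn0 (e + 1) F heF
    have t3 := ent_tail n hn hn0 F (F - (e + 1)) (e + 1) (by omega) hF
    rw [hF, zero_mul, sub_zero] at t2
    -- the entropies below `e`
    have hgf1 : ∑ v ∈ Finset.Ico 0 e, n v * Real.binEntropy (n (v + 1) / n v) =
        ∑ v ∈ Finset.Ico 0 e, n v * gf (n (v + 1) / n v) := by
      refine Finset.sum_congr rfl fun v hv => ?_
      have hv' := (Finset.mem_Ico.1 hv).2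
      have h5 : 0 < n v := hne.trans_le (hn hv'.le)
      have h6 : ¬ n (v + 1) / n v < 1 / 2 := by
        rw [not_lt, le_div_iff₀ h5]
        have := hemin v hv'
        linarith
      rw [gf, if_neg h6]
    have hlow : log 2 * (N - n e) ≤ ∑ v ∈ Finset.Ico 0 e, n v * gf (n (v + 1) / n v) := by
      rw [← hgf1, ← tele n 0 e (Nat.zero_le _), Finset.mul_sum]
      refine Finset.sum_le_sum fun v hv => ?_
      have hv' := (Finset.mem_Ico.1 hv).2
      have h5 : 0 < n v := hne.trans_le (hn hv'.le)
      have h6 := hemin v hv'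
      rw [ent_term (n v) (n (v + 1)) (hn0 _) (hn (Nat.le_succ v))]
      rcases (hq v).eq_or_lt with h | h
      · have h7 : n (v + 1) = n v := by linarith
        rw [← h, h7]; simp
      · have h7 : log (n v - n (v + 1)) ≤ log (n v) - log 2 := by
          rw [← Real.log_div h5.ne' (by norm_num)]
          exact Real.log_le_log h (by linarith)
        have h8 : 0 < n (v + 1) := by linarith
        have h9 : log (n (v + 1)) ≤ log (n v) := Real.log_le_log h8 (hn (Nat.le_succ v))
        nlinarith
    have hmid : n e * gf (n (e + 1) / n e) = n (e + 1) := by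
      have h6 : n (e + 1) / n e < 1 / 2 := by
        rw [div_lt_iff₀ hne]
        linarith
      rw [gf, if_pos h6]
      field_simp
    rw [hsplit (fun v => n v * gf (n (v + 1) / n v)), hmid]
    set X := ∑ v ∈ Finset.Ico 0 e, n v * gf (n (v + 1) / n v) with hX
    set Y := ∑ v ∈ Finset.Ico (e + 1) F, n v * gf (n (v + 1) / n v) with hY
    have hX0 : 0 ≤ X := Finset.sum_nonneg fun v _ => gf_term_nonneg n hn hn0 v
    have hY0 : 0 ≤ Y := Finset.sum_nonneg fun v _ => gf_term_nonneg n hn hn0 v
    have hn1 := hn0 (e + 1)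
    rw [hgf1] at t1
    have hL2 := Real.log_two_gt_d9
    have b1 : 2 * X ≤ 4 * log K * X := by
      refine mul_le_mul_of_nonneg_right ?_ hX0
      linarith
    have b2 : Y ≤ 4 * log K * Y := by
      refine le_mul_of_one_le_left hY0 ?_
      linarith
    have b3 : n (e + 1) * (log K + log 2 + 2 * log 2) ≤ 4 * log K * n (e + 1) := by
      rw [mul_comm]
      refine mul_le_mul_of_nonneg_right ?_ hn1
      linarith
    linarith

end Pool.Agent.H87.LL
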