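import Mathlib
import Pool.Agent.H87.FS.Layer

/-!
# Distributions on a finite abelian group without small orders

`μ`, `ρ` are probability distributions on a finite abelian group, `σ` is a subprobability
distribution and `a y ≤ log (σ (y + y')) - log (μ y) / 2 - log (ρ y') / 2` on the supports. We
bound `- ∑ μ a` from below.
-/

set_option autoImplicit false
set_option linter.unusedSectionVars false

namespace Pool.Agent.H87.LL

open Finset Real

/-- The log sum inequality. -/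
theorem gibbs {α : Type*} (S : Finset α) (p s : α → ℝ) (t u : ℝ) (hp : ∀ y ∈ S, 0 ≤ p y)
    (hs : ∀ y ∈ S, 0 ≤ s y) (hps : ∀ y ∈ S, 0 < p y → 0 < s y) (ht : ∑ y ∈ S, p y = t)
    (hu : ∑ y ∈ S, s y ≤ u) (hu0 : 0 < u) :
    ∑ y ∈ S, p y * log (s y) ≤ ∑ y ∈ S, p y * log (p y) + t * log u - t * log t := by
  have ht0 : 0 ≤ t := ht ▸ Finset.sum_nonneg hp
  rcases ht0.eq_or_lt with h0 | h0
  · have hz : ∀ y ∈ S, p y = 0 := (Finset.sum_eq_zero_iff_of_nonneg hp).1 (by rw [ht, h0])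
    have e1 : ∑ y ∈ S, p y * log (s y) = 0 :=
      Finset.sum_eq_zero fun y hy => by rw [hz y hy, zero_mul]
    have e2 : ∑ y ∈ S, p y * log (p y) = 0 :=
      Finset.sum_eq_zero fun y hy => by rw [hz y hy, zero_mul]
    rw [e1, e2, ← h0]
    simp
  · have hpt : ∀ y ∈ S, p y * (log (s y) - log (p y) - log u + log t) ≤ s y * (t / u) - p y := by
      intro y hy
      rcases (hp y hy).eq_or_lt with h1 | h1
      · rw [← h1, zero_mul, sub_zero]
        exact mul_nonneg (hs y hy) (div_nonneg h0.le hu0.le)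
      · have h2 := hps y hy h1
        have h3 : log (s y * t / (p y * u)) = log (s y) - log (p y) - log u + log t := by
          rw [Real.log_div (by positivity) (by positivity), Real.log_mul h2.ne' h0.ne',
            Real.log_mul h1.ne' hu0.ne']
          ring
        have h4 := Real.log_le_sub_one_of_pos (show 0 < s y * t / (p y * u) by positivity)
        rw [h3] at h4
        have h5 := mul_le_mul_of_nonneg_left h4 h1.le
        have h6 : p y * (s y * t / (p y * u) - 1) = s y * (t / u) - p y := by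
          field_simp
        rw [h6] at h5
        exact h5
    have hsum := Finset.sum_le_sum hpt
    have e1 : ∑ y ∈ S, p y * (log (s y) - log (p y) - log u + log t) =
        ∑ y ∈ S, p y * log (s y) - ∑ y ∈ S, p y * log (p y) - t * log u + t * log t := by
      rw [← ht, Finset.sum_mul, Finset.sum_mul, ← Finset.sum_sub_distrib,
        ← Finset.sum_sub_distrib, ← Finset.sum_add_distrib]
      exact Finset.sum_congr rfl fun y _ => by ring
    have e2 : ∑ y ∈ S, (s y * (t / u) - p y) = (∑ y ∈ S, s y) * (t / u) - t := by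
      rw [Finset.sum_sub_distrib, ht, Finset.sum_mul]
    rw [e1, e2] at hsum
    have e3 : (∑ y ∈ S, s y) * (t / u) ≤ t := by
      have := mul_le_mul_of_nonneg_right hu (div_nonneg h0.le hu0.le)
      have h7 : u * (t / u) = t := by field_simp
      linarith
    linarith

variable {G : Type*} [AddCommGroup G] [Fintype G] [DecidableEq G]

/-- The data. -/
structure Cfg (μ ρ σ a : G → ℝ) : Prop where
  p0 : ∀ y, 0 ≤ μ y
  p1 : ∑ y, μ y = 1
  r0 : ∀ y, 0 ≤ ρ y
  r1 : ∑ y, ρ y = 1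
  s0 : ∀ y, 0 ≤ σ y
  s1 : ∑ y, σ y ≤ 1
  pos : ∀ y y', 0 < μ y → 0 < ρ y' → 0 < σ (y + y')
  le : ∀ y y', 0 < μ y → 0 < ρ y' →
    a y ≤ log (σ (y + y')) - log (μ y) / 2 - log (ρ y') / 2

/-- Entropy. -/
noncomputable def ent (ρ : G → ℝ) : ℝ := -∑ y, ρ y * log (ρ y)

namespace Cfg

variable {μ ρ σ a : G → ℝ} (h : Cfg μ ρ σ a)

include h

theorem c1 (y : G) (hy : 0 < μ y) : a y ≤ -ent ρ / 2 - log (μ y) / 2 := by
  have h1 : ∑ y', ρ y' * a y ≤
      ∑ y', ρ y' * (log (σ (y + y')) - log (μ y) / 2 - log (ρ y') / 2) := by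
    refine Finset.sum_le_sum fun y' _ => ?_
    rcases (h.r0 y').eq_or_lt with h0 | h0
    · rw [← h0]; simp
    · exact mul_le_mul_of_nonneg_left (h.le y y' hy h0) h0.le
  rw [← Finset.sum_mul, h.r1, one_mul] at h1
  have h2 : ∑ y', ρ y' * (log (σ (y + y')) - log (μ y) / 2 - log (ρ y') / 2) =
      ∑ y', ρ y' * log (σ (y + y')) - log (μ y) / 2 - (∑ y', ρ y' * log (ρ y')) / 2 := by
    have e : ∑ y', ρ y' * (log (μ y) / 2) = log (μ y) / 2 := by
      rw [← Finset.sum_mul, h.r1, one_mul]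
    simp only [mul_sub, Finset.sum_sub_distrib, e, Finset.sum_div, mul_div_assoc]
  have h3 := gibbs Finset.univ ρ (fun y' => σ (y + y')) 1 1 (fun y' _ => h.r0 y')
    (fun y' _ => h.s0 _) (fun y' _ h0 => h.pos y y' hy h0) h.r1
    (by
      have : ∑ y', σ (y + y') = ∑ z, σ z :=
        Equiv.sum_comp (Equiv.addLeft y) σ
      rw [this]
      exact h.s1) one_pos
  simp only [Real.log_one, mul_zero, add_zero, sub_zero] at h3
  rw [h2] at h1
  unfold ent
  linarith

theorem c2 (S : Finset G) (t : ℝ) (ht : ∑ y ∈ S, μ y = t) (y' : G) (hy' : 0 < ρ y') :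
    ∑ y ∈ S, μ y * a y ≤ -t * log t + (∑ y ∈ S, μ y * log (μ y)) / 2 - t * log (ρ y') / 2 := by
  have h1 : ∑ y ∈ S, μ y * a y ≤
      ∑ y ∈ S, μ y * (log (σ (y + y')) - log (μ y) / 2 - log (ρ y') / 2) := by
    refine Finset.sum_le_sum fun y _ => ?_
    rcases (h.p0 y).eq_or_lt with h0 | h0
    · rw [← h0]; simp
    · exact mul_le_mul_of_nonneg_left (h.le y y' h0 hy') h0.le
  have h2 : ∑ y ∈ S, μ y * (log (σ (y + y')) - log (μ y) / 2 - log (ρ y') / 2) =
      ∑ y ∈ S, μ y * log (σ (y + y')) - (∑ y ∈ S, μ y * log (μ y)) / 2 -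
        t * log (ρ y') / 2 := by
    have e : t * log (ρ y') / 2 = ∑ y ∈ S, μ y * (log (ρ y') / 2) := by
      rw [← Finset.sum_mul, ht]; ring
    rw [e, Finset.sum_div, ← Finset.sum_sub_distrib, ← Finset.sum_sub_distrib]
    exact Finset.sum_congr rfl fun y' _ => by ring
  have h3 := gibbs S μ (fun y => σ (y + y')) t 1 (fun y _ => h.p0 y)
    (fun y _ => h.s0 _) (fun y _ h0 => h.pos y y' h0 hy') ht
    (by
      calc ∑ y ∈ S, σ (y + y') ≤ ∑ y, σ (y + y') :=
            Finset.sum_le_sum_of_subset_of_nonneg (Finset.subset_univ S) fun _ _ _ => h.s0 _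
        _ = ∑ z, σ z := Equiv.sum_comp (Equiv.addRight y') σ
        _ ≤ 1 := h.s1) one_pos
  simp only [Real.log_one, mul_zero, add_zero] at h3
  rw [h2] at h1
  linarith

theorem c3 (S : Finset G) (t : ℝ) (ht : ∑ y ∈ S, μ y = t) :
    ∑ y ∈ S, μ y * a y ≤ -t * log t + (∑ y ∈ S, μ y * log (μ y)) / 2 + t * ent ρ / 2 := by
  have h1 : ∑ y', ρ y' * ∑ y ∈ S, μ y * a y ≤
      ∑ y', ρ y' * (-t * log t + (∑ y ∈ S, μ y * log (μ y)) / 2 - t * log (ρ y') / 2) := by
    refine Finset.sum_le_sum fun y' _ => ?_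
    rcases (h.r0 y').eq_or_lt with h0 | h0
    · rw [← h0]; simp
    · exact mul_le_mul_of_nonneg_left (h.c2 S t ht y' h0) h0.le
  rw [← Finset.sum_mul, h.r1, one_mul] at h1
  have h2 : ∑ y', ρ y' * (-t * log t + (∑ y ∈ S, μ y * log (μ y)) / 2 - t * log (ρ y') / 2) =
      (-t * log t + (∑ y ∈ S, μ y * log (μ y)) / 2) + t * ent ρ / 2 := by
    generalize (∑ y ∈ S, μ y * log (μ y)) = D
    have e : ∑ y', ρ y' * (-t * log t + D / 2) = -t * log t + D / 2 := by
      rw [← Finset.sum_mul, h.r1, one_mul]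
    have e2 : ∑ y', ρ y' * (t * log (ρ y') / 2) = -(t * ent ρ / 2) := by
      unfold ent
      rw [mul_neg, neg_div, neg_neg, Finset.mul_sum, Finset.sum_div]
      exact Finset.sum_congr rfl fun y' _ => by ring
    simp only [mul_sub, Finset.sum_sub_distrib, e, e2]
    ring
  linarith

theorem c4 (S : Finset G) (t : ℝ) (ht : ∑ y ∈ S, μ y = t) :
    ∑ y ∈ S, μ y * a y ≤ -t * ent ρ / 2 - (∑ y ∈ S, μ y * log (μ y)) / 2 := by
  have h1 : ∑ y ∈ S, μ y * a y ≤ ∑ y ∈ S, μ y * (-ent ρ / 2 - log (μ y) / 2) := by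
    refine Finset.sum_le_sum fun y _ => ?_
    rcases (h.p0 y).eq_or_lt with h0 | h0
    · rw [← h0]; simp
    · exact mul_le_mul_of_nonneg_left (h.c1 y h0) h0.le
  refine h1.trans (le_of_eq ?_)
  rw [← ht, Finset.sum_div, ← Finset.sum_neg_distrib, Finset.sum_mul, Finset.sum_div,
    ← Finset.sum_sub_distrib]
  exact Finset.sum_congr rfl fun y _ => by ring

/-- The tail bound. -/
theorem c5 (S : Finset G) (t : ℝ) (ht : ∑ y ∈ S, μ y = t) :
    ∑ y ∈ S, μ y * a y ≤ -t * log t / 2 := by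
  have h1 := h.c3 S t ht
  have h2 := h.c4 S t ht
  linarith

theorem nonneg : 0 ≤ -∑ y, μ y * a y := by
  have h1 := h.c5 Finset.univ 1 h.p1
  simp only [Real.log_one, mul_zero, zero_div] at h1
  linarith

end Cfg

theorem ent_nonneg (ρ : G → ℝ) (h0 : ∀ y, 0 ≤ ρ y) (h1 : ∑ y, ρ y = 1) : 0 ≤ ent ρ := by
  unfold ent
  rw [neg_nonneg]
  refine Finset.sum_nonpos fun y _ => ?_
  have h2 : ρ y ≤ 1 := by
    rw [← h1]
    exact Finset.single_le_sum (fun i _ => h0 i) (Finset.mem_univ y)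
  exact mul_nonpos_of_nonneg_of_nonpos (h0 y) (Real.log_nonpos (h0 y) h2)

theorem ent_le_max (ρ : G → ℝ) (h0 : ∀ y, 0 ≤ ρ y) (h1 : ∑ y, ρ y = 1) (m : ℝ)
    (hm : ∀ y, ρ y ≤ m) : -log m ≤ ent ρ := by
  unfold ent
  rw [neg_le_neg_iff]
  calc ∑ y, ρ y * log (ρ y) ≤ ∑ y, ρ y * log m := by
        refine Finset.sum_le_sum fun y _ => ?_
        rcases (h0 y).eq_or_lt with h2 | h2
        · rw [← h2]; simp
        · exact mul_le_mul_of_nonneg_left (Real.log_le_log h2 (hm y)) h2.le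
    _ = log m := by rw [← Finset.sum_mul, h1, one_mul]

theorem ent_ge (μ : G → ℝ) (h0 : ∀ y, 0 ≤ μ y) (h1 : ∑ y, μ y = 1) (y₀ : G) :
    Real.binEntropy (1 - μ y₀) ≤ ent μ ∧
      ∑ y ∈ Finset.univ.erase y₀, μ y * log (μ y) ≤ (1 - μ y₀) * log (1 - μ y₀) := by
  have hs : ∑ y ∈ Finset.univ.erase y₀, μ y = 1 - μ y₀ := by
    have := Finset.add_sum_erase Finset.univ μ (Finset.mem_univ y₀)
    linarith
  have h2 : ∑ y ∈ Finset.univ.erase y₀, μ y * log (μ y) ≤ (1 - μ y₀) * log (1 - μ y₀) := by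
    calc ∑ y ∈ Finset.univ.erase y₀, μ y * log (μ y) ≤
          ∑ y ∈ Finset.univ.erase y₀, μ y * log (1 - μ y₀) := by
          refine Finset.sum_le_sum fun y hy => ?_
          rcases (h0 y).eq_or_lt with h2 | h2
          · rw [← h2]; simp
          · refine mul_le_mul_of_nonneg_left (Real.log_le_log h2 ?_) h2.le
            rw [← hs]
            exact Finset.single_le_sum (fun i _ => h0 i) hy
      _ = (1 - μ y₀) * log (1 - μ y₀) := by rw [← Finset.sum_mul, hs]
  refine ⟨?_, h2⟩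
  unfold ent
  rw [← Finset.add_sum_erase Finset.univ _ (Finset.mem_univ y₀), Real.binEntropy]
  simp only [Real.log_inv, sub_sub_cancel]
  linarith

/-- `h (1/100)` is small. -/
theorem binEntropy_small (τ : ℝ) (h0 : 0 ≤ τ) (h1 : τ ≤ 1 / 100) :
    Real.binEntropy τ ≤ 7 / 100 := by
  have h2 : Real.binEntropy τ ≤ Real.binEntropy (1 / 100) := by
    rcases h1.eq_or_lt with h | h
    · rw [h]
    · exact (Real.binEntropy_strictMonoOn ⟨h0, by norm_num; linarith⟩
        ⟨by norm_num, by norm_num⟩ h).le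
  refine h2.trans ?_
  rw [Real.binEntropy]
  have h3 : log ((1 / 100 : ℝ)⁻¹) ≤ 5 := by
    rw [Real.log_le_iff_le_exp (by norm_num)]
    have := Real.exp_one_gt_d9
    have h4 : Real.exp 5 = Real.exp 1 ^ 5 := by
      rw [← Real.exp_nat_mul]; norm_num
    rw [h4]
    have h5 : (2.7 : ℝ) ^ 5 ≤ Real.exp 1 ^ 5 := by gcongr; linarith
    norm_num at h5 ⊢
    linarith
  have h4 : log ((1 - 1 / 100 : ℝ)⁻¹) ≤ (1 - 1 / 100 : ℝ)⁻¹ - 1 :=
    Real.log_le_sub_one_of_pos (by norm_num)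
  norm_num at h3 h4 ⊢
  linarith

/-- The concentrated case. -/
theorem Cfg.conc {μ ρ σ a : G → ℝ} (h : Cfg μ ρ σ a) (y₀ : G) (hy₀ : 1 - μ y₀ ≤ 1 / 100) :
    Real.binEntropy (1 - μ y₀) / 20 ≤ -∑ y, μ y * a y := by
  set τ : ℝ := 1 - μ y₀ with hτ
  have hμ1 : μ y₀ ≤ 1 := by
    rw [← h.p1]
    exact Finset.single_le_sum (fun i _ => h.p0 i) (Finset.mem_univ y₀)
  have hτ0 : 0 ≤ τ := by linarith
  have hμy : μ y₀ = 1 - τ := by linarith
  have hb0 : 0 ≤ Real.binEntropy τ := Real.binEntropy_nonneg hτ0 (by linarith)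
  have hE := ent_ge μ h.p0 h.p1 y₀
  rw [← hτ] at hE
  rcases le_or_gt (1.2 * Real.binEntropy τ) (ent ρ) with hc | hc
  · -- large entropy of `ρ`
    have h1 := h.c4 {y₀} (1 - τ) (by simp [hμy])
    have hs : ∑ y ∈ Finset.univ.erase y₀, μ y = τ := by
      have := Finset.add_sum_erase Finset.univ μ (Finset.mem_univ y₀)
      rw [h.p1] at this
      linarith
    have h2 := h.c3 (Finset.univ.erase y₀) τ hs
    have h3 := hE.2
    have h4 := Finset.add_sum_erase Finset.univ (fun y => μ y * a y) (Finset.mem_univ y₀)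
    simp only [Finset.sum_singleton, hμy] at h1
    rw [hμy] at h4
    have h5 : Real.binEntropy τ = -(τ * log τ) - (1 - τ) * log (1 - τ) := by
      rw [Real.binEntropy]
      simp only [Real.log_inv]
      ring
    nlinarith
  · -- small entropy of `ρ`
    obtain ⟨M, -, hM⟩ := Finset.exists_max_image Finset.univ ρ ⟨y₀, Finset.mem_univ _⟩
    have hM' : ∀ y, ρ y ≤ ρ M := fun y => hM y (Finset.mem_univ y)
    have hρM : 0 < ρ M := by
      by_contra hcon
      push Not at hcon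
      have : ∑ y, ρ y ≤ 0 := Finset.sum_nonpos fun y _ => (hM' y).trans hcon
      rw [h.r1] at this
      linarith
    have h1 := ent_le_max ρ h.r0 h.r1 (ρ M) hM'
    have h2 := binEntropy_small τ hτ0 hy₀
    have h3 : log (ρ M) ≤ ρ M - 1 := Real.log_le_sub_one_of_pos hρM
    have hρ1 : ρ M ≤ 1 := by
      rw [← h.r1]
      exact Finset.single_le_sum (fun i _ => h.r0 i) (Finset.mem_univ M)
    -- `ρ M ≥ 9/10`
    have h4 : 1 - 1.2 * (7 / 100) ≤ ρ M := by
      have h5 : -(1.2 * (7 / 100)) ≤ log (ρ M) := by nlinarith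
      have h6 := Real.add_one_le_exp (-(1.2 * (7 / 100)) : ℝ)
      rw [Real.le_log_iff_exp_le hρM] at h5
      linarith
    set υ : ℝ := 1 - ρ M with hυ
    have hυ0 : 0 ≤ υ := by linarith
    have hυ1 : υ ≤ 1 / 10 := by
      norm_num at h4
      linarith
    have hEρ := (ent_ge ρ h.r0 h.r1 M).1
    rw [← hυ] at hEρ
    -- entropy of `ρ` is at least `2 υ`
    have h7 : 2 * υ ≤ Real.binEntropy υ := by
      rcases hυ0.eq_or_lt with h0 | h0
      · rw [← h0]; simp
      · rw [Real.binEntropy]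
        have h8 : 2 ≤ log υ⁻¹ := by
          rw [Real.le_log_iff_exp_le (by positivity)]
          have h9 : Real.exp 2 = Real.exp 1 ^ 2 := by
            rw [← Real.exp_nat_mul]; norm_num
          rw [h9]
          have := Real.exp_one_lt_d9
          have h10 : Real.exp 1 ^ 2 ≤ (2.8 : ℝ) ^ 2 := by gcongr; linarith
          have h11 : (10 : ℝ) ≤ υ⁻¹ := by
            rw [le_inv_comm₀ (by norm_num) h0]
            linarith
          norm_num at h10
          linarith
        have h12 : 0 ≤ (1 - υ) * log (1 - υ)⁻¹ := by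
          refine mul_nonneg (by linarith) (Real.log_nonneg ?_)
          rw [one_le_inv₀ (by linarith)]
          linarith
        nlinarith
    have h13 := h.c2 Finset.univ 1 h.p1 M hρM
    simp only [Real.log_one, mul_zero, one_mul, zero_add] at h13
    have h14 : -log (ρ M) ≤ υ / (9 / 10) := by
      have h15 : log ((ρ M)⁻¹) ≤ (ρ M)⁻¹ - 1 := Real.log_le_sub_one_of_pos (by positivity)
      rw [Real.log_inv] at h15
      have h16 : (ρ M)⁻¹ - 1 ≤ υ / (9 / 10) := by
        have h17 : (ρ M)⁻¹ - 1 = υ / ρ M := by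
          rw [hυ]; field_simp
        rw [h17]
        exact div_le_div_of_nonneg_left hυ0 (by norm_num) (by linarith)
      linarith
    have h18 := hE.1
    unfold ent at h18 hc hEρ
    have h19 : υ / (9 / 10) = 10 / 9 * υ := by ring
    rw [h19] at h14
    linarith

/-- The numerical part of the spread case. -/
theorem num_spread (A B F G' : ℝ) (hA : 0 < A) (hB : 0 < B) (hF : 0.9977 ≤ F)
    (hG : 1 - 1e-8 ≤ G') (hG1 : G' ≤ 1) (hAF : A ^ 2 ≤ F) (hBG : B ^ 2 ≤ G')
    (h : A * B * (F / A ^ 2 + G' / B ^ 2 - 1) ≤ 1) : 0.997 ≤ B ^ 2 := by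
  have hF0 : 0 < F := by linarith
  have hG0 : 0 < G' := by
    norm_num at hG
    linarith
  set r : ℝ := B / A with hr
  have hr0 : 0 < r := div_pos hB hA
  have e1 : A * B * (F / A ^ 2 + G' / B ^ 2 - 1) = F * r + G' / r - A * B := by
    rw [hr]
    field_simp
  rw [e1] at h
  have hBr : B = r * A := by rw [hr]; field_simp
  -- `G' / r ≤ 1`
  have h1 : A * B ≤ F * r := by
    rw [hBr]
    nlinarith
  have h2 : G' / r ≤ 1 := by linarith
  have h3 : G' ≤ r := by
    rw [div_le_one hr0] at h2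
    exact h2
  have h4 : A * B ≤ G' / r := by
    rw [le_div_iff₀ hr0, hBr]
    have : r * A * (r * A) ≤ G' := by
      rw [← hBr]; nlinarith
    nlinarith
  have h5 : F * r ≤ 1 := by linarith
  -- multiply by `r`
  have h6 : F * r ^ 2 + G' - B ^ 2 ≤ r := by
    have h7 := mul_le_mul_of_nonneg_right h hr0.le
    have h8 : (F * r + G' / r - A * B) * r = F * r ^ 2 + G' - B ^ 2 := by
      have : A * B * r = B ^ 2 := by
        rw [hr]; field_simp
      have h9 : G' / r * r = G' := by field_simp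
      calc (F * r + G' / r - A * B) * r = F * r ^ 2 + G' / r * r - A * B * r := by ring
        _ = F * r ^ 2 + G' - B ^ 2 := by rw [this, h9]
    rw [h8] at h7
    linarith
  -- `B ^ 2 ≥ G' - r (1 - F r)`
  have h9 : r * (1 - F * r) ≤ 1.003 * (1 - F * G') := by
    have h10 : r ≤ 1.003 := by
      by_contra hcon
      push Not at hcon
      nlinarith
    have h11 : 1 - F * r ≤ 1 - F * G' := by nlinarith
    have h12 : 0 ≤ 1 - F * r := by linarith
    nlinarith
  have h10 : 0.9976999 ≤ F * G' := by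
    have : (0.9977 : ℝ) * (1 - 1e-8) ≤ F * G' := by
      apply mul_le_mul hF hG (by norm_num) hF0.le
    norm_num at this ⊢
    linarith
  norm_num at *
  nlinarith

/-- The spread case. -/
theorem Cfg.spread {μ ρ σ a : G → ℝ} (h : Cfg μ ρ σ a) (p : ℕ)
    (hp : (p : ℕ∞) ≤ AddMonoid.minOrder G) (H₀ : ℝ) (hH0 : 0 ≤ H₀)
    (hpH : 2 * Real.exp (10 ^ 8 * (H₀ + 1)) ≤ p) (hent : ent μ ≤ H₀)
    (hspread : ∀ y, μ y ≤ 99 / 100) : 1 / 1000 ≤ -∑ y, μ y * a y := by
  by_contra hcon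
  push Not at hcon
  set η : ℝ := Real.exp (-(10 ^ 8 * (H₀ + 1))) with hη
  have hη0 : 0 < η := Real.exp_pos _
  have hlogη : log η = -(10 ^ 8 * (H₀ + 1)) := Real.log_exp _
  have hpη : 2 / η ≤ p := by
    rw [hη, Real.exp_neg, div_inv_eq_mul]
    exact hpH
  -- entropy of `ρ`
  have h1 := h.c4 Finset.univ 1 h.p1
  have hρent : ent ρ ≤ H₀ + 1 := by
    have : ent μ = -∑ y, μ y * log (μ y) := rfl
    linarith
  -- heavy classes
  set X : Finset G := Finset.univ.filter fun y => η ≤ μ y with hX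
  set Y : Finset G := Finset.univ.filter fun y => η ≤ ρ y with hY
  have hcard : ∀ (f : G → ℝ), (∀ y, 0 ≤ f y) → ∑ y, f y = 1 →
      ((Finset.univ.filter fun y => η ≤ f y).card : ℝ) ≤ 1 / η := by
    intro f hf0 hf1
    rw [le_div_iff₀ hη0, ← nsmul_eq_mul, ← hf1]
    calc (Finset.univ.filter fun y => η ≤ f y).card • η
        = ∑ _y ∈ Finset.univ.filter fun y => η ≤ f y, η := by rw [Finset.sum_const]
      _ ≤ ∑ y ∈ Finset.univ.filter fun y => η ≤ f y, f y :=
          Finset.sum_le_sum fun y hy => (Finset.mem_filter.1 hy).2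
      _ ≤ ∑ y, f y :=
          Finset.sum_le_sum_of_subset_of_nonneg (Finset.subset_univ _) fun y _ _ => hf0 y
  have hXY : X.card + Y.card ≤ p := by
    have h2 := hcard μ h.p0 h.p1
    have h3 := hcard ρ h.r0 h.r1
    have h4 : ((X.card + Y.card : ℕ) : ℝ) ≤ p := by
      push_cast
      have : 1 / η + 1 / η = 2 / η := by ring
      linarith
    exact_mod_cast h4
  -- the tails
  have htail : ∀ (f : G → ℝ), (∀ y, 0 ≤ f y) → ∑ y, f y = 1 → ent f ≤ H₀ + 1 →
      ∑ y ∈ Finset.univ.filter (fun y => ¬ η ≤ f y), f y ≤ 1e-8 := by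
    intro f hf0 hf1 hfe
    set t := ∑ y ∈ Finset.univ.filter (fun y => ¬ η ≤ f y), f y with ht
    have hfle : ∀ y, f y ≤ 1 := fun y => by
      rw [← hf1]
      exact Finset.single_le_sum (fun i _ => hf0 i) (Finset.mem_univ y)
    have h2 : t * (10 ^ 8 * (H₀ + 1)) ≤ ent f := by
      unfold ent
      rw [← Finset.sum_neg_distrib]
      calc t * (10 ^ 8 * (H₀ + 1))
          = ∑ y ∈ Finset.univ.filter (fun y => ¬ η ≤ f y), f y * (10 ^ 8 * (H₀ + 1)) := by
            rw [ht, Finset.sum_mul]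
        _ ≤ ∑ y ∈ Finset.univ.filter (fun y => ¬ η ≤ f y), -(f y * log (f y)) := by
            refine Finset.sum_le_sum fun y hy => ?_
            rcases (hf0 y).eq_or_lt with h0 | h0
            · rw [← h0]; simp
            · have h3 : f y < η := not_le.1 (Finset.mem_filter.1 hy).2
              have h4 := Real.log_le_log h0 h3.le
              rw [hlogη] at h4
              nlinarith
        _ ≤ ∑ y, -(f y * log (f y)) := by
            refine Finset.sum_le_sum_of_subset_of_nonneg (Finset.subset_univ _) fun y _ _ => ?_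
            rw [neg_nonneg]
            exact mul_nonpos_of_nonneg_of_nonpos (hf0 y) (Real.log_nonpos (hf0 y) (hfle y))
    have h3 : t * (10 ^ 8 * (H₀ + 1)) ≤ 1e-8 * (10 ^ 8 * (H₀ + 1)) := by
      norm_num
      linarith
    exact le_of_mul_le_mul_right h3 (by positivity)
  have htμ := htail μ h.p0 h.p1 (by linarith)
  have htρ := htail ρ h.r0 h.r1 hρent
  set t := ∑ y ∈ Finset.univ.filter (fun y => ¬ η ≤ μ y), μ y with ht
  have ht0 : 0 ≤ t := Finset.sum_nonneg fun y _ => h.p0 y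
  have htX : ∑ y ∈ X, μ y = 1 - t := by
    have := Finset.sum_filter_add_sum_filter_not Finset.univ (fun y => η ≤ μ y) μ
    rw [h.p1] at this
    linarith
  have htY : ∑ y ∈ Y, ρ y = 1 - ∑ y ∈ Finset.univ.filter (fun y => ¬ η ≤ ρ y), ρ y := by
    have := Finset.sum_filter_add_sum_filter_not Finset.univ (fun y => η ≤ ρ y) ρ
    rw [h.r1] at this
    linarith
  have hYle : ∑ y ∈ Y, ρ y ≤ 1 := by
    rw [htY]
    have : 0 ≤ ∑ y ∈ Finset.univ.filter (fun y => ¬ η ≤ ρ y), ρ y :=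
      Finset.sum_nonneg fun y _ => h.r0 y
    linarith
  have hYge : 1 - 1e-8 ≤ ∑ y ∈ Y, ρ y := by
    rw [htY]; linarith
  -- the tail of `a`
  have hat : ∑ y ∈ Finset.univ.filter (fun y => ¬ η ≤ μ y), μ y * a y ≤ 1 / 10000 := by
    refine (h.c5 _ t ht.symm).trans ?_
    rcases ht0.eq_or_lt with h0 | h0
    · rw [← h0]; norm_num
    · have h2 : log (√t)⁻¹ ≤ (√t)⁻¹ - 1 :=
        Real.log_le_sub_one_of_pos (inv_pos.2 (Real.sqrt_pos.2 h0))
      have h3 : log (√t)⁻¹ = -log t / 2 := by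
        rw [Real.log_inv, Real.log_sqrt ht0]
        ring
      rw [h3] at h2
      have h4 : √t ≤ 1 / 10000 := by
        rw [Real.sqrt_le_left (by norm_num)]
        norm_num at htμ ⊢
        linarith
      have h5 : t * (√t)⁻¹ = √t := by
        have h6 : √t ≠ 0 := (Real.sqrt_pos.2 h0).ne'
        have h7 : √t * √t = t := Real.mul_self_sqrt ht0
        field_simp
        linarith
      have h6 := mul_le_mul_of_nonneg_left h2 ht0
      nlinarith
  have haX : -(11 / 10000) ≤ ∑ y ∈ X, μ y * a y := by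
    have h2 := Finset.sum_filter_add_sum_filter_not Finset.univ (fun y => η ≤ μ y)
      (fun y => μ y * a y)
    linarith
  -- the function `f`
  set f : G → ℝ := fun y => Real.exp (a y) * √(μ y) with hf
  set g : G → ℝ := fun y => √(ρ y) with hg
  have hXpos : ∀ y ∈ X, 0 < μ y := fun y hy => hη0.trans_le (Finset.mem_filter.1 hy).2
  have hYpos : ∀ y ∈ Y, 0 < ρ y := fun y hy => hη0.trans_le (Finset.mem_filter.1 hy).2
  have hf2 : ∀ y ∈ X, μ y + 2 * (μ y * a y) ≤ f y ^ 2 := by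
    intro y hy
    have h2 := Real.add_one_le_exp (2 * a y)
    have h3 : f y ^ 2 = Real.exp (2 * a y) * μ y := by
      rw [hf]
      simp only [mul_pow, Real.sq_sqrt (h.p0 y)]
      rw [← Real.exp_nat_mul]
      push_cast
      rfl
    rw [h3]
    nlinarith [h.p0 y]
  have hF : 0.9977 ≤ ∑ y ∈ X, f y ^ 2 := by
    have h2 := Finset.sum_le_sum hf2
    rw [Finset.sum_add_distrib, ← Finset.mul_sum, htX] at h2
    norm_num at htμ haX ⊢
    linarith
  have hg2 : ∑ y ∈ Y, g y ^ 2 = ∑ y ∈ Y, ρ y :=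
    Finset.sum_congr rfl fun y _ => Real.sq_sqrt (h.r0 y)
  have hXne : X.Nonempty := by
    rw [Finset.nonempty_iff_ne_empty]
    intro h0
    rw [h0] at hF
    norm_num at hF
  have hYne : Y.Nonempty := by
    rw [Finset.nonempty_iff_ne_empty]
    intro h0
    rw [h0] at hYge
    norm_num at hYge
  obtain ⟨x₀, hx₀, hxmax⟩ := Finset.exists_max_image X f hXne
  obtain ⟨y₀, hy₀, hymax⟩ := Finset.exists_max_image Y g hYne
  have hfpos : ∀ y ∈ X, 0 < f y := fun y hy =>
    mul_pos (Real.exp_pos _) (Real.sqrt_pos.2 (hXpos y hy))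
  have hgpos : ∀ y ∈ Y, 0 < g y := fun y hy => Real.sqrt_pos.2 (hYpos y hy)
  have hpl := FS.pl p hp X Y f g σ hXY x₀ y₀ hx₀ hy₀ (fun x hx => (hfpos x hx).le) hxmax
    (hfpos x₀ hx₀) (fun y hy => (hgpos y hy).le) hymax (hgpos y₀ hy₀) h.s0 (by
      intro x hx y hy
      have h2 := h.le x y (hXpos x hx) (hYpos y hy)
      have h3 := h.pos x y (hXpos x hx) (hYpos y hy)
      rw [← Real.exp_log h3]
      have h4 : f x * g y = Real.exp (a x + log (μ x) / 2 + log (ρ y) / 2) := by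
        rw [hf, hg, Real.exp_add, Real.exp_add]
        simp only
        rw [← Real.log_sqrt (h.p0 x), ← Real.log_sqrt (h.r0 y),
          Real.exp_log (Real.sqrt_pos.2 (hXpos x hx)),
          Real.exp_log (Real.sqrt_pos.2 (hYpos y hy))]
      rw [h4, Real.exp_le_exp]
      linarith)
  have hplF : ∑ x ∈ X, (f x / f x₀) ^ 2 = (∑ x ∈ X, f x ^ 2) / f x₀ ^ 2 := by
    rw [Finset.sum_div]
    exact Finset.sum_congr rfl fun x _ => div_pow _ _ _
  have hplG : ∑ x ∈ Y, (g x / g y₀) ^ 2 = (∑ x ∈ Y, ρ x) / g y₀ ^ 2 := by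
    rw [← hg2, Finset.sum_div]
    exact Finset.sum_congr rfl fun x _ => div_pow _ _ _
  rw [hplF, hplG] at hpl
  have hkey := num_spread (f x₀) (g y₀) (∑ x ∈ X, f x ^ 2) (∑ y ∈ Y, ρ y) (hfpos x₀ hx₀)
    (hgpos y₀ hy₀) hF hYge hYle
    (Finset.single_le_sum (f := fun x => f x ^ 2) (fun i _ => sq_nonneg _) hx₀)
    (by
      rw [← hg2]
      exact Finset.single_le_sum (f := fun x => g x ^ 2) (fun i _ => sq_nonneg _) hy₀)
    (hpl.trans h.s1)
  have hρy : 0.997 ≤ ρ y₀ := by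
    have : g y₀ ^ 2 = ρ y₀ := Real.sq_sqrt (h.r0 y₀)
    rw [← this]
    exact hkey
  have hfin := h.c2 Finset.univ 1 h.p1 y₀ (hYpos y₀ hy₀)
  simp only [Real.log_one, mul_zero, one_mul, zero_add] at hfin
  have hμent := ent_le_max μ h.p0 h.p1 (99 / 100) hspread
  have hl1 : log (99 / 100 : ℝ) ≤ 99 / 100 - 1 := Real.log_le_sub_one_of_pos (by norm_num)
  have hl2 : -0.004 ≤ log (ρ y₀) := by
    have h2 : log ((ρ y₀)⁻¹) ≤ (ρ y₀)⁻¹ - 1 :=
      Real.log_le_sub_one_of_pos (inv_pos.2 (hYpos y₀ hy₀))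
    rw [Real.log_inv] at h2
    have h3 : (ρ y₀)⁻¹ ≤ 1.004 := by
      rw [inv_le_comm₀ (hYpos y₀ hy₀) (by norm_num)]
      refine le_trans ?_ hρy
      norm_num
    norm_num at h3 ⊢
    linarith
  unfold ent at hμent
  norm_num at hl1 hl2 hcon
  linarith

end Pool.Agent.H87.LL
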