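import Mathlib
import Pool.Agent.H87.FS.StepA

/-!
# The entropy of a sum

Let `R` be a finite set, `φ : R → ℤ` and `P` a finite set of integers. Let `r` and `p` be uniform on
`R` and `P`. We study `E1 = |R| (H (φ r + p) - log |P|)`.
-/

set_option autoImplicit false
set_option linter.unusedSectionVars false

namespace Pool.Agent.H87.LL

open Finset Real
open Pool.Agent.H87.FS (cls)
open scoped Pointwise BigOperators

variable {ι : Type*}

/-- The number of representations. -/
def rep (R : Finset ι) (φ : ι → ℤ) (P : Finset ℤ) (z : ℤ) : ℕ :=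
  (R.filter fun r => z - φ r ∈ P).card

/-- The sum of the logarithms of the numbers of representations. -/
noncomputable def Lg (R : Finset ι) (φ : ι → ℤ) (P : Finset ℤ) : ℝ :=
  ∑ r ∈ R, ∑ p ∈ P, log (rep R φ P (φ r + p))

/-- The normalised entropy of the sum. -/
noncomputable def E1 (R : Finset ι) (φ : ι → ℤ) (P : Finset ℤ) : ℝ :=
  (R.card : ℝ) * log R.card - Lg R φ P / P.card

theorem rep_le (R : Finset ι) (φ : ι → ℤ) (P : Finset ℤ) (z : ℤ) : rep R φ P z ≤ R.card :=
  Finset.card_filter_le _ _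

theorem rep_pos (R : Finset ι) (φ : ι → ℤ) (P : Finset ℤ) (r : ι) (hr : r ∈ R) (p : ℤ)
    (hp : p ∈ P) : 0 < rep R φ P (φ r + p) := by
  refine Finset.card_pos.2 ⟨r, ?_⟩
  simp [hr, hp]

theorem sum_rep (R : Finset ι) (φ : ι → ℤ) (P S : Finset ℤ)
    (hS : ∀ r ∈ R, ∀ p ∈ P, φ r + p ∈ S) (F : ℤ → ℝ) :
    ∑ r ∈ R, ∑ p ∈ P, F (φ r + p) = ∑ z ∈ S, (rep R φ P z : ℝ) * F z := by
  have h1 : ∀ z, (rep R φ P z : ℝ) * F z = ∑ r ∈ R, if z - φ r ∈ P then F z else 0 := by
    intro z
    rw [rep, Finset.card_filter]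
    push_cast
    rw [Finset.sum_mul]
    refine Finset.sum_congr rfl fun r _ => ?_
    split_ifs <;> simp
  rw [Finset.sum_congr rfl (fun z _ => h1 z), Finset.sum_comm (s := S) (t := R)]
  refine Finset.sum_congr rfl fun r hr => ?_
  rw [← Finset.sum_filter]
  have h2 : (S.filter fun z => z - φ r ∈ P) = P.image fun p => φ r + p := by
    ext z
    simp only [Finset.mem_filter, Finset.mem_image]
    constructor
    · rintro ⟨-, h⟩
      exact ⟨z - φ r, h, by ring⟩
    · rintro ⟨p, hp, rfl⟩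
      exact ⟨hS r hr p hp, by simpa using hp⟩
  rw [h2, Finset.sum_image (fun a _ b _ h => add_left_cancel h)]

theorem E1_empty (φ : ι → ℤ) (P : Finset ℤ) : E1 (∅ : Finset ι) φ P = 0 := by
  simp [E1, Lg]

theorem E1_nonneg (R : Finset ι) (φ : ι → ℤ) (P : Finset ℤ) (hP : P.Nonempty) :
    0 ≤ E1 R φ P := by
  unfold E1
  have hPc : (0 : ℝ) < P.card := by exact_mod_cast hP.card_pos
  rw [sub_nonneg, div_le_iff₀ hPc]
  unfold Lg
  calc ∑ r ∈ R, ∑ p ∈ P, log (rep R φ P (φ r + p)) ≤ ∑ _r ∈ R, ∑ _p ∈ P, log (R.card : ℝ) := by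
        refine Finset.sum_le_sum fun r hr => Finset.sum_le_sum fun p hp => ?_
        have h1 := rep_pos R φ P r hr p hp
        exact Real.log_le_log (by exact_mod_cast h1) (by exact_mod_cast rep_le R φ P _)
    _ = (R.card : ℝ) * log R.card * P.card := by
        simp only [Finset.sum_const, nsmul_eq_mul]
        ring

theorem E1_le (R : Finset ι) (φ : ι → ℤ) (P S : Finset ℤ) (hP : P.Nonempty)
    (hS : ∀ r ∈ R, ∀ p ∈ P, φ r + p ∈ S) :
    E1 R φ P ≤ (R.card : ℝ) * (log S.card - log P.card) := by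
  rcases R.eq_empty_or_nonempty with rfl | hR
  · simp [E1, Lg]
  have hPc : (0 : ℝ) < P.card := by exact_mod_cast hP.card_pos
  have hRc : (0 : ℝ) < R.card := by exact_mod_cast hR.card_pos
  obtain ⟨r₀, hr₀⟩ := hR
  obtain ⟨p₀, hp₀⟩ := hP
  have hSc : (0 : ℝ) < S.card := by
    exact_mod_cast Finset.card_pos.2 ⟨_, hS r₀ hr₀ p₀ hp₀⟩
  set N : ℝ := R.card * P.card with hN
  have hN0 : 0 < N := mul_pos hRc hPc
  have h1 : ∑ r ∈ R, ∑ p ∈ P, -log (rep R φ P (φ r + p) : ℝ) ≤
      ∑ r ∈ R, ∑ p ∈ P, (N / S.card * (1 / (rep R φ P (φ r + p) : ℝ)) +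
        (-1 - log (N / S.card))) := by
    refine Finset.sum_le_sum fun r hr => Finset.sum_le_sum fun p hp => ?_
    have h2 : (0 : ℝ) < rep R φ P (φ r + p) := by exact_mod_cast rep_pos R φ P r hr p hp
    have h3 := Real.log_le_sub_one_of_pos
      (show 0 < N / S.card * (1 / (rep R φ P (φ r + p) : ℝ)) by positivity)
    rw [Real.log_mul (by positivity) (by positivity), one_div, Real.log_inv] at h3
    rw [one_div]
    linarith
  have h2 : ∑ r ∈ R, ∑ p ∈ P, (N / S.card * (1 / (rep R φ P (φ r + p) : ℝ)) +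
        (-1 - log (N / S.card))) ≤ N + N * (-1 - log (N / S.card)) := by
    simp only [Finset.sum_add_distrib, Finset.sum_const, nsmul_eq_mul]
    have h3 := sum_rep R φ P S hS (fun z => N / S.card * (1 / (rep R φ P z : ℝ)))
    rw [h3]
    have h4 : ∑ z ∈ S, (rep R φ P z : ℝ) * (N / S.card * (1 / (rep R φ P z : ℝ))) ≤
        ∑ _z ∈ S, N / S.card := by
      refine Finset.sum_le_sum fun z _ => ?_
      rcases (Nat.eq_zero_or_pos (rep R φ P z)) with h0 | h0
      · rw [h0]
        simp only [Nat.cast_zero, zero_mul]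
        positivity
      · have : (0 : ℝ) < rep R φ P z := by exact_mod_cast h0
        rw [← mul_assoc, mul_comm (rep R φ P z : ℝ), mul_assoc, mul_one_div, div_self this.ne',
          mul_one]
    rw [Finset.sum_const, nsmul_eq_mul] at h4
    have h5 : (S.card : ℝ) * (N / S.card) = N := by field_simp
    rw [h5] at h4
    have h6 : (R.card : ℝ) * (P.card * (-1 - log (N / S.card))) =
        N * (-1 - log (N / S.card)) := by
      rw [hN]; ring
    rw [h6]
    linarith
  have h3 : ∑ r ∈ R, ∑ p ∈ P, -log (rep R φ P (φ r + p) : ℝ) = -Lg R φ P := by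
    unfold Lg
    simp only [Finset.sum_neg_distrib]
  rw [h3] at h1
  have h4 : N * log (N / S.card) ≤ Lg R φ P := by linarith
  have h5 : (R.card : ℝ) * log (N / S.card) ≤ Lg R φ P / P.card := by
    rw [le_div_iff₀ hPc]
    calc (R.card : ℝ) * log (N / S.card) * P.card = N * log (N / S.card) := by rw [hN]; ring
      _ ≤ Lg R φ P := h4
  rw [Real.log_div hN0.ne' hSc.ne', hN, Real.log_mul hRc.ne' hPc.ne'] at h5
  unfold E1
  linarith

theorem Lg_cls (m : ℕ) [NeZero m] (R : Finset ι) (φ : ι → ℤ) (P : Finset ℤ)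
    (hR : ∀ r ∈ R, (φ r : ZMod m) = 0) : Lg R φ P = ∑ y : ZMod m, Lg R φ (cls m P y) := by
  unfold Lg
  rw [Finset.sum_comm (s := (Finset.univ : Finset (ZMod m))) (t := R)]
  refine Finset.sum_congr rfl fun r hr => ?_
  have h1 := Finset.sum_fiberwise P (fun p : ℤ => (p : ZMod m))
    (fun p => log (rep R φ P (φ r + p) : ℝ))
  rw [← h1]
  refine Finset.sum_congr rfl fun y _ => ?_
  refine Finset.sum_congr rfl fun p hp => ?_
  have hp' : (p : ZMod m) = y := (Finset.mem_filter.1 hp).2
  have h2 : rep R φ P (φ r + p) = rep R φ (cls m P y) (φ r + p) := by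
    unfold rep
    congr 1
    refine Finset.filter_congr fun r' hr' => ?_
    simp only [cls, Finset.mem_filter]
    have h3 : ((φ r + p - φ r' : ℤ) : ZMod m) = y := by
      push_cast
      rw [hR r hr, hR r' hr', hp']
      ring
    exact ⟨fun h => ⟨h, h3⟩, fun h => h.1⟩
  rw [h2]

/-- The information inequality. -/
theorem info (R : Finset ι) (φ : ι → ℤ) (P : Finset ℤ) (t : ι → Prop) [DecidablePred t]
    (w₀ w₁ : ℤ → ℝ) (h0 : ∀ z, 0 < w₀ z) (h1 : ∀ z, 0 < w₁ z) (h01 : ∀ z, w₀ z + w₁ z ≤ 1) :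
    Lg R φ P ≤ Lg (R.filter t) φ P + Lg (R.filter fun r => ¬ t r) φ P -
      ∑ r ∈ R.filter t, ∑ p ∈ P, log (w₀ (φ r + p)) -
      ∑ r ∈ R.filter (fun r => ¬ t r), ∑ p ∈ P, log (w₁ (φ r + p)) := by
  classical
  set R₀ := R.filter t with hR₀
  set R₁ := R.filter (fun r => ¬ t r) with hR₁
  set S : Finset ℤ := R.image φ + P with hS
  have hSR : ∀ r ∈ R, ∀ p ∈ P, φ r + p ∈ S := fun r hr p hp =>
    Finset.add_mem_add (Finset.mem_image_of_mem φ hr) hp
  have key : ∀ (R' : Finset ι) (w : ℤ → ℝ), R' ⊆ R → (∀ z, 0 < w z) →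
      ∑ r ∈ R', ∑ p ∈ P, (log (rep R φ P (φ r + p)) - log (rep R' φ P (φ r + p)) +
        log (w (φ r + p))) ≤ ∑ z ∈ S, w z * rep R φ P z - R'.card * P.card := by
    intro R' w hR' hw
    have e1 : ∑ r ∈ R', ∑ p ∈ P, (log (rep R φ P (φ r + p)) - log (rep R' φ P (φ r + p)) +
        log (w (φ r + p))) ≤ ∑ r ∈ R', ∑ p ∈ P, (w (φ r + p) * rep R φ P (φ r + p) /
          rep R' φ P (φ r + p) - 1) := by
      refine Finset.sum_le_sum fun r hr => Finset.sum_le_sum fun p hp => ?_
      have h2 : (0 : ℝ) < rep R φ P (φ r + p) := by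
        exact_mod_cast rep_pos R φ P r (hR' hr) p hp
      have h3 : (0 : ℝ) < rep R' φ P (φ r + p) := by
        exact_mod_cast rep_pos R' φ P r hr p hp
      have h4 := hw (φ r + p)
      have h5 := Real.log_le_sub_one_of_pos
        (show 0 < w (φ r + p) * rep R φ P (φ r + p) / rep R' φ P (φ r + p) by positivity)
      rw [Real.log_div (by positivity) h3.ne', Real.log_mul h4.ne' h2.ne'] at h5
      linarith
    refine e1.trans ?_
    simp only [Finset.sum_sub_distrib, Finset.sum_const, nsmul_eq_mul, mul_one]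
    refine sub_le_sub_right ?_ _
    rw [sum_rep R' φ P S (fun r hr p hp => hSR r (hR' hr) p hp)
      (fun z => w z * rep R φ P z / rep R' φ P z)]
    refine Finset.sum_le_sum fun z _ => ?_
    rcases (Nat.eq_zero_or_pos (rep R' φ P z)) with h0 | h0
    · rw [h0]
      simp only [Nat.cast_zero, zero_mul]
      have := hw z
      positivity
    · have : (0 : ℝ) < rep R' φ P z := by exact_mod_cast h0
      rw [mul_div_cancel₀ _ this.ne']
  have k0 := key R₀ w₀ (Finset.filter_subset _ _) h0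
  have k1 := key R₁ w₁ (Finset.filter_subset _ _) h1
  have hsum : ∑ z ∈ S, w₀ z * rep R φ P z + ∑ z ∈ S, w₁ z * rep R φ P z ≤
      (R.card : ℝ) * P.card := by
    rw [← Finset.sum_add_distrib]
    calc ∑ z ∈ S, (w₀ z * rep R φ P z + w₁ z * rep R φ P z) ≤
          ∑ z ∈ S, (rep R φ P z : ℝ) * 1 := by
          refine Finset.sum_le_sum fun z _ => ?_
          have h2 := h01 z
          have h3 : (0 : ℝ) ≤ rep R φ P z := Nat.cast_nonneg _
          nlinarith
      _ = (R.card : ℝ) * P.card := by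
          rw [← sum_rep R φ P S hSR (fun _ => 1)]
          simp
  have hcard : (R₀.card : ℝ) + R₁.card = R.card := by
    exact_mod_cast Finset.card_filter_add_card_filter_not (s := R) t
  have hLg : Lg R φ P = ∑ r ∈ R₀, ∑ p ∈ P, log (rep R φ P (φ r + p)) +
      ∑ r ∈ R₁, ∑ p ∈ P, log (rep R φ P (φ r + p)) := by
    unfold Lg
    exact (Finset.sum_filter_add_sum_filter_not R t _).symm
  simp only [Finset.sum_add_distrib, Finset.sum_sub_distrib] at k0 k1
  rw [hLg]
  have e0 : Lg R₀ φ P = ∑ r ∈ R₀, ∑ p ∈ P, log (rep R₀ φ P (φ r + p)) := rfl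
  have e1 : Lg R₁ φ P = ∑ r ∈ R₁, ∑ p ∈ P, log (rep R₁ φ P (φ r + p)) := rfl
  rw [e0, e1]
  have : (R₀.card : ℝ) * P.card + R₁.card * P.card = R.card * P.card := by
    rw [← add_mul, hcard]
  linarith

/-- Superadditivity. -/
theorem E1_add (R : Finset ι) (φ : ι → ℤ) (P : Finset ℤ) (hP : P.Nonempty) (t : ι → Prop)
    [DecidablePred t] : E1 (R.filter t) φ P + E1 (R.filter fun r => ¬ t r) φ P ≤ E1 R φ P := by
  classical
  rcases (R.filter t).eq_empty_or_nonempty with h0 | h0
  · have : R.filter (fun r => ¬ t r) = R := by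
      rw [Finset.filter_eq_self]
      intro r hr ht
      exact Finset.notMem_empty r (h0 ▸ Finset.mem_filter.2 ⟨hr, ht⟩)
    rw [h0, this, E1_empty, zero_add]
  rcases (R.filter fun r => ¬ t r).eq_empty_or_nonempty with h1 | h1
  · have : R.filter t = R := by
      rw [Finset.filter_eq_self]
      intro r hr
      by_contra ht
      exact Finset.notMem_empty r (h1 ▸ Finset.mem_filter.2 ⟨hr, ht⟩)
    rw [h1, this, E1_empty, add_zero]
  have hPc : (0 : ℝ) < P.card := by exact_mod_cast hP.card_pos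
  have hc0 : (0 : ℝ) < (R.filter t).card := by exact_mod_cast h0.card_pos
  have hc1 : (0 : ℝ) < (R.filter fun r => ¬ t r).card := by exact_mod_cast h1.card_pos
  have hcard : ((R.filter t).card : ℝ) + (R.filter fun r => ¬ t r).card = R.card := by
    exact_mod_cast Finset.card_filter_add_card_filter_not (s := R) t
  have hRc : (0 : ℝ) < R.card := by linarith
  have h := info R φ P t (fun _ => (R.filter t).card / R.card)
    (fun _ => (R.filter fun r => ¬ t r).card / R.card) (fun _ => by positivity)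
    (fun _ => by positivity) (fun _ => by rw [← add_div, hcard, div_self hRc.ne'])
  simp only [Finset.sum_const, nsmul_eq_mul] at h
  rw [Real.log_div hc0.ne' hRc.ne', Real.log_div hc1.ne' hRc.ne'] at h
  unfold E1
  have h2 : Lg R φ P / P.card ≤ Lg (R.filter t) φ P / P.card +
      Lg (R.filter fun r => ¬ t r) φ P / P.card -
      (R.filter t).card * (log (R.filter t).card - log R.card) -
      (R.filter fun r => ¬ t r).card * (log (R.filter fun r => ¬ t r).card - log R.card) := by
    rw [div_le_iff₀ hPc]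
    have e : (Lg (R.filter t) φ P / P.card + Lg (R.filter fun r => ¬ t r) φ P / P.card -
      (R.filter t).card * (log (R.filter t).card - log R.card) -
      (R.filter fun r => ¬ t r).card * (log (R.filter fun r => ¬ t r).card - log R.card)) *
        P.card = Lg (R.filter t) φ P + Lg (R.filter fun r => ¬ t r) φ P -
      (R.filter t).card * (P.card * (log (R.filter t).card - log R.card)) -
      (R.filter fun r => ¬ t r).card *
        (P.card * (log (R.filter fun r => ¬ t r).card - log R.card)) := by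
      field_simp
    rw [e]
    exact h
  have h3 : (R.card : ℝ) * log R.card = (R.filter t).card * log R.card +
      (R.filter fun r => ¬ t r).card * log R.card := by rw [← add_mul, hcard]
  linarith

/-- The gain at a test `m ∣ φ r`. -/
theorem gain (m : ℕ) [NeZero m] (R : Finset ι) (φ : ι → ℤ) (P : Finset ℤ) (hP : P.Nonempty)
    (h0 : (R.filter fun r => (φ r : ZMod m) = 0).Nonempty)
    (h1 : (R.filter fun r => ¬ (φ r : ZMod m) = 0).Nonempty) (y₀ : ZMod m)
    (J₀ J₁ N₀ N₁ : ℝ) (hJ0 : 0 < J₀) (hJ1 : 0 < J₁) (hN0 : 0 < N₀) (hN1 : 0 < N₁)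
    (hJ : J₀ + J₁ ≤ 1) (hN : N₀ + N₁ ≤ 1) (hJN : J₁ ≤ N₁) (τ : ℝ)
    (hτ : τ = 1 - ((cls m P y₀).card : ℝ) / P.card) (θ : ℝ)
    (hθ : θ = ((R.filter fun r => (φ r : ZMod m) = 0).card : ℝ) / R.card) :
    (R.card : ℝ) * (Real.binEntropy θ + θ * ((1 - τ) * log J₀ + τ * log N₀) +
      (1 - θ) * (τ * log J₁ + (1 - τ) * log N₁)) ≤
    E1 R φ P - E1 (R.filter fun r => (φ r : ZMod m) = 0) φ P -
      E1 (R.filter fun r => ¬ (φ r : ZMod m) = 0) φ P := by
  classical
  set R₀ := R.filter (fun r => (φ r : ZMod m) = 0) with hR₀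
  set R₁ := R.filter (fun r => ¬ (φ r : ZMod m) = 0) with hR₁
  have hPc : (0 : ℝ) < P.card := by exact_mod_cast hP.card_pos
  have hc0 : (0 : ℝ) < R₀.card := by exact_mod_cast h0.card_pos
  have hc1 : (0 : ℝ) < R₁.card := by exact_mod_cast h1.card_pos
  have hcard : (R₀.card : ℝ) + R₁.card = R.card := by
    exact_mod_cast Finset.card_filter_add_card_filter_not (s := R)
      (fun r => (φ r : ZMod m) = 0)
  have hRc : (0 : ℝ) < R.card := by linarith
  have hinfo := info R φ P (fun r => (φ r : ZMod m) = 0)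
    (fun z => if (z : ZMod m) = y₀ then J₀ else N₀)
    (fun z => if (z : ZMod m) = y₀ then J₁ else N₁)
    (fun z => by split_ifs <;> assumption) (fun z => by split_ifs <;> assumption)
    (fun z => by split_ifs <;> assumption)
  rw [← hR₀, ← hR₁] at hinfo
  set a : ℝ := ((cls m P y₀).card : ℝ) with ha
  have ha1 : a ≤ P.card := by
    rw [ha]
    exact_mod_cast Finset.card_filter_le _ _
  have hθR : θ * R.card = R₀.card := by
    rw [hθ]; field_simp
  have hθR' : (1 - θ) * R.card = R₁.card := by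
    rw [sub_mul, hθR]; linarith
  have hτP : τ * P.card = P.card - a := by
    rw [hτ]; field_simp
  -- the sum over `R₀`
  have hsum0 : ∑ r ∈ R₀, ∑ p ∈ P, log (if ((φ r + p : ℤ) : ZMod m) = y₀ then J₀ else N₀) =
      R₀.card * (a * log J₀ + (P.card - a) * log N₀) := by
    rw [← nsmul_eq_mul, ← Finset.sum_const]
    refine Finset.sum_congr rfl fun r hr => ?_
    have hr' : (φ r : ZMod m) = 0 := (Finset.mem_filter.1 hr).2
    have e1 : ∀ p ∈ P, log (if ((φ r + p : ℤ) : ZMod m) = y₀ then J₀ else N₀) =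
        if (p : ZMod m) = y₀ then log J₀ else log N₀ := by
      intro p _
      push_cast
      rw [hr', zero_add]
      split_ifs <;> rfl
    rw [Finset.sum_congr rfl e1, Finset.sum_ite, Finset.sum_const, Finset.sum_const,
      nsmul_eq_mul, nsmul_eq_mul]
    have e2 : (((P.filter fun p : ℤ => ¬ (p : ZMod m) = y₀).card : ℕ) : ℝ) = P.card - a := by
      have := Finset.card_filter_add_card_filter_not (s := P)
        (fun p : ℤ => (p : ZMod m) = y₀)
      have h3 : ((P.filter fun p : ℤ => (p : ZMod m) = y₀).card : ℝ) +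
          ((P.filter fun p : ℤ => ¬ (p : ZMod m) = y₀).card : ℝ) = P.card := by exact_mod_cast this
      have h4 : ((P.filter fun p : ℤ => (p : ZMod m) = y₀).card : ℝ) = a := rfl
      linarith
    rw [e2]
    rfl
  -- the sum over `R₁`
  have hsum1 : R₁.card * ((P.card - a) * log J₁ + a * log N₁) ≤
      ∑ r ∈ R₁, ∑ p ∈ P, log (if ((φ r + p : ℤ) : ZMod m) = y₀ then J₁ else N₁) := by
    rw [← nsmul_eq_mul, ← Finset.sum_const]
    refine Finset.sum_le_sum fun r hr => ?_
    have hr' : ¬ (φ r : ZMod m) = 0 := (Finset.mem_filter.1 hr).2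
    have e1 : ∀ p ∈ P, (if (p : ZMod m) = y₀ then log N₁ else log J₁) ≤
        log (if ((φ r + p : ℤ) : ZMod m) = y₀ then J₁ else N₁) := by
      intro p _
      have hlog : log J₁ ≤ log N₁ := Real.log_le_log hJ1 hJN
      push_cast
      by_cases h2 : (p : ZMod m) = y₀
      · rw [if_pos h2, if_neg]
        intro h3
        rw [h2] at h3
        exact hr' (by simpa using h3)
      · rw [if_neg h2]
        split_ifs
        · exact le_refl _
        · exact hlog
    refine le_trans (le_of_eq ?_) (Finset.sum_le_sum e1)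
    rw [Finset.sum_ite, Finset.sum_const, Finset.sum_const, nsmul_eq_mul, nsmul_eq_mul]
    have e2 : (((P.filter fun p : ℤ => ¬ (p : ZMod m) = y₀).card : ℕ) : ℝ) = P.card - a := by
      have := Finset.card_filter_add_card_filter_not (s := P)
        (fun p : ℤ => (p : ZMod m) = y₀)
      have h3 : ((P.filter fun p : ℤ => (p : ZMod m) = y₀).card : ℝ) +
          ((P.filter fun p : ℤ => ¬ (p : ZMod m) = y₀).card : ℝ) = P.card := by exact_mod_cast this
      have h4 : ((P.filter fun p : ℤ => (p : ZMod m) = y₀).card : ℝ) = a := rfl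
      linarith
    rw [e2, add_comm]
    rfl
  have h2 : Lg R φ P ≤ Lg R₀ φ P + Lg R₁ φ P -
      R₀.card * (a * log J₀ + (P.card - a) * log N₀) -
      R₁.card * ((P.card - a) * log J₁ + a * log N₁) := by linarith
  have hb : (R.card : ℝ) * Real.binEntropy θ = R.card * log R.card - R₀.card * log R₀.card -
      R₁.card * log R₁.card := by
    rw [Real.binEntropy]
    have e1 : θ⁻¹ = R.card / R₀.card := by rw [hθ, inv_div]
    have e2 : (1 - θ)⁻¹ = R.card / R₁.card := by
      have : 1 - θ = R₁.card / R.card := by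
        rw [eq_div_iff hRc.ne', hθR']
      rw [this, inv_div]
    rw [e1, e2, Real.log_div hRc.ne' hc0.ne', Real.log_div hRc.ne' hc1.ne']
    have e3 : (R.card : ℝ) * (θ * (log R.card - log R₀.card) +
        (1 - θ) * (log R.card - log R₁.card)) = (θ * R.card) * (log R.card - log R₀.card) +
        ((1 - θ) * R.card) * (log R.card - log R₁.card) := by ring
    rw [e3, hθR, hθR', ← hcard]
    ring
  have h3 : Lg R φ P / P.card ≤ Lg R₀ φ P / P.card + Lg R₁ φ P / P.card -
      R₀.card * ((1 - τ) * log J₀ + τ * log N₀) -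
      R₁.card * (τ * log J₁ + (1 - τ) * log N₁) := by
    rw [div_le_iff₀ hPc]
    refine h2.trans (le_of_eq ?_)
    have e1 : (Lg R₀ φ P / P.card + Lg R₁ φ P / P.card -
      R₀.card * ((1 - τ) * log J₀ + τ * log N₀) -
      R₁.card * (τ * log J₁ + (1 - τ) * log N₁)) * P.card = Lg R₀ φ P + Lg R₁ φ P -
      R₀.card * ((P.card - τ * P.card) * log J₀ + (τ * P.card) * log N₀) -
      R₁.card * ((τ * P.card) * log J₁ + (P.card - τ * P.card) * log N₁) := by
      field_simp
    rw [e1, hτP]
    ring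
  have h4 : (R.card : ℝ) * (Real.binEntropy θ + θ * ((1 - τ) * log J₀ + τ * log N₀) +
      (1 - θ) * (τ * log J₁ + (1 - τ) * log N₁)) = (R.card : ℝ) * Real.binEntropy θ +
      (θ * R.card) * ((1 - τ) * log J₀ + τ * log N₀) +
      ((1 - θ) * R.card) * (τ * log J₁ + (1 - τ) * log N₁) := by ring
  rw [h4, hθR, hθR', hb]
  unfold E1
  linarith

end Pool.Agent.H87.LL
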