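import Mathlib
import Pool.Agent.H87.LL.Abs
import Pool.Agent.H87.LL.Rep
import Pool.Agent.H87.LL.NumG

/-!
# The potential and a test
-/

set_option autoImplicit false
set_option linter.unusedSectionVars false

namespace Pool.Agent.H87.LL

open Finset Real
open Pool.Agent.H87.FS (cls)
open scoped Pointwise BigOperators

variable {ι : Type*}

/-- The doubling of two sets. -/
noncomputable def D2 (P Q : Finset ℤ) : ℝ :=
  log ((P + Q).card : ℝ) - log (P.card : ℝ) / 2 - log (Q.card : ℝ) / 2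

/-- The potential. -/
noncomputable def psi (e : ℝ) (R : Finset ι) (φ : ι → ℤ) (P Q : Finset ℤ) : ℝ :=
  16 * E1 R φ P + R.card * (2000 * D2 P Q + e * log P.card)

theorem psi_empty (e : ℝ) (φ : ι → ℤ) (P Q : Finset ℤ) : psi e (∅ : Finset ι) φ P Q = 0 := by
  simp [psi, E1_empty]

theorem D2_nonneg (P Q : Finset ℤ) (hP : P.Nonempty) (hQ : Q.Nonempty) : 0 ≤ D2 P Q := by
  unfold D2
  have h1 : log (P.card : ℝ) ≤ log ((P + Q).card : ℝ) :=
    Real.log_le_log (by exact_mod_cast hP.card_pos)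
      (by exact_mod_cast Finset.card_le_card_add_right hQ)
  have h2 : log (Q.card : ℝ) ≤ log ((P + Q).card : ℝ) :=
    Real.log_le_log (by exact_mod_cast hQ.card_pos)
      (by exact_mod_cast Finset.card_le_card_add_left hP)
  linarith

theorem psi_nonneg (e : ℝ) (he : 0 < e) (R : Finset ι) (φ : ι → ℤ) (P Q : Finset ℤ)
    (hP : P.Nonempty) (hQ : Q.Nonempty) : 0 ≤ psi e R φ P Q := by
  unfold psi
  have h1 := E1_nonneg R φ P hP
  have h2 := D2_nonneg P Q hP hQ
  have h3 : 0 ≤ log (P.card : ℝ) := Real.log_natCast_nonneg _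
  have h4 : (0 : ℝ) ≤ R.card := Nat.cast_nonneg _
  positivity

/-- The numerical part of the step. -/
theorem release {G : Type*} [AddCommGroup G] [Fintype G] [DecidableEq G] (e : ℝ) (he : 0 < e)
    (he1 : e ≤ 1) (μ ρ σ a : G → ℝ) (hcfg : Cfg μ ρ σ a) (p : ℕ)
    (hp : (p : ℕ∞) ≤ AddMonoid.minOrder G) (b : ℝ)
    (hb : (b = 0 ∧ 2 * Real.exp (10 ^ 8 * (2 / e + 1)) ≤ p) ∨ b = log (200 / e))
    (θ I : ℝ) (h0 : 0 < θ) (h1 : θ < 1) (hI0 : 0 ≤ I)
    (hI : ∀ y₀ : G, ∀ J₀ J₁ N₀ N₁ : ℝ, 0 < J₀ → 0 < J₁ → 0 < N₀ → 0 < N₁ → J₀ + J₁ ≤ 1 →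
      N₀ + N₁ ≤ 1 → J₁ ≤ N₁ → Real.binEntropy θ + θ * (μ y₀ * log J₀ + (1 - μ y₀) * log N₀) +
      (1 - θ) * ((1 - μ y₀) * log J₁ + μ y₀ * log N₁) ≤ I) :
    gf θ - b * (1 - θ) ≤ 16 * I + θ * (2000 * (-∑ y, μ y * a y) + e * ent μ) := by
  have hR0 := hcfg.nonneg
  have hH0 := ent_nonneg μ hcfg.p0 hcfg.p1
  have hb200 : 1 ≤ log (200 / e) := by
    rw [Real.le_log_iff_exp_le (by positivity)]
    have h2 := Real.exp_one_lt_d9
    have h3 : 200 ≤ 200 / e := by
      rw [le_div_iff₀ he]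
      linarith
    linarith
  have hb0 : 0 ≤ b := by
    rcases hb with ⟨h2, -⟩ | h2
    · rw [h2]
    · rw [h2]; linarith
  by_cases hc : ∃ y₀, 1 - μ y₀ ≤ 1 / 100
  · obtain ⟨y₀, hy₀⟩ := hc
    have hμ1 : μ y₀ ≤ 1 := by
      rw [← hcfg.p1]
      exact Finset.single_le_sum (fun i _ => hcfg.p0 i) (Finset.mem_univ y₀)
    set τ : ℝ := 1 - μ y₀ with hτ
    have hτ0 : 0 ≤ τ := by linarith
    have hμτ : μ y₀ = 1 - τ := by linarith
    have hconc := hcfg.conc y₀ hy₀
    rw [← hτ] at hconc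
    set Rr := -∑ y, μ y * a y with hRr
    have hbb : 0 ≤ b * (1 - θ) := mul_nonneg hb0 (by linarith)
    have hθH : 0 ≤ θ * (e * ent μ) := by positivity
    have hθR : 0 ≤ θ * (2000 * Rr) := by positivity
    rcases lt_or_ge θ (1 / 2) with hθ | hθ
    · have hA := numA θ τ h0 hθ.le hτ0 hy₀
      have hI' := hI y₀ (2 * θ / (1 + θ)) ((1 - θ) / (1 + θ)) (θ / 2 / (1 - θ / 2))
        ((1 - θ) / (1 - θ / 2)) (by positivity) (div_pos (by linarith) (by linarith))
        (div_pos (by linarith) (by linarith)) (div_pos (by linarith) (by linarith))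
        (by rw [← add_div, div_le_one (by linarith)]; linarith)
        (by rw [← add_div, div_le_one (by linarith)]; linarith)
        (div_le_div_of_nonneg_left (by linarith) (by linarith) (by linarith))
      rw [hμτ] at hI'
      have hg : gf θ = θ := if_pos hθ
      rw [hg]
      linarith
    · have hg : gf θ = Real.binEntropy θ := if_neg (not_lt.2 hθ)
      rw [hg]
      obtain ⟨ψ, hψ⟩ : ∃ ψ, ψ = 1 - θ := ⟨_, rfl⟩
      have hψ0 : 0 < ψ := by linarith
      have hψ1 : ψ ≤ 1 / 2 := by linarith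
      have hθψ : θ = 1 - ψ := by linarith
      rcases le_or_gt τ ψ with hτψ | hτψ
      · have hB := numB ψ τ hψ0 hψ1 hτ0 hy₀
        have hC := numC ψ τ hψ0 hψ1 hτ0 hy₀ hτψ
        have hIB := hI y₀ ((1 - ψ) / (1 - ψ / 2)) (ψ / 2 / (1 - ψ / 2)) ((1 - ψ) / (1 + ψ))
          (2 * ψ / (1 + ψ)) (div_pos (by linarith) (by linarith))
          (div_pos (by linarith) (by linarith)) (div_pos (by linarith) (by linarith))
          (by positivity)
          (by rw [← add_div, div_le_one (by linarith)]; linarith)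
          (by rw [← add_div, div_le_one (by linarith)]; linarith)
          (by
            rw [div_le_div_iff₀ (by linarith) (by linarith)]
            nlinarith)
        have hIC := hI y₀ (1 - ψ) ψ (1 / 2) (1 / 2) (by linarith) hψ0 (by norm_num) (by norm_num)
          (by linarith) (by norm_num) hψ1
        rw [hμτ, hθψ, sub_sub_cancel] at hIB hIC
        have := numComb ψ I hψ0 hψ1 (by linarith) (by linarith)
        rw [hθψ] at hbb hθH hθR ⊢
        linarith
      · have h2 : Real.binEntropy ψ ≤ Real.binEntropy τ :=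
          (Real.binEntropy_strictMonoOn ⟨hψ0.le, by norm_num; linarith⟩
            ⟨hτ0, by norm_num; linarith⟩ hτψ).le
        have h3 : Real.binEntropy θ = Real.binEntropy ψ := by
          rw [hθψ, Real.binEntropy_one_sub]
        have h4 : 0 ≤ Real.binEntropy ψ := Real.binEntropy_nonneg hψ0.le (by linarith)
        rw [h3]
        nlinarith
  · push Not at hc
    have hsp : ∀ y, μ y ≤ 99 / 100 := fun y => by
      have := hc y
      linarith
    have hHμ : 1 / 100 ≤ ent μ := by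
      have h2 := ent_le_max μ hcfg.p0 hcfg.p1 (99 / 100) hsp
      have h3 : log (99 / 100 : ℝ) ≤ 99 / 100 - 1 := Real.log_le_sub_one_of_pos (by norm_num)
      linarith
    set Rr := -∑ y, μ y * a y with hRr
    have hgl := gf_le θ h0.le
    rcases hb with ⟨hb1, hp2⟩ | hb1
    · rw [hb1]
      rcases le_or_gt (2 / e) (ent μ) with h2 | h2
      · have h3 : 2 ≤ e * ent μ := by
          rw [div_le_iff₀ he] at h2
          linarith
        nlinarith
      · have h3 := hcfg.spread p hp (2 / e) (by positivity) hp2 h2.le hsp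
        have h4 : 0 ≤ θ * (e * ent μ) := by positivity
        rw [← hRr] at h3
        nlinarith
    · rcases lt_or_ge θ (1 / 2) with hθ | hθ
      · have hg : gf θ = θ := if_pos hθ
        rw [hg, hb1]
        have h4 : 0 ≤ θ * (2000 * Rr + e * ent μ) := by positivity
        nlinarith
      · have hg : gf θ = Real.binEntropy θ := if_neg (not_lt.2 hθ)
        rw [hg, hb1]
        obtain ⟨ψ, hψ⟩ : ∃ ψ, ψ = 1 - θ := ⟨_, rfl⟩
        have hψ0 : 0 < ψ := by linarith
        have hψ1 : ψ ≤ 1 / 2 := by linarith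
        have hθψ : θ = 1 - ψ := by linarith
        rw [hθψ, sub_sub_cancel, Real.binEntropy_one_sub]
        have h2 := bin_le ψ (by linarith)
        have h3 : log (e / 200 / ψ) ≤ e / 200 / ψ - 1 :=
          Real.log_le_sub_one_of_pos (by positivity)
        have h4 : log (e / 200 / ψ) = -log (200 / e) - log ψ := by
          rw [Real.log_div (by positivity) hψ0.ne', ← Real.log_inv, inv_div]
        rw [h4] at h3
        have h5 := mul_le_mul_of_nonneg_left h3 hψ0.le
        have h6 : ψ * (e / 200 / ψ - 1) = e / 200 - ψ := by field_simp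
        rw [h6] at h5
        have h7 : e / 200 ≤ (1 - ψ) * (e * ent μ) := by
          have h8 : e * (1 / 100) ≤ e * ent μ := mul_le_mul_of_nonneg_left hHμ he.le
          nlinarith
        have h8 : 0 ≤ (1 - ψ) * (2000 * Rr) := mul_nonneg (by linarith) (by positivity)
        nlinarith

/-- The final computation of the step. -/
theorem fin_step (n n₀ n₁ x x₀ x₁ θ A S₀ S₁ T D L H e : ℝ) (X : ℝ) (hn : 0 < n)
    (h2 : n * X ≤ n * (16 * ((x - x₀ - x₁) / n) + θ * (2000 * (-T) + e * H)))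
    (h3 : n * X = A) (h4 : n * θ = n₀) (hc : n₀ + n₁ = n)
    (hS0 : S₀ ≤ 16 * x₀ + n₀ * (2000 * (D + T) + e * (L - H)))
    (hS1 : S₁ ≤ 16 * x₁ + n₁ * (2000 * D + e * L)) :
    S₀ + S₁ + A ≤ 16 * x + n * (2000 * D + e * L) := by
  have h5 : n * (16 * ((x - x₀ - x₁) / n) + θ * (2000 * (-T) + e * H)) =
      16 * (x - x₀ - x₁) + n₀ * (2000 * (-T) + e * H) := by
    rw [← h4]
    field_simp
  have h6 : n * (2000 * D + e * L) = n₀ * (2000 * D + e * L) + n₁ * (2000 * D + e * L) := by
    rw [← add_mul, hc]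
  rw [h5] at h2
  rw [h6, ← h3]
  linarith

/-- The step. -/
theorem step (e : ℝ) (he : 0 < e) (he1 : e ≤ 1) (p f : ℕ) (hp : p.Prime) (hf : f ≠ 0) (b : ℝ)
    (hb : (b = 0 ∧ 2 * Real.exp (10 ^ 8 * (2 / e + 1)) ≤ p) ∨ b = log (200 / e))
    (R : Finset ι) (φ : ι → ℤ) (P Q : Finset ℤ) (hP : P.Nonempty) (hQ : Q.Nonempty)
    (S₀ S₁ : ℝ)
    (hS0 : ∀ P' Q' : Finset ℤ, P'.Nonempty → Q'.Nonempty →
      S₀ ≤ psi e (R.filter fun r => (φ r : ZMod (p ^ f)) = 0) φ P' Q')
    (hS1 : ∀ P' Q' : Finset ℤ, P'.Nonempty → Q'.Nonempty →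
      S₁ ≤ psi e (R.filter fun r => ¬ (φ r : ZMod (p ^ f)) = 0) φ P' Q') :
    S₀ + S₁ + ((R.card : ℝ) * gf (((R.filter fun r => (φ r : ZMod (p ^ f)) = 0).card : ℝ) /
      R.card) - b * ((R.card : ℝ) - (R.filter fun r => (φ r : ZMod (p ^ f)) = 0).card)) ≤
      psi e R φ P Q := by
  classical
  have hb200 : 1 ≤ log (200 / e) := by
    rw [Real.le_log_iff_exp_le (by positivity)]
    have h2 := Real.exp_one_lt_d9
    have h3 : 200 ≤ 200 / e := by
      rw [le_div_iff₀ he]
      linarith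
    linarith
  have hb0 : 0 ≤ b := by
    rcases hb with ⟨h2, -⟩ | h2
    · rw [h2]
    · rw [h2]; linarith
  have : NeZero (p ^ f) := ⟨pow_ne_zero _ hp.ne_zero⟩
  set m := p ^ f with hm
  set R₀ := R.filter (fun r => (φ r : ZMod m) = 0) with hR₀
  set R₁ := R.filter (fun r => ¬ (φ r : ZMod m) = 0) with hR₁
  have hcard : (R₀.card : ℝ) + R₁.card = R.card := by
    exact_mod_cast Finset.card_filter_add_card_filter_not (s := R)
      (fun r => (φ r : ZMod m) = 0)
  rcases R₀.eq_empty_or_nonempty with h0 | h0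
  · have hR1 : R₁ = R := by
      rw [hR₁, Finset.filter_eq_self]
      intro r hr ht
      exact Finset.notMem_empty r (h0 ▸ Finset.mem_filter.2 ⟨hr, ht⟩)
    have e1 := hS0 P Q hP hQ
    have e2 := hS1 P Q hP hQ
    rw [h0, psi_empty] at e1
    rw [hR1] at e2
    rw [h0]
    simp only [Finset.card_empty, Nat.cast_zero, zero_div, sub_zero]
    have e3 : gf 0 = 0 := by
      unfold gf
      rw [if_pos (by norm_num)]
    rw [e3]
    have e4 : 0 ≤ b * (R.card : ℝ) := by positivity
    linarith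
  rcases R₁.eq_empty_or_nonempty with h1 | h1
  · have hR0 : R₀ = R := by
      rw [hR₀, Finset.filter_eq_self]
      intro r hr
      by_contra ht
      exact Finset.notMem_empty r (h1 ▸ Finset.mem_filter.2 ⟨hr, ht⟩)
    have e1 := hS0 P Q hP hQ
    have e2 := hS1 P Q hP hQ
    rw [h1, psi_empty] at e2
    rw [hR0] at e1
    have hRc : (0 : ℝ) < R.card := by
      rw [← hR0]
      exact_mod_cast h0.card_pos
    rw [hR0, div_self hRc.ne', sub_self, mul_zero, sub_zero]
    have e3 : gf 1 = 0 := by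
      unfold gf
      rw [if_neg (by norm_num), Real.binEntropy_one]
    rw [e3]
    linarith
  have hPc : (0 : ℝ) < P.card := by exact_mod_cast hP.card_pos
  have hQc : (0 : ℝ) < Q.card := by exact_mod_cast hQ.card_pos
  have hPQc : (0 : ℝ) < (P + Q).card := by exact_mod_cast (hP.add hQ).card_pos
  have hc0 : (0 : ℝ) < R₀.card := by exact_mod_cast h0.card_pos
  have hc1 : (0 : ℝ) < R₁.card := by exact_mod_cast h1.card_pos
  have hRc : (0 : ℝ) < R.card := by linarith
  set θ : ℝ := (R₀.card : ℝ) / R.card with hθ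
  have hθ0 : 0 < θ := div_pos hc0 hRc
  have hθ1 : θ < 1 := by
    rw [hθ, div_lt_one hRc]
    linarith
  have hθR : θ * R.card = R₀.card := by
    rw [hθ]; field_simp
  -- distributions
  set μ : ZMod m → ℝ := fun y => ((cls m P y).card : ℝ) / P.card with hμ
  set ρ : ZMod m → ℝ := fun y => ((cls m Q y).card : ℝ) / Q.card with hρ
  set σ : ZMod m → ℝ := fun y => ((cls m (P + Q) y).card : ℝ) / (P + Q).card with hσ
  have hsum : ∀ X : Finset ℤ, X.Nonempty → ∑ y : ZMod m, ((cls m X y).card : ℝ) / X.card = 1 := by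
    intro X hX
    have hXc : (0 : ℝ) < X.card := by exact_mod_cast hX.card_pos
    rw [← Finset.sum_div, div_eq_one_iff_eq hXc.ne']
    exact_mod_cast FS.sum_cls m X
  -- the choice of the class of `Q`
  have hQex : (Finset.univ.filter fun y : ZMod m => (cls m Q y).Nonempty).Nonempty := by
    obtain ⟨q, hq⟩ := hQ
    exact ⟨(q : ZMod m), by
      simp only [Finset.mem_filter, Finset.mem_univ, true_and]
      exact ⟨q, Finset.mem_filter.2 ⟨hq, rfl⟩⟩⟩
  have hchoice : ∀ y : ZMod m, ∃ c : ZMod m, (cls m Q c).Nonempty ∧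
      ∀ y', (cls m Q y').Nonempty →
        log ((cls m P y + cls m Q c).card : ℝ) - log ((cls m Q c).card : ℝ) / 2 ≤
        log ((cls m P y + cls m Q y').card : ℝ) - log ((cls m Q y').card : ℝ) / 2 := by
    intro y
    obtain ⟨c, hc, hcmin⟩ := Finset.exists_min_image _ (fun y' : ZMod m =>
      log ((cls m P y + cls m Q y').card : ℝ) - log ((cls m Q y').card : ℝ) / 2) hQex
    refine ⟨c, (Finset.mem_filter.1 hc).2, fun y' hy' => hcmin y' ?_⟩
    exact Finset.mem_filter.2 ⟨Finset.mem_univ _, hy'⟩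
  choose c hc hcmin using hchoice
  set a : ZMod m → ℝ := fun y => log ((cls m P y + cls m Q (c y)).card : ℝ) -
    log ((P + Q).card : ℝ) - log (μ y) / 2 - log (ρ (c y)) / 2 with ha
  have hμne : ∀ y, 0 < μ y → (cls m P y).Nonempty := by
    intro y hy
    rw [Finset.nonempty_iff_ne_empty]
    intro h
    simp [hμ, h] at hy
  have hρne : ∀ y, 0 < ρ y → (cls m Q y).Nonempty := by
    intro y hy
    rw [Finset.nonempty_iff_ne_empty]
    intro h
    simp [hρ, h] at hy
  have hlogρ : ∀ y, (cls m Q y).Nonempty →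
      log (ρ y) = log ((cls m Q y).card : ℝ) - log (Q.card : ℝ) := by
    intro y hy
    have : (0 : ℝ) < (cls m Q y).card := by exact_mod_cast hy.card_pos
    exact Real.log_div this.ne' hQc.ne'
  have hlogμ : ∀ y, (cls m P y).Nonempty →
      log (μ y) = log ((cls m P y).card : ℝ) - log (P.card : ℝ) := by
    intro y hy
    have : (0 : ℝ) < (cls m P y).card := by exact_mod_cast hy.card_pos
    exact Real.log_div this.ne' hPc.ne'
  have hcfg : Cfg μ ρ σ a := by
    refine ⟨fun y => by positivity, hsum P hP, fun y => by positivity, hsum Q hQ,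
      fun y => by positivity, (hsum (P + Q) (hP.add hQ)).le, ?_, ?_⟩
    · intro y y' hy hy'
      have h2 := hμne y hy
      have h3 := hρne y' hy'
      have h4 : (0 : ℝ) < (cls m (P + Q) (y + y')).card := by
        exact_mod_cast Finset.card_pos.2 ((h2.add h3).mono (FS.cls_add m P Q y y'))
      simp only [hσ]
      positivity
    · intro y y' hy hy'
      have h2 := hμne y hy
      have h3 := hρne y' hy'
      have h4 := hcmin y y' h3
      have h5 : (0 : ℝ) < (cls m P y + cls m Q y').card := by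
        exact_mod_cast (h2.add h3).card_pos
      have h6 : log ((cls m P y + cls m Q y').card : ℝ) ≤
          log ((cls m (P + Q) (y + y')).card : ℝ) :=
        Real.log_le_log h5 (by exact_mod_cast Finset.card_le_card (FS.cls_add m P Q y y'))
      have h7 : log (σ (y + y')) = log ((cls m (P + Q) (y + y')).card : ℝ) -
          log ((P + Q).card : ℝ) := by
        have h8 : (0 : ℝ) < (cls m (P + Q) (y + y')).card := by
          exact_mod_cast Finset.card_pos.2 ((h2.add h3).mono (FS.cls_add m P Q y y'))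
        exact Real.log_div h8.ne' hPQc.ne'
      rw [h7, hlogρ y' h3]
      simp only [ha]
      rw [hlogρ (c y) (hc y)]
      linarith
  -- the bound for `S₀`
  have hS0y : ∀ y, μ y * S₀ ≤ 16 * (μ y * (R₀.card * log R₀.card) -
      Lg R₀ φ (cls m P y) / P.card) + R₀.card * (2000 * (μ y * D2 P Q + μ y * a y) +
        e * (μ y * log P.card + μ y * log (μ y))) := by
    intro y
    rcases (hcfg.p0 y).eq_or_lt with h2 | h2
    · have h3 : cls m P y = ∅ := by
        have h4 : ((cls m P y).card : ℝ) / P.card = 0 := h2.symm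
        rw [div_eq_zero_iff] at h4
        rcases h4 with h4 | h4
        · exact Finset.card_eq_zero.1 (by exact_mod_cast h4)
        · exact absurd h4 hPc.ne'
      rw [← h2, h3]
      simp [Lg]
    · have h3 := hμne y h2
      have h4 := hS0 (cls m P y) (cls m Q (c y)) h3 (hc y)
      have h5 := mul_le_mul_of_nonneg_left h4 h2.le
      refine h5.trans (le_of_eq ?_)
      have hyc : (0 : ℝ) < (cls m P y).card := by exact_mod_cast h3.card_pos
      unfold psi
      have e1 : μ y * E1 R₀ φ (cls m P y) = μ y * (R₀.card * log R₀.card) -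
          Lg R₀ φ (cls m P y) / P.card := by
        unfold E1
        simp only [hμ]
        field_simp
      have e2 : D2 (cls m P y) (cls m Q (c y)) = D2 P Q + a y := by
        unfold D2
        simp only [ha]
        rw [hlogμ y h3, hlogρ (c y) (hc y)]
        ring
      have e3 : log ((cls m P y).card : ℝ) = log (P.card : ℝ) + log (μ y) := by
        rw [hlogμ y h3]; ring
      rw [e2, e3]
      have e4 : μ y * (16 * E1 R₀ φ (cls m P y) + R₀.card * (2000 * (D2 P Q + a y) +
          e * (log (P.card : ℝ) + log (μ y)))) = 16 * (μ y * E1 R₀ φ (cls m P y)) +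
          R₀.card * (2000 * (μ y * D2 P Q + μ y * a y) +
        e * (μ y * log P.card + μ y * log (μ y))) := by ring
      rw [e4, e1]
  have hS0' : S₀ ≤ 16 * E1 R₀ φ P + R₀.card * (2000 * (D2 P Q + ∑ y, μ y * a y) +
      e * (log P.card - ent μ)) := by
    have h2 := Finset.sum_le_sum fun y (_ : y ∈ Finset.univ) => hS0y y
    rw [← Finset.sum_mul, hcfg.p1, one_mul] at h2
    refine h2.trans (le_of_eq ?_)
    have e1 : ∑ y, Lg R₀ φ (cls m P y) / P.card = Lg R₀ φ P / P.card := by
      rw [← Finset.sum_div, Lg_cls m R₀ φ P (fun r hr => (Finset.mem_filter.1 hr).2)]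
    have e2 : ∀ C : ℝ, ∑ y, μ y * C = C := fun C => by
      rw [← Finset.sum_mul, hcfg.p1, one_mul]
    have e3 : ∑ y, μ y * log (μ y) = -ent μ := by
      unfold ent; ring
    rw [Finset.sum_add_distrib, ← Finset.mul_sum, ← Finset.mul_sum, Finset.sum_sub_distrib,
      Finset.sum_add_distrib, ← Finset.mul_sum, ← Finset.mul_sum, Finset.sum_add_distrib,
      Finset.sum_add_distrib, e1, e2, e2, e2, e3]
    unfold E1
    ring
  have hS1' := hS1 P Q hP hQ
  -- the release
  have hgain : ∀ y₀ : ZMod m, ∀ J₀ J₁ N₀ N₁ : ℝ, 0 < J₀ → 0 < J₁ → 0 < N₀ → 0 < N₁ →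
      J₀ + J₁ ≤ 1 → N₀ + N₁ ≤ 1 → J₁ ≤ N₁ →
      Real.binEntropy θ + θ * (μ y₀ * log J₀ + (1 - μ y₀) * log N₀) +
      (1 - θ) * ((1 - μ y₀) * log J₁ + μ y₀ * log N₁) ≤
      (E1 R φ P - E1 R₀ φ P - E1 R₁ φ P) / R.card := by
    intro y₀ J₀ J₁ N₀ N₁ hJ0 hJ1 hN0 hN1 hJ hN hJN
    have h2 := gain m R φ P hP h0 h1 y₀ J₀ J₁ N₀ N₁ hJ0 hJ1 hN0 hN1 hJ hN hJN
      (1 - μ y₀) rfl θ rfl
    rw [le_div_iff₀ hRc]
    rw [← hR₀, ← hR₁] at h2
    refine le_trans (le_of_eq ?_) h2
    rw [mul_comm]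
    ring
  have hI0 : 0 ≤ (E1 R φ P - E1 R₀ φ P - E1 R₁ φ P) / R.card := by
    have h2 := E1_add R φ P hP (fun r => (φ r : ZMod m) = 0)
    apply div_nonneg _ hRc.le
    linarith
  have hrel := release e he he1 μ ρ σ a hcfg p (FS.minOrder_pow p f hp hf) b hb θ
    ((E1 R φ P - E1 R₀ φ P - E1 R₁ φ P) / R.card) hθ0 hθ1 hI0 hgain
  have h2 := mul_le_mul_of_nonneg_left hrel hRc.le
  have hθR2 : (R.card : ℝ) * θ = R₀.card := by rw [mul_comm]; exact hθR
  have h3 : (R.card : ℝ) * (gf θ - b * (1 - θ)) = R.card * gf θ - b * (R.card - R₀.card) := by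
    rw [← hθR2]; ring
  exact fin_step _ _ _ _ _ _ _ _ _ _ _ _ _ _ _ _ hRc h2 h3 hθR2 hcard hS0' hS1'

end Pool.Agent.H87.LL
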