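import Mathlib
import Pool.Agent.H87.LL.Step

/-!
# The infimum of the potential and all tests of one prime
-/

set_option autoImplicit false
set_option linter.unusedSectionVars false

namespace Pool.Agent.H87.LL

open Finset Real
open Pool.Agent.H87.FS (cls va)
open scoped Pointwise BigOperators

variable {ι : Type*}

/-- The infimum of the potential. -/
noncomputable def Sf (e : ℝ) (R : Finset ι) (φ : ι → ℤ) : ℝ :=
  ⨅ PQ : {P : Finset ℤ // P.Nonempty} × {Q : Finset ℤ // Q.Nonempty}, psi e R φ PQ.1.1 PQ.2.1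

theorem Sf_le (e : ℝ) (he : 0 < e) (R : Finset ι) (φ : ι → ℤ) (P Q : Finset ℤ)
    (hP : P.Nonempty) (hQ : Q.Nonempty) : Sf e R φ ≤ psi e R φ P Q := by
  unfold Sf
  refine ciInf_le (f := fun PQ : {P : Finset ℤ // P.Nonempty} × {Q : Finset ℤ // Q.Nonempty} =>
    psi e R φ PQ.1.1 PQ.2.1) ⟨0, ?_⟩ (⟨P, hP⟩, ⟨Q, hQ⟩)
  rintro x ⟨PQ, rfl⟩
  exact psi_nonneg e he R φ _ _ PQ.1.2 PQ.2.2

theorem le_Sf (e : ℝ) (R : Finset ι) (φ : ι → ℤ) (x : ℝ)
    (h : ∀ P Q : Finset ℤ, P.Nonempty → Q.Nonempty → x ≤ psi e R φ P Q) : x ≤ Sf e R φ := by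
  unfold Sf
  have : Nonempty ({P : Finset ℤ // P.Nonempty} × {Q : Finset ℤ // Q.Nonempty}) :=
    ⟨(⟨{0}, Finset.singleton_nonempty _⟩, ⟨{0}, Finset.singleton_nonempty _⟩)⟩
  exact le_ciInf fun PQ => h _ _ PQ.1.2 PQ.2.2

theorem Sf_nonneg (e : ℝ) (he : 0 < e) (R : Finset ι) (φ : ι → ℤ) : 0 ≤ Sf e R φ :=
  le_Sf e R φ 0 fun P Q hP hQ => psi_nonneg e he R φ P Q hP hQ

theorem Sf_empty (e : ℝ) (he : 0 < e) (φ : ι → ℤ) : Sf e (∅ : Finset ι) φ = 0 := by
  refine le_antisymm ?_ (Sf_nonneg e he _ _)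
  have := Sf_le e he (∅ : Finset ι) φ {0} {0} (Finset.singleton_nonempty _)
    (Finset.singleton_nonempty _)
  rwa [psi_empty] at this

theorem Sf_add (e : ℝ) (he : 0 < e) (R : Finset ι) (φ : ι → ℤ) (t : ι → Prop)
    [DecidablePred t] :
    Sf e (R.filter t) φ + Sf e (R.filter fun r => ¬ t r) φ ≤ Sf e R φ := by
  refine le_Sf e R φ _ fun P Q hP hQ => ?_
  have h0 := Sf_le e he (R.filter t) φ P Q hP hQ
  have h1 := Sf_le e he (R.filter fun r => ¬ t r) φ P Q hP hQ
  have h2 := E1_add R φ P hP t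
  have hcard : ((R.filter t).card : ℝ) + (R.filter fun r => ¬ t r).card = R.card := by
    exact_mod_cast Finset.card_filter_add_card_filter_not (s := R) t
  unfold psi at h0 h1 ⊢
  rw [← hcard, add_mul]
  linarith

theorem Sf_partition {κ : Type*} [DecidableEq κ] (e : ℝ) (he : 0 < e) (φ : ι → ℤ)
    (key : ι → κ) (T : Finset κ) : ∀ R : Finset ι, (∀ r ∈ R, key r ∈ T) →
    ∑ x ∈ T, Sf e (R.filter fun r => key r = x) φ ≤ Sf e R φ := by
  induction T using Finset.induction_on with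
  | empty =>
    intro R _
    simpa using Sf_nonneg e he R φ
  | insert x T hx ih =>
    intro R hR
    rw [Finset.sum_insert hx]
    have h1 := ih (R.filter fun r => ¬ key r = x) (by
      intro r hr
      obtain ⟨hr1, hr2⟩ := Finset.mem_filter.1 hr
      exact (Finset.mem_insert.1 (hR r hr1)).resolve_left hr2)
    have h2 := Sf_add e he R φ (fun r => key r = x)
    have h3 : ∑ y ∈ T, Sf e ((R.filter fun r => ¬ key r = x).filter fun r => key r = y) φ =
        ∑ y ∈ T, Sf e (R.filter fun r => key r = y) φ := by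
      refine Finset.sum_congr rfl fun y hy => ?_
      congr 1
      ext r
      simp only [Finset.mem_filter]
      constructor
      · rintro ⟨⟨a, -⟩, b⟩
        exact ⟨a, b⟩
      · rintro ⟨a, b⟩
        refine ⟨⟨a, ?_⟩, b⟩
        rintro rfl
        exact hx (b ▸ hy)
    rw [h3] at h1
    linarith

/-- All tests of one prime. -/
theorem block (e : ℝ) (he : 0 < e) (he1 : e ≤ 1) (p : ℕ) (hp : p.Prime) (b : ℝ)
    (hb : (b = 0 ∧ 2 * Real.exp (10 ^ 8 * (2 / e + 1)) ≤ p) ∨ b = log (200 / e))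
    (R : Finset ι) (φ : ι → ℤ) (h0 : ∀ r ∈ R, φ r ≠ 0) (F : ℕ) :
    ∑ f ∈ Finset.range F, ((R.filter fun r => f ≤ va p (φ r)).card : ℝ) *
        gf (((R.filter fun r => f + 1 ≤ va p (φ r)).card : ℝ) /
          (R.filter fun r => f ≤ va p (φ r)).card) +
      ∑ f ∈ Finset.range F, Sf e (R.filter fun r => va p (φ r) = f) φ +
      Sf e (R.filter fun r => F ≤ va p (φ r)) φ +
      b * (R.filter fun r => F ≤ va p (φ r)).card ≤ Sf e R φ + b * R.card := by
  classical
  induction F with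
  | zero => simp
  | succ F ih =>
    rw [Finset.sum_range_succ, Finset.sum_range_succ]
    set R' := R.filter (fun r => F ≤ va p (φ r)) with hR'
    have e1 : R'.filter (fun r => (φ r : ZMod (p ^ (F + 1))) = 0) =
        R.filter fun r => F + 1 ≤ va p (φ r) := by
      ext r
      simp only [hR', Finset.mem_filter]
      constructor
      · rintro ⟨⟨a, b⟩, c⟩
        exact ⟨a, (FS.val_iff p (F + 1) hp _ (h0 r a)).1 c⟩
      · rintro ⟨a, b⟩
        exact ⟨⟨a, by omega⟩, (FS.val_iff p (F + 1) hp _ (h0 r a)).2 b⟩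
    have e2 : R'.filter (fun r => ¬ (φ r : ZMod (p ^ (F + 1))) = 0) =
        R.filter fun r => va p (φ r) = F := by
      ext r
      simp only [hR', Finset.mem_filter]
      constructor
      · rintro ⟨⟨a, b⟩, c⟩
        rw [FS.val_iff p (F + 1) hp _ (h0 r a)] at c
        exact ⟨a, by omega⟩
      · rintro ⟨a, b⟩
        refine ⟨⟨a, by omega⟩, ?_⟩
        rw [FS.val_iff p (F + 1) hp _ (h0 r a)]
        omega
    have key : Sf e (R.filter fun r => F + 1 ≤ va p (φ r)) φ +
        Sf e (R.filter fun r => va p (φ r) = F) φ + ((R'.card : ℝ) *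
        gf (((R.filter fun r => F + 1 ≤ va p (φ r)).card : ℝ) / R'.card) -
        b * ((R'.card : ℝ) - (R.filter fun r => F + 1 ≤ va p (φ r)).card)) ≤ Sf e R' φ := by
      refine le_Sf e R' φ _ fun P Q hP hQ => ?_
      have h := step e he he1 p (F + 1) hp (Nat.succ_ne_zero F) b hb R' φ P Q hP hQ
        (Sf e (R.filter fun r => F + 1 ≤ va p (φ r)) φ)
        (Sf e (R.filter fun r => va p (φ r) = F) φ)
        (fun P' Q' hP' hQ' => by
          rw [e1]
          exact Sf_le e he _ φ P' Q' hP' hQ')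
        (fun P' Q' hP' hQ' => by
          rw [e2]
          exact Sf_le e he _ φ P' Q' hP' hQ')
      rw [e1] at h
      exact h
    linarith

end Pool.Agent.H87.LL
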