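import Mathlib
import Pool.Agent.H87.LL.Coord

/-!
# The local estimate

Let `V` be a random vector of natural numbers with a constant sum. Its entropy is at most
`4 log (2 k)` times the sum of the costs of its coordinates.
-/

set_option autoImplicit false
set_option linter.unusedSectionVars false

namespace Pool.Agent.H87.LL

open Finset Real
open scoped BigOperators

variable {ι : Type*}

theorem kernel_sum (k : ℕ) (T : Finset (Fin k → ℕ)) (s F : ℕ) (hs : ∀ v ∈ T, ∑ i, v i = s)
    (hF : ∀ v ∈ T, ∀ i, v i < F) (e : Fin k → ℕ) (lam : Fin k → ℕ → ℝ) (A : Fin k → ℝ)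
    (hlam0 : ∀ i v, 0 ≤ lam i v) (hlam1 : ∀ i, ∑ v ∈ Finset.range F, lam i v = 1)
    (hA : ∀ i, ∑ v ∈ (Finset.range F).filter (fun v => e i ≤ v), lam i v = A i) :
    ∑ v ∈ T, (if v = e then ∏ i, A i else ∏ i, lam i (v i)) ≤ 1 := by
  classical
  set box : Finset (Fin k → ℕ) := Fintype.piFinset fun _ => Finset.range F with hbox
  have hTbox : T ⊆ box := by
    intro v hv
    rw [hbox, Fintype.mem_piFinset]
    exact fun i => Finset.mem_range.2 (hF v hv i)
  have hboxsum : ∑ v ∈ box, ∏ i, lam i (v i) = 1 := by
    rw [hbox, ← Finset.prod_univ_sum]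
    simp [hlam1]
  have hnn : ∀ v : Fin k → ℕ, 0 ≤ ∏ i, lam i (v i) := fun v =>
    Finset.prod_nonneg fun i _ => hlam0 i _
  by_cases he : e ∈ T
  · rw [← Finset.add_sum_erase T _ he, if_pos rfl]
    have h1 : ∑ v ∈ T.erase e, (if v = e then ∏ i, A i else ∏ i, lam i (v i)) =
        ∑ v ∈ T.erase e, ∏ i, lam i (v i) :=
      Finset.sum_congr rfl fun v hv => if_neg (Finset.ne_of_mem_erase hv)
    set U : Finset (Fin k → ℕ) :=
      Fintype.piFinset fun i => (Finset.range F).filter (fun v => e i ≤ v) with hU
    have h2 : ∏ i, A i = ∑ v ∈ U, ∏ i, lam i (v i) := by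
      rw [hU, ← Finset.prod_univ_sum]
      exact Finset.prod_congr rfl fun i _ => (hA i).symm
    have hUbox : U ⊆ box := by
      intro v hv
      rw [hU, Fintype.mem_piFinset] at hv
      rw [hbox, Fintype.mem_piFinset]
      exact fun i => (Finset.mem_filter.1 (hv i)).1
    have hdis : Disjoint U (T.erase e) := by
      rw [Finset.disjoint_left]
      intro v hv hvT
      have h3 := Finset.mem_erase.1 hvT
      apply h3.1
      have h4 : ∀ i, e i ≤ v i := by
        intro i
        rw [hU, Fintype.mem_piFinset] at hv
        exact (Finset.mem_filter.1 (hv i)).2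
      have h5 : ∑ i, e i = ∑ i, v i := by rw [hs e he, hs v h3.2]
      have h6 := (Finset.sum_eq_sum_iff_of_le (fun i _ => h4 i)).1 h5
      funext i
      exact (h6 i (Finset.mem_univ i)).symm
    rw [h1, h2, ← Finset.sum_union hdis, ← hboxsum]
    refine Finset.sum_le_sum_of_subset_of_nonneg ?_ fun v _ _ => hnn v
    exact Finset.union_subset hUbox ((Finset.erase_subset _ _).trans hTbox)
  · have h1 : ∑ v ∈ T, (if v = e then ∏ i, A i else ∏ i, lam i (v i)) =
        ∑ v ∈ T, ∏ i, lam i (v i) :=
      Finset.sum_congr rfl fun v hv => if_neg (fun h : v = e => he (h ▸ hv))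
    rw [h1, ← hboxsum]
    exact Finset.sum_le_sum_of_subset_of_nonneg hTbox fun v _ _ => hnn v

theorem loss (k : ℕ) (hk : 1 ≤ k) (R : Finset ι) (V : ι → Fin k → ℕ) (s F : ℕ)
    (hs : ∀ r ∈ R, ∑ i, V r i = s) (hF : ∀ r ∈ R, ∀ i, V r i < F) :
    ∑ r ∈ R, (log R.card - log (R.filter fun r' => V r' = V r).card) ≤
      4 * log (2 * k) * ∑ i, ∑ f ∈ Finset.range F,
        ((R.filter fun r => f ≤ V r i).card : ℝ) *
          gf (((R.filter fun r => f + 1 ≤ V r i).card : ℝ) /
            (R.filter fun r => f ≤ V r i).card) := by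
  classical
  rcases R.eq_empty_or_nonempty with rfl | hR
  · simp
  have hRc : (0 : ℝ) < R.card := by exact_mod_cast hR.card_pos
  have hk0 : (1 : ℝ) ≤ k := by exact_mod_cast hk
  have hcoord : ∀ i : Fin k, _ := fun i =>
    coord (fun f => ((R.filter fun r => f ≤ V r i).card : ℝ))
      (by
        intro a b hab
        simp only
        have : (R.filter fun r => b ≤ V r i) ⊆ (R.filter fun r => a ≤ V r i) := by
          intro r hr
          obtain ⟨h1, h2⟩ := Finset.mem_filter.1 hr
          exact Finset.mem_filter.2 ⟨h1, hab.trans h2⟩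
        exact_mod_cast Finset.card_le_card this)
      (fun v => Nat.cast_nonneg _)
      (by simpa using hR) F
      (by
        have : (R.filter fun r => F ≤ V r i) = ∅ := by
          rw [Finset.filter_eq_empty_iff]
          intro r hr
          have := hF r hr i
          omega
        simp [this]) (2 * k) (by linarith)
  choose e lam A heF hlam0 hlampos hlam1 hA0 hA hlame hcost using hcoord
  -- the counts
  have hcount : ∀ i v, ((R.filter fun r => v ≤ V r i).card : ℝ) -
      (R.filter fun r => v + 1 ≤ V r i).card = (R.filter fun r => V r i = v).card := by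
    intro i v
    have h1 : (R.filter fun r => v ≤ V r i) =
        (R.filter fun r => V r i = v) ∪ (R.filter fun r => v + 1 ≤ V r i) := by
      ext r
      simp only [Finset.mem_filter, Finset.mem_union]
      constructor
      · rintro ⟨a, b⟩
        rcases b.eq_or_lt with h | h
        · exact Or.inl ⟨a, h.symm⟩
        · exact Or.inr ⟨a, h⟩
      · rintro (⟨a, b⟩ | ⟨a, b⟩)
        · exact ⟨a, b.ge⟩
        · exact ⟨a, by omega⟩
    have h2 : Disjoint (R.filter fun r => V r i = v) (R.filter fun r => v + 1 ≤ V r i) := by
      rw [Finset.disjoint_filter]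
      intro r _ h1 h2
      omega
    rw [h1, Finset.card_union_of_disjoint h2]
    push_cast
    ring
  set κ : (Fin k → ℕ) → ℝ := fun v => if v = e then ∏ i, A i else ∏ i, lam i (v i) with hκ
  have hlamr : ∀ r ∈ R, ∀ i, 0 < lam i (V r i) := by
    intro r hr i
    refine hlampos i (V r i) (hF r hr i) ?_
    have h1 := hcount i (V r i)
    have h2' : (R.filter fun r' => V r' i = V r i).Nonempty :=
      ⟨r, Finset.mem_filter.2 ⟨hr, rfl⟩⟩
    have h2 : (0 : ℝ) < (R.filter fun r' => V r' i = V r i).card := by
      exact_mod_cast h2'.card_pos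
    linarith
  have hκpos : ∀ r ∈ R, 0 < κ (V r) := by
    intro r hr
    simp only [hκ]
    split_ifs
    · exact Finset.prod_pos fun i _ => hA0 i
    · exact Finset.prod_pos fun i _ => hlamr r hr i
  have hκsum : ∑ v ∈ R.image V, κ v ≤ 1 :=
    kernel_sum k (R.image V) s F
      (by
        intro v hv
        obtain ⟨r, hr, rfl⟩ := Finset.mem_image.1 hv
        exact hs r hr)
      (by
        intro v hv
        obtain ⟨r, hr, rfl⟩ := Finset.mem_image.1 hv
        exact hF r hr) e lam A hlam0 hlam1 hA
  -- Gibbs
  have hgibbs : ∑ r ∈ R, (log (κ (V r)) + (log R.card -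
      log (R.filter fun r' => V r' = V r).card)) ≤ 0 := by
    have h1 : ∀ r ∈ R, log (κ (V r)) + (log R.card -
        log (R.filter fun r' => V r' = V r).card) ≤
        κ (V r) * R.card / (R.filter fun r' => V r' = V r).card - 1 := by
      intro r hr
      have h2 := hκpos r hr
      have h3' : (R.filter fun r' => V r' = V r).Nonempty :=
        ⟨r, Finset.mem_filter.2 ⟨hr, rfl⟩⟩
      have h3 : (0 : ℝ) < (R.filter fun r' => V r' = V r).card := by
        exact_mod_cast h3'.card_pos
      have h4 := Real.log_le_sub_one_of_pos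
        (show 0 < κ (V r) * R.card / (R.filter fun r' => V r' = V r).card by positivity)
      rw [Real.log_div (by positivity) h3.ne', Real.log_mul h2.ne' hRc.ne'] at h4
      linarith
    refine (Finset.sum_le_sum h1).trans ?_
    rw [Finset.sum_sub_distrib, Finset.sum_const, nsmul_eq_mul, mul_one]
    have h2 := Finset.sum_comp (s := R)
      (fun v => κ v * R.card / (R.filter fun r' => V r' = v).card) V
    rw [h2]
    have h3 : ∑ v ∈ R.image V, (R.filter fun a => V a = v).card •
        (κ v * (R.card : ℝ) / (R.filter fun r' => V r' = v).card) =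
        ∑ v ∈ R.image V, κ v * R.card := by
      refine Finset.sum_congr rfl fun v hv => ?_
      obtain ⟨r, hr, hrv⟩ := Finset.mem_image.1 hv
      have h3' : (R.filter fun r' => V r' = v).Nonempty :=
        ⟨r, Finset.mem_filter.2 ⟨hr, hrv⟩⟩
      have h3 : (0 : ℝ) < (R.filter fun r' => V r' = v).card := by
        exact_mod_cast h3'.card_pos
      rw [nsmul_eq_mul]
      field_simp
    rw [h3, ← Finset.sum_mul]
    nlinarith
  have hbound : ∀ r ∈ R, -log (κ (V r)) ≤ ∑ i, (-log (if V r i = e i then A i else
      lam i (V r i)) + (if V r i = e i then 0 else log 2)) := by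
    intro r hr
    by_cases h : V r = e
    · simp only [hκ, h, if_true, add_zero]
      rw [Real.log_prod (fun i _ => (hA0 i).ne'), Finset.sum_neg_distrib]
    · simp only [hκ]
      rw [if_neg h, Finset.sum_add_distrib, Finset.sum_neg_distrib]
      have hpos' : ∀ i, 0 < (if V r i = e i then A i else lam i (V r i)) := by
        intro i
        split_ifs
        · exact hA0 i
        · exact hlamr r hr i
      have hK1 : (1 : ℝ) / (2 * k) ≤ 1 / 2 := one_div_le_one_div_of_le (by norm_num) (by linarith)
      have hK0 : (0 : ℝ) < 1 / (2 * k) := by positivity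
      have h1 : ∀ i, (1 - 1 / (2 * (k : ℝ))) * (if V r i = e i then A i else lam i (V r i)) ≤
          lam i (V r i) := by
        intro i
        split_ifs with h2
        · rw [h2]
          exact hlame i
        · have := hlamr r hr i
          nlinarith
      have h2 : (1 - 1 / (2 * (k : ℝ))) ^ k * ∏ i, (if V r i = e i then A i else lam i (V r i)) ≤
          ∏ i, lam i (V r i) := by
        have h3 := Finset.prod_le_prod (s := Finset.univ) (f := fun i : Fin k =>
          (1 - 1 / (2 * (k : ℝ))) * (if V r i = e i then A i else lam i (V r i)))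
          (g := fun i => lam i (V r i)) (fun i _ => mul_nonneg (by linarith) (hpos' i).le)
          (fun i _ => h1 i)
        rwa [Finset.prod_mul_distrib, Finset.prod_const, Finset.card_univ,
          Fintype.card_fin] at h3
      have h3 : (1 : ℝ) / 2 ≤ (1 - 1 / (2 * (k : ℝ))) ^ k := by
        have h4 := one_add_mul_le_pow (a := -(1 / (2 * (k : ℝ)))) (by linarith) k
        have h5 : 1 + (k : ℝ) * -(1 / (2 * (k : ℝ))) = 1 / 2 := by
          field_simp
          ring
        rw [h5, ← sub_eq_add_neg] at h4
        exact h4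
      have hprodpos : 0 < ∏ i, (if V r i = e i then A i else lam i (V r i)) :=
        Finset.prod_pos fun i _ => hpos' i
      have h4 : 1 / 2 * ∏ i, (if V r i = e i then A i else lam i (V r i)) ≤
          ∏ i, lam i (V r i) :=
        (mul_le_mul_of_nonneg_right h3 hprodpos.le).trans h2
      have h5 := Real.log_le_log (by positivity) h4
      rw [Real.log_mul (by norm_num) hprodpos.ne', one_div, Real.log_inv,
        Real.log_prod (fun i _ => (hpos' i).ne')] at h5
      have h6 : log 2 ≤ ∑ i : Fin k, (if V r i = e i then (0 : ℝ) else log 2) := by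
        obtain ⟨i, hi⟩ : ∃ i, V r i ≠ e i := by
          by_contra hcon
          push Not at hcon
          exact h (funext hcon)
        have h7 := Finset.single_le_sum (f := fun i : Fin k =>
          (if V r i = e i then (0 : ℝ) else log 2)) (s := Finset.univ)
          (fun j _ => by
            split_ifs
            · exact le_refl _
            · exact Real.log_nonneg (by norm_num)) (Finset.mem_univ i)
        simp only [if_neg hi] at h7
        exact h7
      linarith
  have hsum := Finset.sum_le_sum hbound
  rw [Finset.sum_comm] at hsum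
  have hcoordsum : ∀ i, ∑ r ∈ R, (-log (if V r i = e i then A i else
      lam i (V r i)) + (if V r i = e i then 0 else log 2)) ≤ 4 * log (2 * k) *
      ∑ f ∈ Finset.range F, ((R.filter fun r => f ≤ V r i).card : ℝ) *
          gf (((R.filter fun r => f + 1 ≤ V r i).card : ℝ) /
            (R.filter fun r => f ≤ V r i).card) := by
    intro i
    refine le_trans (le_of_eq ?_) (hcost i)
    rw [← Finset.sum_fiberwise_of_maps_to (s := R) (t := Finset.range F) (g := fun r => V r i)
      (fun r hr => Finset.mem_range.2 (hF r hr i))]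
    refine Finset.sum_congr rfl fun v _ => ?_
    rw [hcount i v, ← nsmul_eq_mul, ← Finset.sum_const]
    refine Finset.sum_congr rfl fun r hr => ?_
    rw [(Finset.mem_filter.1 hr).2]
  have hsum2 := Finset.sum_le_sum fun i (_ : i ∈ Finset.univ) => hcoordsum i
  rw [← Finset.mul_sum] at hsum2
  rw [Finset.sum_add_distrib] at hgibbs
  rw [Finset.sum_neg_distrib] at hsum
  linarith

end Pool.Agent.H87.LL
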