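import Mathlib
import Pool.Agent.H87.LL.Block
import Pool.Agent.H87.LL.Loss

/-!
# The main induction
-/

set_option autoImplicit false
set_option linter.unusedSectionVars false

namespace Pool.Agent.H87.LL

open Finset Real
open Pool.Agent.H87.FS (cls va)
open scoped Pointwise BigOperators

/-- The cost of a prime. -/
noncomputable def bq (e : ℝ) (q : ℕ) : ℝ :=
  if 2 * Real.exp (10 ^ 8 * (2 / e + 1)) ≤ q then 0 else log (200 / e)

theorem bq_spec (e : ℝ) (q : ℕ) :
    (bq e q = 0 ∧ 2 * Real.exp (10 ^ 8 * (2 / e + 1)) ≤ q) ∨ bq e q = log (200 / e) := by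
  unfold bq
  split_ifs with h
  · exact Or.inl ⟨rfl, h⟩
  · exact Or.inr rfl

theorem bq_nonneg (e : ℝ) (he : 0 < e) (he1 : e ≤ 1) (q : ℕ) : 0 ≤ bq e q := by
  unfold bq
  split_ifs with h
  · exact le_refl _
  · refine Real.log_nonneg ?_
    rw [le_div_iff₀ he]
    linarith

theorem va_prod (k : ℕ) (q : ℕ) (r : Fin k → ℤ) (hr : ∀ i, r i ≠ 0) :
    ∑ i, va q (r i) = va q (∏ i, r i) := by
  unfold va
  have h1 : (∏ i, r i).natAbs = ∏ i, (r i).natAbs := map_prod Int.natAbsHom r Finset.univ
  rw [h1, Nat.factorization_prod (fun i _ => Int.natAbs_ne_zero.2 (hr i))]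
  simp

/-- The partition by all coordinates refines the partition by one. -/
theorem part2 {ι κ : Type*} [DecidableEq κ] (e : ℝ) (he : 0 < e) (φ : ι → ℤ) (key : ι → κ)
    (w : ι → ℕ) (u : κ → ℕ) (R : Finset ι) (F : ℕ) (hw : ∀ r ∈ R, w r < F)
    (hu : ∀ r, w r = u (key r)) :
    ∑ v ∈ R.image key, Sf e (R.filter fun r => key r = v) φ ≤
      ∑ f ∈ Finset.range F, Sf e (R.filter fun r => w r = f) φ := by
  have h1 : ∀ f ∈ Finset.range F, ∑ v ∈ R.image key,
      Sf e ((R.filter fun r => w r = f).filter fun r => key r = v) φ ≤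
      Sf e (R.filter fun r => w r = f) φ := by
    intro f _
    refine Sf_partition e he φ key (R.image key) _ fun r hr => ?_
    exact Finset.mem_image_of_mem key (Finset.mem_filter.1 hr).1
  refine le_trans ?_ (Finset.sum_le_sum h1)
  rw [Finset.sum_comm]
  refine Finset.sum_le_sum fun v hv => ?_
  obtain ⟨r₀, hr₀, hrv⟩ := Finset.mem_image.1 hv
  have h2 : u v ∈ Finset.range F := by
    rw [← hrv, ← hu]
    exact Finset.mem_range.2 (hw r₀ hr₀)
  have h3 := Finset.single_le_sum (f := fun f =>
    Sf e ((R.filter fun r => w r = f).filter fun r => key r = v) φ)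
    (fun f _ => Sf_nonneg e he _ _) h2
  refine le_trans (le_of_eq ?_) h3
  congr 1
  ext r
  simp only [Finset.mem_filter]
  constructor
  · rintro ⟨a, b⟩
    exact ⟨⟨a, by rw [hu, b]⟩, b⟩
  · rintro ⟨⟨a, -⟩, b⟩
    exact ⟨a, b⟩

theorem mainInd (e : ℝ) (he : 0 < e) (he1 : e ≤ 1) (k : ℕ) (hk : 1 ≤ k) (l : List ℕ) :
    (∀ q ∈ l, q.Prime) → ∀ (R : Finset (Fin k → ℤ)) (x : ℤ), (∀ r ∈ R, ∀ i, r i ≠ 0) →
      (∀ r ∈ R, ∏ i, r i = x) →
      (∀ r ∈ R, ∀ r' ∈ R, (∀ q ∈ l, ∀ i, va q (r i) = va q (r' i)) →
        ∀ i, (r i).natAbs = (r' i).natAbs) →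
      (R.card : ℝ) * log R.card ≤ 4 * log (2 * k) * (∑ i, Sf e R (fun r => r i)) +
        (4 * log (2 * k) * k * (l.map (bq e)).sum + k * log 2) * R.card := by
  have hk0 : (1 : ℝ) ≤ k := by exact_mod_cast hk
  have hL0 : 0 < log (2 * (k : ℝ)) := Real.log_pos (by linarith)
  induction l with
  | nil =>
    intro _ R x hR0 hx hdet
    rcases R.eq_empty_or_nonempty with rfl | hR
    · simp only [Finset.card_empty, Nat.cast_zero, zero_mul, mul_zero, add_zero]
      exact mul_nonneg (by positivity) (Finset.sum_nonneg fun i _ => Sf_nonneg e he _ _)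
    · obtain ⟨r₀, hr₀⟩ := hR
      have hRc : (0 : ℝ) < R.card := by exact_mod_cast Finset.card_pos.2 ⟨r₀, hr₀⟩
      have h1 : R ⊆ Fintype.piFinset fun i => ({r₀ i, -r₀ i} : Finset ℤ) := by
        intro r hr
        rw [Fintype.mem_piFinset]
        intro i
        have h2 := hdet r hr r₀ hr₀ (by simp) i
        rcases Int.natAbs_eq_natAbs_iff.1 h2 with h3 | h3
        · simp [h3]
        · simp [h3]
      have h2 : (R.card : ℝ) ≤ 2 ^ k := by
        have h3 := Finset.card_le_card h1
        rw [Fintype.card_piFinset] at h3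
        have h4 : ∏ i : Fin k, (({r₀ i, -r₀ i} : Finset ℤ)).card ≤ 2 ^ k := by
          calc ∏ i : Fin k, (({r₀ i, -r₀ i} : Finset ℤ)).card ≤ ∏ _i : Fin k, 2 :=
                Finset.prod_le_prod' fun i _ => Finset.card_le_two
            _ = 2 ^ k := by simp
        exact_mod_cast h3.trans h4
      have h3 : log R.card ≤ k * log 2 := by
        rw [← Real.log_pow]
        exact Real.log_le_log hRc h2
      have h4 : 0 ≤ 4 * log (2 * (k : ℝ)) * ∑ i, Sf e R (fun r => r i) :=
        mul_nonneg (by positivity) (Finset.sum_nonneg fun i _ => Sf_nonneg e he _ _)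
      simp only [List.map_nil, List.sum_nil, mul_zero, zero_add]
      nlinarith
  | cons q l ih =>
    intro hl R x hR0 hx hdet
    rcases R.eq_empty_or_nonempty with rfl | hR
    · simp only [Finset.card_empty, Nat.cast_zero, zero_mul, mul_zero, add_zero]
      exact mul_nonneg (by positivity) (Finset.sum_nonneg fun i _ => Sf_nonneg e he _ _)
    have hRc : (0 : ℝ) < R.card := by exact_mod_cast hR.card_pos
    have hq : q.Prime := hl q (List.mem_cons_self ..)
    obtain ⟨V, hV⟩ : ∃ V : (Fin k → ℤ) → Fin k → ℕ, ∀ r i, V r i = va q (r i) :=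
      ⟨fun r i => va q (r i), fun _ _ => rfl⟩
    obtain ⟨F, hVF⟩ : ∃ F : ℕ, ∀ r ∈ R, ∀ i, V r i < F := by
      refine ⟨(R.sup fun r => Finset.univ.sup fun i => V r i) + 1, ?_⟩
      intro r hr i
      have h1 : V r i ≤ Finset.univ.sup fun i => V r i :=
        Finset.le_sup (f := fun i => V r i) (Finset.mem_univ i)
      have h2 : (Finset.univ.sup fun i => V r i) ≤
          R.sup fun r => Finset.univ.sup fun i => V r i :=
        Finset.le_sup (f := fun r : Fin k → ℤ => Finset.univ.sup fun i => V r i) hr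
      omega
    have hVs : ∀ r ∈ R, ∑ i, V r i = va q x := by
      intro r hr
      rw [← hx r hr, ← va_prod k q r (hR0 r hr)]
      exact Finset.sum_congr rfl fun i _ => hV r i
    have hloss := loss k hk R V (va q x) F hVs hVF
    have hblock : ∀ i, _ := fun i => block e he he1 q hq (bq e q) (bq_spec e q) R
      (fun r : Fin k → ℤ => r i) (fun r hr => hR0 r hr i) F
    simp only [← hV] at hblock
    obtain ⟨T, hT⟩ : ∃ T, T = R.image V := ⟨_, rfl⟩
    -- the partition
    have hpart : ∀ i, ∑ v ∈ T, Sf e (R.filter fun r => V r = v) (fun r => r i) ≤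
        ∑ f ∈ Finset.range F, Sf e (R.filter fun r => V r i = f) (fun r => r i) := by
      intro i
      rw [hT]
      have h := part2 e he (fun r : Fin k → ℤ => r i) V (fun r => V r i) (fun v => v i) R F
        (fun r hr => hVF r hr i) (fun r => rfl)
      exact h
    have hcoord : ∀ i, ∑ f ∈ Finset.range F, ((R.filter fun r => f ≤ V r i).card : ℝ) *
          gf (((R.filter fun r => f + 1 ≤ V r i).card : ℝ) /
            (R.filter fun r => f ≤ V r i).card) +
        ∑ v ∈ T, Sf e (R.filter fun r => V r = v) (fun r => r i) ≤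
        Sf e R (fun r => r i) + bq e q * R.card := by
      intro i
      have h1 := hblock i
      have h2 := hpart i
      have h3 := Sf_nonneg e he (R.filter fun r => F ≤ V r i) (fun r : Fin k → ℤ => r i)
      have h4 : 0 ≤ bq e q * ((R.filter fun r => F ≤ V r i).card : ℝ) :=
        mul_nonneg (bq_nonneg e he he1 q) (Nat.cast_nonneg _)
      linarith
    -- the induction hypothesis
    have hih : ∀ v ∈ T, ((R.filter fun r => V r = v).card : ℝ) *
        log (R.filter fun r => V r = v).card ≤
        4 * log (2 * k) * (∑ i, Sf e (R.filter fun r => V r = v) (fun r => r i)) +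
        (4 * log (2 * k) * k * (l.map (bq e)).sum + k * log 2) *
          (R.filter fun r => V r = v).card := by
      intro v _
      refine ih (fun q' hq' => hl q' (List.mem_cons_of_mem _ hq')) _ x
        (fun r hr => hR0 r (Finset.mem_filter.1 hr).1)
        (fun r hr => hx r (Finset.mem_filter.1 hr).1) ?_
      intro r hr r' hr' hrr
      obtain ⟨h1, h2⟩ := Finset.mem_filter.1 hr
      obtain ⟨h3, h4⟩ := Finset.mem_filter.1 hr'
      refine hdet r h1 r' h3 ?_
      intro q' hq' i
      rcases List.mem_cons.1 hq' with h5 | h5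
      · rw [h5]
        have := congrFun (h2.trans h4.symm) i
        rwa [hV, hV] at this
      · exact hrr q' h5 i
    have hihs := Finset.sum_le_sum hih
    rw [Finset.sum_add_distrib, ← Finset.mul_sum, ← Finset.mul_sum] at hihs
    have hcardT : ∑ v ∈ T, ((R.filter fun r => V r = v).card : ℝ) = R.card := by
      rw [hT]
      exact_mod_cast (Finset.card_eq_sum_card_image V R).symm
    rw [hcardT, Finset.sum_comm] at hihs
    have hsplit : ∑ r ∈ R, log ((R.filter fun r' => V r' = V r).card : ℝ) =
        ∑ v ∈ T, ((R.filter fun r => V r = v).card : ℝ) *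
          log (R.filter fun r => V r = v).card := by
      have := Finset.sum_comp (s := R)
        (fun v => log ((R.filter fun r' => V r' = v).card : ℝ)) V
      rw [this, hT]
      exact Finset.sum_congr rfl fun v _ => by rw [nsmul_eq_mul]
    rw [Finset.sum_sub_distrib, Finset.sum_const, nsmul_eq_mul, hsplit] at hloss
    have hcs := Finset.sum_le_sum fun i (_ : i ∈ Finset.univ) => hcoord i
    rw [Finset.sum_add_distrib, Finset.sum_add_distrib, Finset.sum_const, Finset.card_univ,
      Fintype.card_fin, nsmul_eq_mul] at hcs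
    have hcs2 := mul_le_mul_of_nonneg_left hcs
      (show 0 ≤ 4 * log (2 * (k : ℝ)) by positivity)
    simp only [List.map_cons, List.sum_cons]
    nlinarith

end Pool.Agent.H87.LL
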