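import Mathlib
import Pool.Agent.H87.LL.Main

/-!
# The divisor bound
-/

set_option autoImplicit false
set_option linter.unusedSectionVars false

namespace Pool.Agent.H87.LL

open Finset Real
open Pool.Agent.H87.FS (cls va)
open scoped Pointwise BigOperators

/-- The factorisations of `x` with the factors in given sets. -/
def Fac {k : ℕ} (A : Fin k → Finset ℤ) (x : ℤ) : Finset (Fin k → ℤ) :=
  (Fintype.piFinset A).filter fun f => ∏ i, f i = x

theorem sum_bq (e : ℝ) (he : 0 < e) (he1 : e ≤ 1) (S : Finset ℕ) :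
    ∑ q ∈ S, bq e q ≤ (2 * Real.exp (10 ^ 8 * (2 / e + 1)) + 1) * log (200 / e) := by
  set X : ℝ := 2 * Real.exp (10 ^ 8 * (2 / e + 1)) with hX
  have hX0 : 0 ≤ X := by positivity
  have hlog : 0 ≤ log (200 / e) := by
    refine Real.log_nonneg ?_
    rw [le_div_iff₀ he]
    linarith
  have h1 : ∑ q ∈ S, bq e q ≤ ∑ q ∈ Finset.range (⌊X⌋₊ + 1), log (200 / e) := by
    calc ∑ q ∈ S, bq e q = ∑ q ∈ S.filter (fun q => q < ⌊X⌋₊ + 1), bq e q := by
          rw [Finset.sum_filter]
          refine Finset.sum_congr rfl fun q _ => ?_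
          split_ifs with h
          · rfl
          · unfold bq
            rw [if_pos]
            push Not at h
            have h2 : X < ⌊X⌋₊ + 1 := Nat.lt_floor_add_one X
            have h3 : ((⌊X⌋₊ + 1 : ℕ) : ℝ) ≤ q := by exact_mod_cast h
            push_cast at h3
            linarith
      _ ≤ ∑ q ∈ S.filter (fun q => q < ⌊X⌋₊ + 1), log (200 / e) := by
          refine Finset.sum_le_sum fun q _ => ?_
          unfold bq
          split_ifs
          · exact hlog
          · exact le_refl _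
      _ ≤ ∑ q ∈ Finset.range (⌊X⌋₊ + 1), log (200 / e) := by
          refine Finset.sum_le_sum_of_subset_of_nonneg ?_ fun _ _ _ => hlog
          intro q hq
          exact Finset.mem_range.2 (Finset.mem_filter.1 hq).2
  refine h1.trans ?_
  rw [Finset.sum_const, Finset.card_range, nsmul_eq_mul]
  push_cast
  refine mul_le_mul_of_nonneg_right ?_ hlog
  have := Nat.floor_le hX0
  linarith

theorem natAbs_eq_of_va (a b x : ℤ) (hx : x ≠ 0) (ha : a ∣ x) (hb : b ∣ x)
    (h : ∀ q ∈ x.natAbs.primeFactors, va q a = va q b) : a.natAbs = b.natAbs := by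
  have ha0 : a ≠ 0 := fun h0 => hx (by rw [h0, zero_dvd_iff] at ha; exact ha)
  have hb0 : b ≠ 0 := fun h0 => hx (by rw [h0, zero_dvd_iff] at hb; exact hb)
  refine Nat.eq_of_factorization_eq (Int.natAbs_ne_zero.2 ha0) (Int.natAbs_ne_zero.2 hb0) ?_
  intro q
  by_cases hq : q ∈ x.natAbs.primeFactors
  · exact h q hq
  · have key : ∀ c : ℤ, c ∣ x → c.natAbs.factorization q = 0 := by
      intro c hc
      by_contra hcon
      have h1 : q ∈ c.natAbs.primeFactors := by
        rw [← Nat.support_factorization]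
        exact Finsupp.mem_support_iff.2 hcon
      have h2 := Nat.primeFactors_mono (Int.natAbs_dvd_natAbs.2 hc) (Int.natAbs_ne_zero.2 hx)
      exact hq (h2 h1)
    rw [key a ha, key b hb]

theorem divisor_log (e : ℝ) (he : 0 < e) (he1 : e ≤ 1) (k : ℕ) (hk : 1 ≤ k)
    (A P Q : Fin k → Finset ℤ) (hP : ∀ i, (P i).Nonempty) (hQ : ∀ i, (Q i).Nonempty)
    (x : ℤ) (hx : x ≠ 0) (hne : (Fac A x).Nonempty) :
    log (Fac A x).card ≤ 4 * log (2 * k) * (∑ i, (16 * (log ((A i + P i).card : ℝ) -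
      log ((P i).card : ℝ)) + (2000 * D2 (P i) (Q i) + e * log ((P i).card : ℝ)))) +
      (4 * log (2 * k) * k * ((2 * Real.exp (10 ^ 8 * (2 / e + 1)) + 1) * log (200 / e)) +
        k * log 2) := by
  set R := Fac A x with hR
  have hRc : (0 : ℝ) < R.card := by exact_mod_cast hne.card_pos
  have hk0 : (1 : ℝ) ≤ k := by exact_mod_cast hk
  have hL0 : 0 < log (2 * (k : ℝ)) := Real.log_pos (by linarith)
  have hmem : ∀ r ∈ R, (∀ i, r i ∈ A i) ∧ ∏ i, r i = x := by
    intro r hr
    obtain ⟨h1, h2⟩ := Finset.mem_filter.1 hr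
    exact ⟨Fintype.mem_piFinset.1 h1, h2⟩
  have hdvd : ∀ r ∈ R, ∀ i, r i ∣ x := by
    intro r hr i
    rw [← (hmem r hr).2]
    exact Finset.dvd_prod_of_mem r (Finset.mem_univ i)
  have hmain := mainInd e he he1 k hk x.natAbs.primeFactors.toList
    (fun q hq => Nat.prime_of_mem_primeFactors (Finset.mem_toList.1 hq)) R x
    (fun r hr i h0 => hx (by
      have := hdvd r hr i
      rw [h0, zero_dvd_iff] at this
      exact this))
    (fun r hr => (hmem r hr).2)
    (fun r hr r' hr' h i => natAbs_eq_of_va (r i) (r' i) x hx (hdvd r hr i) (hdvd r' hr' i)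
      (fun q hq => h q (Finset.mem_toList.2 hq) i))
  rw [Finset.sum_map_toList] at hmain
  have hsum := sum_bq e he he1 x.natAbs.primeFactors
  have hS : ∀ i, Sf e R (fun r => r i) ≤ (R.card : ℝ) * (16 * (log ((A i + P i).card : ℝ) -
      log ((P i).card : ℝ)) + (2000 * D2 (P i) (Q i) + e * log ((P i).card : ℝ))) := by
    intro i
    have h1 := Sf_le e he R (fun r : Fin k → ℤ => r i) (P i) (Q i) (hP i) (hQ i)
    have h2 := E1_le R (fun r : Fin k → ℤ => r i) (P i) (A i + P i) (hP i)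
      (fun r hr p hp => Finset.add_mem_add ((hmem r hr).1 i) hp)
    unfold psi at h1
    linarith
  have hS2 := Finset.sum_le_sum fun i (_ : i ∈ Finset.univ) => hS i
  rw [← Finset.mul_sum] at hS2
  have hS3 := mul_le_mul_of_nonneg_left hS2 (show 0 ≤ 4 * log (2 * (k : ℝ)) by positivity)
  have hsum2 := mul_le_mul_of_nonneg_left hsum
    (show 0 ≤ 4 * log (2 * (k : ℝ)) * k by positivity)
  have hsum3 := mul_le_mul_of_nonneg_right hsum2 hRc.le
  have hfin : (R.card : ℝ) * log R.card ≤ R.card * (4 * log (2 * k) * (∑ i, (16 *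
      (log ((A i + P i).card : ℝ) - log ((P i).card : ℝ)) + (2000 * D2 (P i) (Q i) +
        e * log ((P i).card : ℝ)))) +
      (4 * log (2 * k) * k * ((2 * Real.exp (10 ^ 8 * (2 / e + 1)) + 1) * log (200 / e)) +
        k * log 2)) := by
    nlinarith
  exact le_of_mul_le_mul_left hfin hRc

/-- The constant. -/
theorem const_bound (k : ℕ) (hk : 1 ≤ k) (ε : ℝ) (hε : 0 < ε) (hε1 : ε ≤ 1) :
    4 * log (2 * k) * k * ((2 * Real.exp (10 ^ 8 * (2 / (ε / (4 * log (2 * k))) + 1)) + 1) *
      log (200 / (ε / (4 * log (2 * k))))) + k * log 2 ≤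
      Real.exp (10 ^ 9 * log (2 * k) / ε) := by
  have hk0 : (1 : ℝ) ≤ k := by exact_mod_cast hk
  set L : ℝ := log (2 * (k : ℝ)) with hL
  have hL2 : 0.69 ≤ L := by
    have h1 : log 2 ≤ L := Real.log_le_log (by norm_num) (by linarith)
    have := Real.log_two_gt_d9
    norm_num at this ⊢
    linarith
  have hL0 : 0 < L := by
    norm_num at hL2
    linarith
  obtain ⟨Y, hY⟩ : ∃ Y, Y = L / ε := ⟨_, rfl⟩
  have hLY : L ≤ Y := by
    rw [hY, le_div_iff₀ hε]
    nlinarith
  have hY0 : 0 < Y := by linarith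
  have hkY : (k : ℝ) ≤ Real.exp Y := by
    have h1 : (2 * k : ℝ) = Real.exp L := (Real.exp_log (by linarith)).symm
    have h2 : Real.exp L ≤ Real.exp Y := Real.exp_le_exp.2 hLY
    linarith
  have e1 : 2 / (ε / (4 * L)) = 8 * Y := by
    rw [hY]
    field_simp
    ring
  have e2 : 200 / (ε / (4 * L)) = 800 * Y := by
    rw [hY]
    field_simp
    ring
  have e3 : 10 ^ 9 * L / ε = 10 ^ 9 * Y := by
    rw [hY]
    ring
  rw [e1, e2, e3]
  have hYe : Y ≤ Real.exp Y := by
    have := Real.add_one_le_exp Y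
    linarith
  have h1e : 1 ≤ Real.exp Y := Real.one_le_exp hY0.le
  have hlog : log (800 * Y) ≤ 800 * Real.exp Y := by
    have := Real.log_le_sub_one_of_pos (show 0 < 800 * Y by positivity)
    linarith
  have hlog2 : log 2 ≤ 1 := by
    have := Real.log_two_lt_d9
    linarith
  set Z : ℝ := Real.exp (10 ^ 8 * (8 * Y + 1)) with hZ
  have hZ1 : 1 ≤ Z := Real.one_le_exp (by positivity)
  have hZ0 : 0 < Z := Real.exp_pos _
  set E := Real.exp Y with hE
  have hE0 : 0 < E := Real.exp_pos _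
  have b1 : 4 * L * k * ((2 * Z + 1) * log (800 * Y)) ≤
      4 * E * E * ((3 * Z) * (800 * E)) := by
    have h1 : 4 * L * k ≤ 4 * E * E := by
      have : L ≤ E := hLY.trans hYe
      have h2 : 4 * L ≤ 4 * E := by linarith
      exact mul_le_mul h2 hkY (by positivity) (by positivity)
    have h2 : (2 * Z + 1) * log (800 * Y) ≤ (3 * Z) * (800 * E) := by
      have h3 : (2 * Z + 1) * log (800 * Y) ≤ (2 * Z + 1) * (800 * E) :=
        mul_le_mul_of_nonneg_left hlog (by positivity)
      refine h3.trans (mul_le_mul_of_nonneg_right (by linarith) (by positivity))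
    have h3 : 4 * L * k * ((2 * Z + 1) * log (800 * Y)) ≤
        4 * L * k * ((3 * Z) * (800 * E)) :=
      mul_le_mul_of_nonneg_left h2 (by positivity)
    exact h3.trans (mul_le_mul_of_nonneg_right h1 (by positivity))
  have b2 : (k : ℝ) * log 2 ≤ E ^ 3 * Z := by
    have h2 : (k : ℝ) * log 2 ≤ E * 1 := by
      have h0 : 0 ≤ log 2 := Real.log_nonneg (by norm_num)
      exact mul_le_mul hkY hlog2 h0 hE0.le
    have h3 : E ≤ E ^ 3 := by
      calc E = E ^ 1 := (pow_one E).symm
        _ ≤ E ^ 3 := pow_le_pow_right₀ h1e (by norm_num)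
    have h4 : E ^ 3 ≤ E ^ 3 * Z := le_mul_of_one_le_right (by positivity) hZ1
    linarith
  have b3 : 4 * L * k * ((2 * Z + 1) * log (800 * Y)) + k * log 2 ≤ 9601 * (E ^ 3 * Z) := by
    have : 4 * E * E * ((3 * Z) * (800 * E)) = 9600 * (E ^ 3 * Z) := by ring
    linarith
  refine b3.trans ?_
  have b4 : (9601 : ℝ) ≤ Real.exp 10 := by
    have h4 : Real.exp 10 = Real.exp 1 ^ 10 := by
      rw [← Real.exp_nat_mul]; norm_num
    rw [h4]
    have := Real.exp_one_gt_d9
    have h5 : (2.7 : ℝ) ^ 10 ≤ Real.exp 1 ^ 10 := by gcongr; linarith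
    norm_num at h5 ⊢
    linarith
  have b5 : E ^ 3 * Z = Real.exp (3 * Y + 10 ^ 8 * (8 * Y + 1)) := by
    rw [hE, hZ, Real.exp_add, ← Real.exp_nat_mul]
    norm_num
  rw [b5]
  have b6 : 9601 * Real.exp (3 * Y + 10 ^ 8 * (8 * Y + 1)) ≤
      Real.exp 10 * Real.exp (3 * Y + 10 ^ 8 * (8 * Y + 1)) :=
    mul_le_mul_of_nonneg_right b4 (Real.exp_pos _).le
  refine b6.trans ?_
  rw [← Real.exp_add, Real.exp_le_exp]
  have hY69 : 0.69 ≤ Y := hL2.trans hLY
  norm_num at hY69 ⊢
  linarith

/-- **The divisor bound.** -/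
theorem divisor (k : ℕ) (hk : 1 ≤ k) (ε : ℝ) (hε : 0 < ε) (hε1 : ε ≤ 1)
    (A P Q : Fin k → Finset ℤ) (hP : ∀ i, (P i).Nonempty) (hQ : ∀ i, (Q i).Nonempty)
    (x : ℤ) (hx : x ≠ 0) :
    ((Fac A x).card : ℝ) ≤ Real.exp (Real.exp (10 ^ 9 * log (2 * k) / ε)) *
      ∏ i, (((P i).card : ℝ) ^ ε *
        (((A i + P i).card : ℝ) / (P i).card) ^ (64 * log (2 * k)) *
        (((P i + Q i).card : ℝ) / √(((P i).card : ℝ) * (Q i).card)) ^ (8000 * log (2 * k))) := by
  rcases (Fac A x).eq_empty_or_nonempty with h0 | hne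
  · rw [h0, Finset.card_empty, Nat.cast_zero]
    positivity
  have hk0 : (1 : ℝ) ≤ k := by exact_mod_cast hk
  set L : ℝ := log (2 * (k : ℝ)) with hL
  have hL2 : 0.69 ≤ L := by
    have h1 : log 2 ≤ L := Real.log_le_log (by norm_num) (by linarith)
    have := Real.log_two_gt_d9
    norm_num at this ⊢
    linarith
  have hL0 : 0 < L := by
    norm_num at hL2
    linarith
  have hRc : (0 : ℝ) < (Fac A x).card := by exact_mod_cast hne.card_pos
  have hdiv := divisor_log (ε / (4 * L)) (by positivity)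
    (by
      rw [div_le_one (by positivity)]
      norm_num at hL2
      linarith) k hk A P Q hP hQ x hx hne
  have hcon := const_bound k hk ε hε hε1
  rw [← hL] at hdiv hcon
  have h1 : log ((Fac A x).card : ℝ) ≤ Real.exp (10 ^ 9 * L / ε) + ∑ i, (ε * log (P i).card +
      64 * L * (log ((A i + P i).card : ℝ) - log ((P i).card : ℝ)) +
      8000 * L * D2 (P i) (Q i)) := by
    have h2 : 4 * L * (∑ i, (16 * (log ((A i + P i).card : ℝ) -
      log ((P i).card : ℝ)) + (2000 * D2 (P i) (Q i) + ε / (4 * L) * log ((P i).card : ℝ)))) =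
      ∑ i, (ε * log (P i).card +
      64 * L * (log ((A i + P i).card : ℝ) - log ((P i).card : ℝ)) +
      8000 * L * D2 (P i) (Q i)) := by
      rw [Finset.mul_sum]
      refine Finset.sum_congr rfl fun i _ => ?_
      field_simp
      ring
    rw [h2] at hdiv
    linarith
  obtain ⟨r, hr⟩ := hne
  have hAne : ∀ i, (A i).Nonempty := fun i =>
    ⟨r i, Fintype.mem_piFinset.1 (Finset.mem_filter.1 hr).1 i⟩
  have h2 : ∀ i, ((P i).card : ℝ) ^ ε *
        (((A i + P i).card : ℝ) / (P i).card) ^ (64 * L) *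
        (((P i + Q i).card : ℝ) / √(((P i).card : ℝ) * (Q i).card)) ^ (8000 * L) =
      Real.exp (ε * log (P i).card +
      64 * L * (log ((A i + P i).card : ℝ) - log ((P i).card : ℝ)) +
      8000 * L * D2 (P i) (Q i)) := by
    intro i
    have p1 : (0 : ℝ) < (P i).card := by exact_mod_cast (hP i).card_pos
    have p2 : (0 : ℝ) < (Q i).card := by exact_mod_cast (hQ i).card_pos
    have p3 : (0 : ℝ) < (A i + P i).card := by exact_mod_cast ((hAne i).add (hP i)).card_pos
    have p4 : (0 : ℝ) < (P i + Q i).card := by exact_mod_cast ((hP i).add (hQ i)).card_pos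
    rw [Real.exp_add, Real.exp_add, Real.rpow_def_of_pos p1,
      Real.rpow_def_of_pos (div_pos p3 p1), Real.rpow_def_of_pos (by positivity),
      Real.log_div p3.ne' p1.ne', Real.log_div p4.ne' (by positivity),
      Real.log_sqrt (by positivity), Real.log_mul p1.ne' p2.ne']
    unfold D2
    ring_nf
  rw [Finset.prod_congr rfl (fun i _ => h2 i), ← Real.exp_sum, ← Real.exp_add,
    ← Real.exp_log hRc, Real.exp_le_exp]
  exact h1

end Pool.Agent.H87.LL
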