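import Mathlib
import Pool.Agent.H87.LL.Divisor
import Pool.Agent.H87.FS.Cor

/-!
# Product sets of sets with large additive energy
-/

set_option autoImplicit false
set_option linter.unusedSectionVars false

namespace Pool.Agent.H87.LL

open Finset Real
open scoped Pointwise BigOperators

theorem mem_prod_iff (k : ℕ) (A : Fin k → Finset ℤ) (x : ℤ) :
    x ∈ ∏ i, A i ↔ ∃ g : Fin k → ℤ, (∀ i, g i ∈ A i) ∧ ∏ i, g i = x := by
  rw [← Finset.mem_coe, Finset.coe_prod, Set.mem_fintype_prod]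
  constructor
  · rintro ⟨g, hg, h⟩
    exact ⟨g, fun i => Finset.mem_coe.1 (hg i), h⟩
  · rintro ⟨g, hg, h⟩
    exact ⟨g, fun i => Finset.mem_coe.2 (hg i), h⟩

theorem prod_subset (k : ℕ) (A B : Fin k → Finset ℤ) (h : ∀ i, B i ⊆ A i) :
    ∏ i, B i ⊆ ∏ i, A i := by
  intro x hx
  rw [mem_prod_iff] at hx ⊢
  obtain ⟨g, hg, h2⟩ := hx
  exact ⟨g, fun i => h i (hg i), h2⟩

theorem fac_prod (k : ℕ) (A : Fin k → Finset ℤ) (h0 : ∀ i, (0 : ℤ) ∉ A i) (M : ℝ)
    (h : ∀ x : ℤ, x ≠ 0 → ((Fac A x).card : ℝ) ≤ M) :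
    ∏ i, ((A i).card : ℝ) ≤ ((∏ i, A i).card : ℝ) * M := by
  classical
  have h1 : (Fintype.piFinset A).card = ∑ x ∈ ∏ i, A i, (Fac A x).card := by
    unfold Fac
    apply Finset.card_eq_sum_card_fiberwise
    intro f hf
    exact (mem_prod_iff k A _).2 ⟨f, Fintype.mem_piFinset.1 hf, rfl⟩
  have h2 : ∏ i, ((A i).card : ℝ) = ∑ x ∈ ∏ i, A i, ((Fac A x).card : ℝ) := by
    rw [Fintype.card_piFinset] at h1
    exact_mod_cast h1
  rw [h2, ← nsmul_eq_mul, ← Finset.sum_const]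
  refine Finset.sum_le_sum fun x hx => h x ?_
  obtain ⟨g, hg, hgx⟩ := (mem_prod_iff k A x).1 hx
  rw [← hgx, Finset.prod_ne_zero_iff]
  intro i _ hi
  exact h0 i (hi ▸ hg i)

/-- **Many additive quadruples, many products, with linear loss.** -/
theorem energy_prod (k : ℕ) (hk : 1 ≤ k) (ε : ℝ) (hε : 0 < ε) (hε1 : ε ≤ 1) :
    ∃ c : ℝ, 0 < c ∧ ∀ A : Fin k → Finset ℤ, (∀ i, ∃ a ∈ A i, a ≠ 0) →
      c * ∏ i, (((A i).card : ℝ) ^ (1 - ε) *
        (((A i).addEnergy (A i) : ℝ) / ((A i).card : ℝ) ^ 3) ^ (10 ^ 5 * log (2 * k))) ≤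
      ((∏ i, A i).card : ℝ) := by
  classical
  have hk0 : (1 : ℝ) ≤ k := by exact_mod_cast hk
  obtain ⟨L, hL⟩ : ∃ L, L = log (2 * (k : ℝ)) := ⟨_, rfl⟩
  have hL2 : 0.69 ≤ L := by
    have h1 : log 2 ≤ L := by
      rw [hL]
      exact Real.log_le_log (by norm_num) (by linarith)
    have := Real.log_two_gt_d9
    norm_num at this ⊢
    linarith
  have hL0 : 0 < L := by
    norm_num at hL2
    linarith
  rw [← hL]
  set W : ℝ := Real.exp (Real.exp (10 ^ 9 * L / ε)) with hW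
  have hW0 : 0 < W := Real.exp_pos _
  set U : ℝ := 32 * ((2 : ℝ) ^ 23) ^ (8064 * L) with hU
  have hU0 : 0 < U := by positivity
  refine ⟨(W * U ^ k)⁻¹, by positivity, ?_⟩
  intro A hA
  have hAn : ∀ i, (A i).Nonempty := fun i => by
    obtain ⟨a, ha, _⟩ := hA i
    exact ⟨a, ha⟩
  have hAc : ∀ i, (0 : ℝ) < (A i).card := fun i => by exact_mod_cast (hAn i).card_pos
  have hEp : ∀ i, (0 : ℝ) < (A i).addEnergy (A i) := fun i => FS.energy_pos (A i) (hAn i)
  have hEle : ∀ i, ((A i).addEnergy (A i) : ℝ) ≤ ((A i).card : ℝ) ^ 3 :=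
    fun i => FS.energy_le (A i)
  obtain ⟨z, hz⟩ : ∃ z : Fin k → ℝ,
    z = fun i => ((A i).addEnergy (A i) : ℝ) / ((A i).card : ℝ) ^ 3 := ⟨_, rfl⟩
  have hz0 : ∀ i, 0 < z i := fun i => by
    rw [hz]
    exact div_pos (hEp i) (pow_pos (hAc i) 3)
  have hz1 : ∀ i, z i ≤ 1 := fun i => by
    rw [hz]
    exact (div_le_one (pow_pos (hAc i) 3)).2 (hEle i)
  have hb : ∀ i, ∃ B ⊆ A i, (∃ b ∈ B, b ≠ 0) ∧ ((A i).card : ℝ) ≤ 16 * (z i)⁻¹ * B.card ∧
      ((B - B).card : ℝ) ≤ 2 ^ 23 * ((z i)⁻¹) ^ 10 * B.card := by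
    intro i
    apply FS.bsg0 (A i) (hA i) (z i)⁻¹ (one_le_inv₀ (hz0 i) |>.2 (hz1 i))
    rw [hz]
    have h1 := hEp i
    have h2 := hAc i
    simp only [inv_div]
    rw [div_mul_cancel₀ _ h1.ne']
  choose B hBA hB0 hB1 hB2 using hb
  have hBn : ∀ i, (B i).Nonempty := fun i => by
    obtain ⟨b, hb, _⟩ := hB0 i
    exact ⟨b, hb⟩
  have hBc : ∀ i, (0 : ℝ) < (B i).card := fun i => by exact_mod_cast (hBn i).card_pos
  obtain ⟨B', hB'⟩ : ∃ B' : Fin k → Finset ℤ, B' = fun i => (B i).erase 0 := ⟨_, rfl⟩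
  have hB'n : ∀ i, (B' i).Nonempty ∧ ((B i).card : ℝ) / 2 ≤ (B' i).card := fun i => by
    rw [hB']
    exact FS.erase_card (B i) (hB0 i)
  have hB'B : ∀ i, B' i ⊆ B i := fun i => by
    rw [hB']
    exact Finset.erase_subset _ _
  have hB'0 : ∀ i, (0 : ℤ) ∉ B' i := fun i => by
    rw [hB']
    exact Finset.notMem_erase _ _
  -- the bound for the number of factorisations
  obtain ⟨X, hX⟩ : ∃ X : Fin k → ℝ, X = fun i => 2 ^ 23 * ((z i)⁻¹) ^ 10 := ⟨_, rfl⟩
  have hX0 : ∀ i, 0 < X i := fun i => by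
    rw [hX]
    have := hz0 i
    positivity
  have hfac : ∀ x : ℤ, x ≠ 0 → ((Fac B' x).card : ℝ) ≤
      W * ∏ i, (((A i).card : ℝ) ^ ε * X i ^ (8064 * L)) := by
    intro x hx
    have h1 := divisor k hk ε hε hε1 B' (fun i => -(B i)) B (fun i => (hBn i).neg) hBn x hx
    rw [← hL] at h1
    refine h1.trans (mul_le_mul_of_nonneg_left ?_ hW0.le)
    refine Finset.prod_le_prod (fun i _ => by positivity) fun i _ => ?_
    rw [Finset.card_neg]
    have e1 : ((B' i + -B i).card : ℝ) / (B i).card ≤ X i := by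
      rw [div_le_iff₀ (hBc i), hX]
      refine le_trans ?_ (hB2 i)
      have : B' i + -B i ⊆ B i - B i := by
        rw [sub_eq_add_neg]
        exact Finset.add_subset_add_right (hB'B i)
      exact_mod_cast Finset.card_le_card this
    have e2 : ((-B i + B i).card : ℝ) / √(((B i).card : ℝ) * (B i).card) ≤ X i := by
      rw [Real.sqrt_mul_self (hBc i).le, div_le_iff₀ (hBc i), hX, add_comm, ← sub_eq_add_neg]
      exact hB2 i
    have e3 : ((B i).card : ℝ) ^ ε ≤ ((A i).card : ℝ) ^ ε := by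
      refine Real.rpow_le_rpow (hBc i).le ?_ hε.le
      exact_mod_cast Finset.card_le_card (hBA i)
    have e4 : (((B' i + -B i).card : ℝ) / (B i).card) ^ (64 * L) ≤ X i ^ (64 * L) :=
      Real.rpow_le_rpow (by positivity) e1 (by positivity)
    have e5 : (((-B i + B i).card : ℝ) / √(((B i).card : ℝ) * (B i).card)) ^ (8000 * L) ≤
        X i ^ (8000 * L) := Real.rpow_le_rpow (by positivity) e2 (by positivity)
    have e6 : X i ^ (8064 * L) = X i ^ (64 * L) * X i ^ (8000 * L) := by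
      rw [← Real.rpow_add (hX0 i)]
      congr 1
      ring
    have hX0i := hX0 i
    rw [e6, ← mul_assoc]
    exact mul_le_mul (mul_le_mul e3 e4 (by positivity) (by positivity)) e5 (by positivity)
      (by positivity)
  have hmain := fac_prod k B' hB'0 _ hfac
  -- comparison of one factor
  have hone : ∀ i, ((A i).card : ℝ) ^ (1 - ε) * z i ^ (10 ^ 5 * L) *
      (((A i).card : ℝ) ^ ε * X i ^ (8064 * L)) ≤ U * (B' i).card := by
    intro i
    have hzi := hz0 i
    have hAi := hAc i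
    have e1 : X i ^ (8064 * L) = ((2 : ℝ) ^ 23) ^ (8064 * L) * z i ^ (-(80640 * L)) := by
      rw [hX]
      simp only
      rw [Real.mul_rpow (by positivity) (by positivity)]
      congr 1
      rw [← Real.rpow_natCast, ← Real.rpow_mul (by positivity), Real.inv_rpow hzi.le,
        ← Real.rpow_neg hzi.le]
      congr 1
      push_cast
      ring
    have e2 : ((A i).card : ℝ) ^ (1 - ε) * ((A i).card : ℝ) ^ ε = (A i).card := by
      rw [← Real.rpow_add hAi, sub_add_cancel, Real.rpow_one]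
    have e3 : z i ^ (10 ^ 5 * L) * z i ^ (-(80640 * L)) ≤ z i := by
      rw [← Real.rpow_add hzi]
      have h1 : z i ^ (10 ^ 5 * L + -(80640 * L)) ≤ z i ^ (1 : ℝ) := by
        apply Real.rpow_le_rpow_of_exponent_ge hzi (hz1 i)
        norm_num at hL2 ⊢
        linarith
      rwa [Real.rpow_one] at h1
    have e4 : (A i).card * z i ≤ 32 * (B' i).card := by
      have h1 := hB1 i
      have h2 := (hB'n i).2
      have h3 : (A i).card * z i ≤ 16 * (B i).card := by
        have h4 := mul_le_mul_of_nonneg_right h1 hzi.le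
        have h5 : 16 * (z i)⁻¹ * ((B i).card : ℝ) * z i = 16 * (B i).card := by
          field_simp
        linarith
      linarith
    calc ((A i).card : ℝ) ^ (1 - ε) * z i ^ (10 ^ 5 * L) *
        (((A i).card : ℝ) ^ ε * X i ^ (8064 * L)) =
        (((A i).card : ℝ) ^ (1 - ε) * ((A i).card : ℝ) ^ ε) *
          (z i ^ (10 ^ 5 * L) * z i ^ (-(80640 * L))) * ((2 : ℝ) ^ 23) ^ (8064 * L) := by
          rw [e1]; ring
      _ ≤ (A i).card * z i * ((2 : ℝ) ^ 23) ^ (8064 * L) := by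
          rw [e2]
          refine mul_le_mul_of_nonneg_right ?_ (by positivity)
          exact mul_le_mul_of_nonneg_left e3 hAi.le
      _ ≤ 32 * (B' i).card * ((2 : ℝ) ^ 23) ^ (8064 * L) :=
          mul_le_mul_of_nonneg_right e4 (by positivity)
      _ = U * (B' i).card := by rw [hU]; ring
  have hprod := Finset.prod_le_prod (s := Finset.univ) (fun i _ => by
    have := hz0 i
    have := hX0 i
    positivity) (fun i _ => hone i)
  rw [Finset.prod_mul_distrib, Finset.prod_mul_distrib (f := fun _ => U), Finset.prod_const,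
    Finset.card_univ, Fintype.card_fin] at hprod
  have hsub : ((∏ i, B' i).card : ℝ) ≤ ((∏ i, A i).card : ℝ) := by
    exact_mod_cast Finset.card_le_card (prod_subset k A B' fun i => (hB'B i).trans (hBA i))
  obtain ⟨Z, hZ⟩ : ∃ Z, Z = ∏ i, (((A i).card : ℝ) ^ ε * X i ^ (8064 * L)) := ⟨_, rfl⟩
  have hZ0 : 0 < Z := by
    rw [hZ]
    exact Finset.prod_pos fun i _ => mul_pos (Real.rpow_pos_of_pos (hAc i) _)
      (Real.rpow_pos_of_pos (hX0 i) _)
  rw [← hZ] at hprod hmain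
  have hzeq : ∏ i, (((A i).card : ℝ) ^ (1 - ε) *
        (((A i).addEnergy (A i) : ℝ) / ((A i).card : ℝ) ^ 3) ^ (10 ^ 5 * L)) =
      ∏ i, (((A i).card : ℝ) ^ (1 - ε) * z i ^ (10 ^ 5 * L)) := by
    rw [hz]
  rw [hzeq]
  have hfin : (∏ i, (((A i).card : ℝ) ^ (1 - ε) * z i ^ (10 ^ 5 * L))) * Z ≤
      (W * U ^ k) * ((∏ i, A i).card : ℝ) * Z := by
    calc (∏ i, (((A i).card : ℝ) ^ (1 - ε) * z i ^ (10 ^ 5 * L))) * Z ≤
          U ^ k * ∏ i, ((B' i).card : ℝ) := hprod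
      _ ≤ U ^ k * (((∏ i, B' i).card : ℝ) * (W * Z)) :=
          mul_le_mul_of_nonneg_left hmain (by positivity)
      _ ≤ U ^ k * (((∏ i, A i).card : ℝ) * (W * Z)) :=
          mul_le_mul_of_nonneg_left (mul_le_mul_of_nonneg_right hsub (by positivity))
            (by positivity)
      _ = (W * U ^ k) * ((∏ i, A i).card : ℝ) * Z := by ring
  rw [inv_mul_le_iff₀ (by positivity)]
  exact le_of_mul_le_mul_right hfin hZ0

end Pool.Agent.H87.LL
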