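import Mathlib
import Pool.Graph.R_seed8.Y359.LE.Main
import Pool.Agent.H87.LL.Energy

/-!
# A decomposition: few additive coincidences on all scales, or few factorisations
-/

set_option autoImplicit false
set_option linter.unusedSectionVars false

namespace Pool.Agent.H87.LL

open Finset Real
open scoped Pointwise BigOperators
open Pool.Agent.Y359.LE (En sm rep_ne rep_total En_eq En_double exists_level
  energy_le_cube popular En_young' En_le En_pos En_one absorb natlog_le iterate lev)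

/-- one step: the energy grows almost as fast as possible from `m` to `2 m` -/
theorem extract_step (A : Finset ℤ) (hA : A.Nonempty) (n I : ℕ) (hI : A.card ^ (n + 1) < 2 ^ I)
    (κ K : ℝ) (hκ : 1 ≤ κ) (hK : K = κ * (2 * I) ^ 4)
    (hE : (A.card : ℝ) ^ (2 * (n + 1)) * En A (n + 1) ≤ κ * En A ((n + 1) + (n + 1))) :
    ∃ D ⊆ A, ∃ P : Finset ℤ, P.Nonempty ∧ (A.card : ℝ) ≤ 8 * K ^ 2 * D.card ∧
      ((D + -P).card : ℝ) ≤ 2 ^ 22 * K ^ 10 * P.card ∧
      ((-P + P).card : ℝ) ≤ 2 ^ 22 * K ^ 10 * P.card ∧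
      (P.card : ℝ) ≤ (A.card : ℝ) ^ (n + 1) := by
  set m := n + 1 with hm
  have hAc : 1 ≤ A.card := hA.card_pos
  have hI0 : 0 < I := by
    rcases Nat.eq_zero_or_pos I with h | h
    · rw [h, pow_zero] at hI
      have : 1 ≤ A.card ^ m := Nat.one_le_pow _ _ hAc
      omega
    · exact h
  have hI1 : (1 : ℝ) ≤ I := by exact_mod_cast hI0
  have hK1 : 1 ≤ K := by
    rw [hK]
    have h1 : (1 : ℝ) ≤ (2 * I) ^ 4 := one_le_pow₀ (by linarith)
    nlinarith
  set X := sm A m with hX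
  have hXne : X.Nonempty := by
    obtain ⟨a, ha⟩ := hA
    exact ⟨_, mem_image.2 ⟨fun _ => a, Fintype.mem_piFinset.2 fun _ => ha, rfl⟩⟩
  obtain ⟨i, hi, hlev⟩ := exists_level (Pool.Agent.Y359.LE.rep A m) X I hI0 (fun z hz => rep_ne hz)
    (fun z => lt_of_le_of_lt (Pool.Agent.Y359.LE.rep_le A m z) hI)
  rw [← En_double A m] at hlev
  set P := lev (Pool.Agent.Y359.LE.rep A m) X i with hP
  have hPX : P ⊆ X := Finset.filter_subset _ _
  -- real quantities
  set a : ℝ := (A.card : ℝ) ^ m with ha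
  set E : ℝ := (En A m : ℝ) with hEdef
  set q : ℝ := (2 : ℝ) ^ i with hq
  set p : ℝ := (P.card : ℝ) with hp
  set eP : ℝ := (P.addEnergy P : ℝ) with heP
  have ha0 : 0 < a := by positivity
  have hq0 : 0 < q := by positivity
  have hp0 : 0 ≤ p := by positivity
  have hEn_pos : 0 < E := by
    have h1 : 0 < En A m := by
      rw [En_eq A m X (Finset.Subset.refl _)]
      obtain ⟨z, hz⟩ := hXne
      refine Finset.sum_pos' (fun _ _ => Nat.zero_le _) ⟨z, hz, ?_⟩
      obtain ⟨f, hf, hfz⟩ := mem_image.1 hz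
      have : 0 < Pool.Agent.Y359.LE.rep A m z := Finset.card_pos.2 ⟨f, mem_filter.2 ⟨hf, hfz⟩⟩
      positivity
    rw [hEdef]
    exact_mod_cast h1
  have h_a : q * p ≤ a := by
    have h1 : 2 ^ i * P.card ≤ ∑ z ∈ P, Pool.Agent.Y359.LE.rep A m z := by
      rw [mul_comm, ← smul_eq_mul, ← Finset.sum_const]
      exact Finset.sum_le_sum fun z hz => (mem_filter.1 hz).2.1
    have h2 : ∑ z ∈ P, Pool.Agent.Y359.LE.rep A m z ≤ A.card ^ m := by
      rw [← rep_total A m X (Finset.Subset.refl _)]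
      exact Finset.sum_le_sum_of_subset hPX
    have h3 : 2 ^ i * P.card ≤ A.card ^ m := h1.trans h2
    rw [hq, hp, ha]
    exact_mod_cast h3
  have h_b : q ^ 2 * p ≤ E := by
    have h1 : (2 ^ i) ^ 2 * P.card ≤ ∑ z ∈ P, Pool.Agent.Y359.LE.rep A m z ^ 2 := by
      rw [mul_comm, ← smul_eq_mul, ← Finset.sum_const]
      exact Finset.sum_le_sum fun z hz => Nat.pow_le_pow_left (mem_filter.1 hz).2.1 2
    have h2 : ∑ z ∈ P, Pool.Agent.Y359.LE.rep A m z ^ 2 ≤ En A m := by
      rw [En_eq A m X (Finset.Subset.refl _)]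
      exact Finset.sum_le_sum_of_subset hPX
    have h3 : (2 ^ i) ^ 2 * P.card ≤ En A m := h1.trans h2
    rw [hq, hp, hEdef]
    exact_mod_cast h3
  have h_c : a ^ 2 * E ≤ K * (q ^ 4 * eP) := by
    have h1 : (En A (m + m) : ℝ) ≤ (I : ℝ) ^ 4 * (2 ^ (4 * (i + 1)) * eP) := by
      rw [heP]
      exact_mod_cast hlev
    have h2 : a ^ 2 * E = (A.card : ℝ) ^ (2 * m) * En A m := by rw [ha, hEdef]; ring
    rw [h2]
    refine hE.trans ?_
    have h3 := mul_le_mul_of_nonneg_left h1 (by linarith : (0 : ℝ) ≤ κ)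
    refine h3.trans (le_of_eq ?_)
    rw [hK, hq]
    ring
  have heP0 : 0 < eP := by
    by_contra hcon
    have h1 : eP = 0 := le_antisymm (not_lt.1 hcon) (by positivity)
    rw [h1, mul_zero, mul_zero] at h_c
    have : 0 < a ^ 2 * E := by positivity
    linarith
  have hPne : P.Nonempty := by
    have h1 : 0 < P.addEnergy P := by
      rw [heP] at heP0
      exact_mod_cast heP0
    exact Finset.addEnergy_self_pos_iff.1 h1
  have hp1 : 0 < p := by
    rw [hp]
    exact_mod_cast hPne.card_pos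
  have hK0 : 0 < K := by linarith
  have hbsg : p ^ 3 ≤ K * eP := by
    have h1 : (q * p) ^ 2 * (q ^ 2 * p) ≤ a ^ 2 * E :=
      mul_le_mul (pow_le_pow_left₀ (by positivity) h_a 2) h_b (by positivity) (by positivity)
    have h2 : q ^ 4 * p ^ 3 ≤ q ^ 4 * (K * eP) := by
      calc q ^ 4 * p ^ 3 = (q * p) ^ 2 * (q ^ 2 * p) := by ring
        _ ≤ K * (q ^ 4 * eP) := h1.trans h_c
        _ = q ^ 4 * (K * eP) := by ring
    exact le_of_mul_le_mul_left h2 (by positivity)
  have hcube : eP ≤ p ^ 3 := by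
    rw [heP, hp]
    exact_mod_cast energy_le_cube P
  have h_c' : a ^ 2 * E ≤ K * (q ^ 4 * p ^ 3) :=
    h_c.trans (mul_le_mul_of_nonneg_left (mul_le_mul_of_nonneg_left hcube (by positivity)) hK0.le)
  have h_d : a ^ 2 ≤ K * (q * p) ^ 2 := by
    have h1 : a ^ 2 * E ≤ K * (q * p) ^ 2 * E := by
      calc a ^ 2 * E ≤ K * (q ^ 4 * p ^ 3) := h_c'
        _ = K * (q * p) ^ 2 * (q ^ 2 * p) := by ring
        _ ≤ K * (q * p) ^ 2 * E := mul_le_mul_of_nonneg_left h_b (by positivity)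
    exact le_of_mul_le_mul_right h1 hEn_pos
  have h_e : p * E ≤ K * a ^ 2 := by
    have h1 : a ^ 2 * (p * E) ≤ a ^ 2 * (K * a ^ 2) := by
      calc a ^ 2 * (p * E) = p * (a ^ 2 * E) := by ring
        _ ≤ p * (K * (q ^ 4 * p ^ 3)) := mul_le_mul_of_nonneg_left h_c' hp0
        _ = K * (q * p) ^ 4 := by ring
        _ ≤ K * a ^ 4 := mul_le_mul_of_nonneg_left (pow_le_pow_left₀ (by positivity) h_a 4) hK0.le
        _ = a ^ 2 * (K * a ^ 2) := by ring
    exact le_of_mul_le_mul_left h1 (by positivity)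
  obtain ⟨P', hP'P, hP'ne, hcard, hdiff⟩ :=
    Pool.Agent.H217R3.AK.bsg P hPne K hK0 hbsg
  obtain ⟨w, hw⟩ := popular A n P' hA
  set D := A.filter (fun a => a + w ∈ P') with hD
  refine ⟨D, Finset.filter_subset _ _, P', hP'ne, ?_, ?_, ?_, ?_⟩
  · -- the size of `D`
    have h1 : q * (P'.card : ℝ) ≤ (A.card : ℝ) ^ n * D.card := by
      have h2 : 2 ^ i * P'.card ≤ ∑ z ∈ P', Pool.Agent.Y359.LE.rep A (n + 1) z := by
        rw [mul_comm, ← smul_eq_mul, ← Finset.sum_const]
        exact Finset.sum_le_sum fun z hz => (mem_filter.1 (hP'P hz)).2.1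
      rw [hq]
      exact_mod_cast h2.trans hw
    set p' : ℝ := (P'.card : ℝ) with hp'
    have hp'0 : 0 < p' := by
      rw [hp']
      exact_mod_cast hP'ne.card_pos
    have h2 : a ^ 2 ≤ (8 * K ^ 2 * (q * p')) ^ 2 := by
      calc a ^ 2 ≤ K * (q * p) ^ 2 := h_d
        _ ≤ K * (q * (8 * K * p')) ^ 2 :=
            mul_le_mul_of_nonneg_left (pow_le_pow_left₀ (by positivity)
              (mul_le_mul_of_nonneg_left hcard hq0.le) 2) hK0.le
        _ = (8 * (q * p')) ^ 2 * K ^ 3 := by ring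
        _ ≤ (8 * (q * p')) ^ 2 * K ^ 4 :=
            mul_le_mul_of_nonneg_left (pow_le_pow_right₀ hK1 (by norm_num)) (by positivity)
        _ = (8 * K ^ 2 * (q * p')) ^ 2 := by ring
    have h3 : a ≤ 8 * K ^ 2 * (q * p') := by
      have := abs_le_of_sq_le_sq' h2 (by positivity)
      exact this.2
    have h4 : a ≤ 8 * K ^ 2 * ((A.card : ℝ) ^ n * D.card) :=
      h3.trans (mul_le_mul_of_nonneg_left h1 (by positivity))
    have h5 : (A.card : ℝ) ^ n * A.card ≤ (A.card : ℝ) ^ n * (8 * K ^ 2 * D.card) := by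
      have h6 : a = (A.card : ℝ) ^ n * A.card := by rw [ha, hm, pow_succ]
      rw [← h6]
      refine h4.trans (le_of_eq ?_)
      ring
    exact le_of_mul_le_mul_left h5 (by positivity)
  · -- few sums
    have h1 : D + -P' ⊆ (P' - P').image fun z => z - w := by
      intro z hz
      obtain ⟨d, hd, r, hr, rfl⟩ := Finset.mem_add.1 hz
      rw [Finset.mem_neg] at hr
      obtain ⟨r', hr', rfl⟩ := hr
      refine mem_image.2 ⟨(d + w) - r', Finset.sub_mem_sub (mem_filter.1 hd).2 hr', by ring⟩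
    have h2 : ((D + -P').card : ℝ) ≤ (P' - P').card := by
      exact_mod_cast (Finset.card_le_card h1).trans Finset.card_image_le
    exact h2.trans hdiff
  · rw [add_comm, ← sub_eq_add_neg]
    exact hdiff
  · have h1 : P'.card ≤ X.card := (Finset.card_le_card hP'P).trans (Finset.card_le_card hPX)
    have h2 : X.card ≤ A.card ^ m := by
      rw [hX]
      refine Finset.card_image_le.trans ?_
      rw [Fintype.card_piFinset]
      simp
    have h3 : (P'.card : ℝ) ≤ ((A.card ^ m : ℕ) : ℝ) := by exact_mod_cast h1.trans h2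
    rw [Nat.cast_pow] at h3
    exact h3

/-- a slowly growing step -/
theorem exists_slow (B : Finset ℤ) (J : ℕ) (hJ : 1 ≤ J) (κ : ℝ) (hκ : 0 < κ)
    (h : (B.card : ℝ) ^ (2 * 2 ^ J) ≤ κ ^ J * En B (2 ^ J) * B.card) (hB : B.Nonempty) :
    ∃ j < J, (B.card : ℝ) ^ (2 * 2 ^ j) * En B (2 ^ j) ≤ κ * En B (2 ^ j + 2 ^ j) := by
  by_contra hcon
  push Not at hcon
  have hB1 : (0 : ℝ) < B.card := by exact_mod_cast hB.card_pos
  have hind : ∀ j ≤ J, κ ^ j * En B (2 ^ j) * B.card ≤ (B.card : ℝ) ^ (2 * 2 ^ j) ∧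
      (1 ≤ j → κ ^ j * En B (2 ^ j) * B.card < (B.card : ℝ) ^ (2 * 2 ^ j)) := by
    intro j
    induction j with
    | zero =>
      intro _
      refine ⟨?_, fun h => absurd h (by norm_num)⟩
      rw [show (2 : ℕ) ^ 0 = 1 from rfl, En_one, pow_zero]
      simp only [one_mul, mul_one]
      rw [pow_two]
    | succ j ih =>
      intro hj
      have h1 := hcon j (by omega)
      have h2 := (ih (by omega)).1
      have h3 : κ ^ (j + 1) * En B (2 ^ (j + 1)) * B.card < (B.card : ℝ) ^ (2 * 2 ^ (j + 1)) := by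
        have e1 : 2 ^ (j + 1) = 2 ^ j + 2 ^ j := by rw [pow_succ]; ring
        have hκj : 0 < κ ^ j * (B.card : ℝ) := by positivity
        calc κ ^ (j + 1) * En B (2 ^ (j + 1)) * B.card
            = (κ ^ j * B.card) * (κ * En B (2 ^ j + 2 ^ j)) := by rw [e1]; ring
          _ < (κ ^ j * B.card) * ((B.card : ℝ) ^ (2 * 2 ^ j) * En B (2 ^ j)) :=
              mul_lt_mul_of_pos_left h1 hκj
          _ = (κ ^ j * En B (2 ^ j) * B.card) * (B.card : ℝ) ^ (2 * 2 ^ j) := by ring
          _ ≤ (B.card : ℝ) ^ (2 * 2 ^ j) * (B.card : ℝ) ^ (2 * 2 ^ j) :=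
              mul_le_mul_of_nonneg_right h2 (by positivity)
          _ = (B.card : ℝ) ^ (2 * 2 ^ (j + 1)) := by rw [← pow_add, e1]; ring
      exact ⟨h3.le, fun _ => h3⟩
  have h1 := (hind J le_rfl).2 hJ
  linarith

/-- factorisations in a union of pieces -/
theorem fac_union (k : ℕ) (C : Finset ℤ) (𝒟 : Finset (Finset ℤ)) (hC : C ⊆ 𝒟.biUnion id) (u : ℤ)
    (Y : ℝ) (hY : ∀ δ : Fin k → Finset ℤ, (∀ i, δ i ∈ 𝒟) → ((Fac δ u).card : ℝ) ≤ Y) :
    ((Fac (fun _ : Fin k => C) u).card : ℝ) ≤ (𝒟.card : ℝ) ^ k * Y := by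
  classical
  have h1 : Fac (fun _ : Fin k => C) u ⊆
      (Fintype.piFinset fun _ : Fin k => 𝒟).biUnion fun δ => Fac δ u := by
    intro f hf
    obtain ⟨h2, h3⟩ := Finset.mem_filter.1 hf
    rw [Fintype.mem_piFinset] at h2
    have h4 : ∀ i, ∃ D ∈ 𝒟, f i ∈ D := fun i => by
      obtain ⟨D, hD, hfD⟩ := Finset.mem_biUnion.1 (hC (h2 i))
      exact ⟨D, hD, hfD⟩
    choose δ hδ hfδ using h4
    exact Finset.mem_biUnion.2 ⟨δ, Fintype.mem_piFinset.2 hδ,
      Finset.mem_filter.2 ⟨Fintype.mem_piFinset.2 hfδ, h3⟩⟩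
  have h2 : ((Fac (fun _ : Fin k => C) u).card : ℝ) ≤
      ∑ δ ∈ Fintype.piFinset fun _ : Fin k => 𝒟, ((Fac δ u).card : ℝ) := by
    exact_mod_cast (Finset.card_le_card h1).trans Finset.card_biUnion_le
  refine h2.trans ?_
  calc ∑ δ ∈ Fintype.piFinset fun _ : Fin k => 𝒟, ((Fac δ u).card : ℝ)
      ≤ ∑ _δ ∈ Fintype.piFinset fun _ : Fin k => 𝒟, Y :=
        Finset.sum_le_sum fun δ hδ => hY δ (Fintype.mem_piFinset.1 hδ)
    _ = (𝒟.card : ℝ) ^ k * Y := by
        rw [Finset.sum_const, nsmul_eq_mul, Fintype.card_piFinset]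
        simp

/-- the trivial bound for the energy -/
theorem En_le' (B : Finset ℤ) (n : ℕ) : (En B (n + 1) : ℝ) ≤ (B.card : ℝ) ^ (2 * n + 1) := by
  have h := En_young' B n 1
  rw [En_one] at h
  have h2 : En B (n + 1) ≤ B.card ^ (2 * n + 1) := by rwa [pow_succ]
  exact_mod_cast h2

/-- the properties of the pieces -/
def Piece (X p : ℝ) (D : Finset ℤ) : Prop :=
  ∃ P : Finset ℤ, P.Nonempty ∧ ((D + -P).card : ℝ) ≤ X * P.card ∧
    ((-P + P).card : ℝ) ≤ X * P.card ∧ (P.card : ℝ) ≤ p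

/-- **The decomposition.** -/
theorem decomposition (J : ℕ) (δ : ℝ) (hδ : 0 < δ) :
    ∃ C : ℕ → ℝ → ℝ, (∀ k ε, 0 < C k ε) ∧ ∀ A : Finset ℤ, ∃ B ⊆ A,
      (∀ j ≤ J, ∀ m : ℕ, 2 ^ j ≤ m →
        (En B m : ℝ) ≤ (A.card : ℝ) ^ (2 * (m : ℝ) - 1 - j * δ)) ∧
      ∀ k : ℕ, 1 ≤ k → ∀ ε : ℝ, 0 < ε → ε ≤ 1 → ∀ u : ℤ, u ≠ 0 →
        ((Fac (fun _ : Fin k => A \ B) u).card : ℝ) ≤
          C k ε * (A.card : ℝ) ^ (ε + 2 * 10 ^ 5 * k * log (2 * k) * δ) := by
  classical
  set M : ℕ := 2 ^ J with hM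
  have hM1 : 1 ≤ M := Nat.one_le_two_pow
  have hMr : (1 : ℝ) ≤ M := by exact_mod_cast hM1
  obtain ⟨t₀, ht₀, habs⟩ := absorb M δ 1 hMr hδ one_pos
  refine ⟨fun k ε => Real.exp (k * t₀ +
    Real.exp (10 ^ 9 * log (2 * k) / (ε / (k * M)))), fun k ε => Real.exp_pos _, ?_⟩
  intro A
  by_cases hsmall : Real.log A.card < t₀
  · -- small sets
    refine ⟨∅, Finset.empty_subset _, ?_, ?_⟩
    · intro j _ m hm
      have hm1 : 1 ≤ m := Nat.one_le_two_pow.trans hm
      have h1 : En ∅ m ≤ 0 := by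
        refine (En_le ∅ m).trans ?_
        have : 2 * m ≠ 0 := by omega
        simp [this]
      have h2 : (En ∅ m : ℝ) ≤ 0 := by exact_mod_cast h1
      exact h2.trans (Real.rpow_nonneg (Nat.cast_nonneg _) _)
    · intro k hk ε hε _ u _
      rw [Finset.sdiff_empty]
      have hk0 : (1 : ℝ) ≤ k := by exact_mod_cast hk
      have hL0 : 0 < log (2 * (k : ℝ)) := Real.log_pos (by linarith)
      rcases A.eq_empty_or_nonempty with h0 | hA
      · have h1 : Fac (fun _ : Fin k => A) u = ∅ := by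
          rw [Finset.eq_empty_iff_forall_notMem]
          intro f hf
          have := Fintype.mem_piFinset.1 (Finset.mem_filter.1 hf).1 ⟨0, hk⟩
          rw [h0] at this
          exact absurd this (Finset.notMem_empty _)
        rw [h1]
        simp only [Finset.card_empty, Nat.cast_zero]
        positivity
      · have cA : (1 : ℝ) ≤ A.card := by exact_mod_cast hA.card_pos
        have h1 : ((Fac (fun _ : Fin k => A) u).card : ℝ) ≤ (A.card : ℝ) ^ k := by
          have h2 : (Fac (fun _ : Fin k => A) u).card ≤ A.card ^ k := by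
            unfold Fac
            refine (Finset.card_filter_le _ _).trans ?_
            rw [Fintype.card_piFinset]
            simp
          exact_mod_cast h2
        have h2 : (A.card : ℝ) ^ k ≤ Real.exp (k * t₀) := by
          rw [Real.exp_nat_mul]
          apply pow_le_pow_left₀ (by linarith)
          rw [← Real.log_le_iff_le_exp (by linarith)]
          exact hsmall.le
        have h3 : (1 : ℝ) ≤ (A.card : ℝ) ^ (ε + 2 * 10 ^ 5 * k * log (2 * k) * δ) :=
          Real.one_le_rpow cA (by positivity)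
        have h4 : Real.exp (k * t₀) ≤ Real.exp (k * t₀ +
            Real.exp (10 ^ 9 * log (2 * k) / (ε / (k * M)))) := by
          rw [Real.exp_le_exp]
          have := Real.exp_pos (10 ^ 9 * log (2 * (k : ℝ)) / (ε / (k * M)))
          linarith
        calc ((Fac (fun _ : Fin k => A) u).card : ℝ) ≤ Real.exp (k * t₀ +
            Real.exp (10 ^ 9 * log (2 * k) / (ε / (k * M)))) * 1 := by
              rw [mul_one]
              linarith
          _ ≤ _ := mul_le_mul_of_nonneg_left h3 (Real.exp_pos _).le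
  push Not at hsmall
  set ℓ : ℝ := Real.log A.card with hℓ
  have hℓ1 : 1 ≤ ℓ := ht₀.trans hsmall
  have hAne : A.Nonempty := by
    by_contra h
    rw [Finset.not_nonempty_iff_eq_empty] at h
    rw [hℓ, h] at hℓ1
    simp at hℓ1
    linarith
  have cA : (1 : ℝ) ≤ A.card := by exact_mod_cast hAne.card_pos
  have cA0 : (0 : ℝ) < A.card := by linarith
  have hpow : ∀ x : ℝ, (A.card : ℝ) ^ x = Real.exp (x * ℓ) := fun x => by
    rw [Real.rpow_def_of_pos cA0]; congr 1; ring
  obtain ⟨habs1, habs2⟩ := habs ℓ hsmall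
  set I : ℕ := M * (Nat.log 2 A.card + 1) with hI
  have hIr : (I : ℝ) ≤ M * (2 * ℓ + 1) := by
    rw [hI]; push_cast
    have := natlog_le A.card hAne.card_pos
    exact mul_le_mul_of_nonneg_left (by linarith) (by linarith)
  have hIlt : ∀ B ⊆ A, ∀ m ≤ M, B.card ^ m < 2 ^ I := by
    intro B hB m hm
    have h1 : B.card < 2 ^ (Nat.log 2 A.card + 1) :=
      lt_of_le_of_lt (Finset.card_le_card hB) (Nat.lt_pow_succ_log_self (by norm_num) _)
    rcases Nat.eq_zero_or_pos m with h0 | h0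
    · rw [h0, pow_zero, hI]
      exact Nat.one_lt_two_pow (Nat.mul_pos hM1 (Nat.succ_pos _)).ne'
    · calc B.card ^ m < (2 ^ (Nat.log 2 A.card + 1)) ^ m := Nat.pow_lt_pow_left h1 h0.ne'
        _ = 2 ^ (m * (Nat.log 2 A.card + 1)) := by rw [mul_comm, pow_mul]
        _ ≤ 2 ^ I := Nat.pow_le_pow_right (by norm_num) (Nat.mul_le_mul_right _ hm)
  set κ : ℝ := Real.exp (δ * ℓ) with hκ
  have hκ1 : 1 ≤ κ := Real.one_le_exp (by positivity)
  set K : ℝ := κ * (2 * I) ^ 4 with hK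
  have hI0 : (0 : ℝ) ≤ I := Nat.cast_nonneg _
  have hK2 : K ≤ Real.exp (2 * δ * ℓ) := by
    have h1 : (2 * (I : ℝ)) ^ 4 ≤ Real.exp (δ * ℓ) := by
      refine le_trans (pow_le_pow_left₀ (by positivity) ?_ 4) habs1
      linarith
    calc K ≤ κ * Real.exp (δ * ℓ) := mul_le_mul_of_nonneg_left h1 (by linarith)
      _ = Real.exp (2 * δ * ℓ) := by rw [hκ, ← Real.exp_add]; congr 1; ring
  have hIpos : 1 ≤ I := by
    rw [hI]
    exact Nat.mul_pos hM1 (Nat.succ_pos _)
  have hI1 : (1 : ℝ) ≤ I := by exact_mod_cast hIpos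
  have hK1 : 1 ≤ K := by
    have h1 : (1 : ℝ) ≤ (2 * I) ^ 4 := one_le_pow₀ (by linarith)
    rw [hK]
    nlinarith
  set X : ℝ := 2 ^ 22 * K ^ 10 with hX
  have hX0 : 0 < X := by positivity
  have hX2 : X ≤ Real.exp (21 * δ * ℓ) := by
    have h1 : (2 : ℝ) ^ 22 ≤ Real.exp (δ * ℓ) := by
      refine le_trans ?_ habs2
      nlinarith
    calc X ≤ Real.exp (δ * ℓ) * Real.exp (2 * δ * ℓ) ^ 10 :=
          mul_le_mul h1 (pow_le_pow_left₀ (by linarith) hK2 10) (by positivity)
            (Real.exp_pos _).le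
      _ = Real.exp (21 * δ * ℓ) := by
          rw [← Real.exp_nat_mul, ← Real.exp_add]; congr 1; push_cast; ring
  -- the iteration
  set s : ℝ := Real.exp ((1 - δ) * ℓ) / (8 * K ^ 2) with hs
  have hs0 : 0 < s := by positivity
  have hstep : ∀ B ⊆ A, ¬ (∀ j ≤ J, (En B (2 ^ j) : ℝ) ≤
      (A.card : ℝ) ^ (2 * (2 : ℝ) ^ j - 1 - j * δ)) →
      ∃ D ⊆ B, Piece X ((A.card : ℝ) ^ M) D ∧ s ≤ D.card := by
    intro B hBA hF
    push Not at hF
    obtain ⟨j, hjJ, hF⟩ := hF
    have h2j : (1 : ℝ) ≤ 2 ^ j := one_le_pow₀ (by norm_num)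
    have hBne : B.Nonempty := by
      by_contra h
      rw [Finset.not_nonempty_iff_eq_empty] at h
      have h1 : En B (2 ^ j) ≤ 0 := by
        rw [h]
        refine (En_le ∅ (2 ^ j)).trans ?_
        have : 2 * 2 ^ j ≠ 0 := by positivity
        simp [this]
      have h2 : (En B (2 ^ j) : ℝ) ≤ 0 := by exact_mod_cast h1
      have h3 : 0 < (A.card : ℝ) ^ (2 * (2 : ℝ) ^ j - 1 - j * δ) := Real.rpow_pos_of_pos cA0 _
      linarith
    have hBA' : (B.card : ℝ) ≤ A.card := by exact_mod_cast Finset.card_le_card hBA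
    have cB : (0 : ℝ) < B.card := by exact_mod_cast hBne.card_pos
    have hj1 : 1 ≤ j := by
      rcases Nat.eq_zero_or_pos j with h | h
      · exfalso
        rw [h, show (2 : ℕ) ^ 0 = 1 from rfl, En_one] at hF
        have e1 : (2 * (2 : ℝ) ^ 0 - 1 - ((0 : ℕ) : ℝ) * δ) = 1 := by norm_num
        rw [e1, Real.rpow_one] at hF
        linarith
      · exact h
    obtain ⟨N, hN⟩ : ∃ N, 2 ^ j = N + 1 := ⟨2 ^ j - 1, by
      have := Nat.one_le_two_pow (n := j)
      omega⟩
    have hNr : (2 : ℝ) ^ j = N + 1 := by exact_mod_cast hN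
    have hEle : (En B (2 ^ j) : ℝ) ≤ (B.card : ℝ) ^ (2 * N + 1) := by
      rw [hN]
      exact En_le' B N
    have hjN : (j : ℝ) ≤ 2 * N + 1 := by
      have h1 : j < 2 ^ j := Nat.lt_two_pow_self
      have h2 : j ≤ 2 * N + 1 := by omega
      exact_mod_cast h2
    -- `|B| ≥ |A| ^ (1 - δ)`
    have h2 : Real.exp ((1 - δ) * ℓ) ≤ B.card := by
      have h3 := hF.le.trans hEle
      rw [hpow, ← Real.le_log_iff_exp_le (by positivity), Real.log_pow] at h3
      rw [← Real.le_log_iff_exp_le cB]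
      push_cast at h3
      have h4 : (2 * (N : ℝ) + 1) * ((1 - δ) * ℓ) ≤ (2 * N + 1) * Real.log B.card := by
        refine le_trans ?_ h3
        rw [hNr]
        have h5 : (j : ℝ) * (δ * ℓ) ≤ (2 * N + 1) * (δ * ℓ) :=
          mul_le_mul_of_nonneg_right hjN (by positivity)
        linarith
      exact le_of_mul_le_mul_left h4 (by positivity)
    -- a slow step
    have h3 : (B.card : ℝ) ^ (2 * 2 ^ j) ≤ κ ^ j * En B (2 ^ j) * B.card := by
      have h4 : (B.card : ℝ) ^ (2 * N + 1) ≤ κ ^ j * En B (2 ^ j) := by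
        calc (B.card : ℝ) ^ (2 * N + 1) ≤ (A.card : ℝ) ^ (2 * N + 1) :=
              pow_le_pow_left₀ cB.le hBA' _
          _ = κ ^ j * (A.card : ℝ) ^ (2 * (2 : ℝ) ^ j - 1 - j * δ) := by
              rw [← Real.rpow_natCast, hpow, hpow, hκ, ← Real.exp_nat_mul, ← Real.exp_add, hNr]
              congr 1
              push_cast
              ring
          _ ≤ κ ^ j * En B (2 ^ j) := mul_le_mul_of_nonneg_left hF.le (by positivity)
      have h5 : (B.card : ℝ) ^ (2 * 2 ^ j) = (B.card : ℝ) ^ (2 * N + 1) * B.card := by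
        rw [← pow_succ, hN]
        congr 1
      rw [h5]
      exact mul_le_mul_of_nonneg_right h4 cB.le
    obtain ⟨i, hi, hslow⟩ := exists_slow B j hj1 κ (by linarith) h3 hBne
    obtain ⟨n, hn⟩ : ∃ n, 2 ^ i = n + 1 := ⟨2 ^ i - 1, by
      have := Nat.one_le_two_pow (n := i)
      omega⟩
    have hnM : n + 1 ≤ M := by
      rw [← hn, hM]
      exact Nat.pow_le_pow_right (by norm_num) (by omega)
    rw [hn] at hslow
    obtain ⟨D, hDB, P, hPne, hcard, hsum1, hsum2, hPc⟩ :=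
      extract_step B hBne n I (hIlt B hBA (n + 1) hnM) κ K hκ1 hK hslow
    refine ⟨D, hDB, ⟨P, hPne, hsum1, hsum2, ?_⟩, ?_⟩
    · calc (P.card : ℝ) ≤ (B.card : ℝ) ^ (n + 1) := hPc
        _ ≤ (A.card : ℝ) ^ (n + 1) := pow_le_pow_left₀ cB.le hBA' _
        _ ≤ (A.card : ℝ) ^ M := pow_le_pow_right₀ cA hnM
    · rw [hs, div_le_iff₀ (by positivity)]
      linarith
  obtain ⟨B, hBA, hFB, 𝒟, h𝒟1, h𝒟2, h𝒟3⟩ := iterate A (Piece X ((A.card : ℝ) ^ M))
    (fun B => ∀ j ≤ J, (En B (2 ^ j) : ℝ) ≤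
      (A.card : ℝ) ^ (2 * (2 : ℝ) ^ j - 1 - j * δ)) s hs0 hstep A.card A
    (Finset.Subset.refl _) rfl
  refine ⟨B, hBA, ?_, ?_⟩
  · -- energies
    intro j hj m hm
    obtain ⟨n, rfl⟩ := Nat.exists_eq_add_of_le' hm
    have h1 : (En B (n + 2 ^ j) : ℝ) ≤ (B.card : ℝ) ^ (2 * n) * En B (2 ^ j) := by
      exact_mod_cast En_young' B n (2 ^ j)
    have hBA' : (B.card : ℝ) ≤ A.card := by exact_mod_cast Finset.card_le_card hBA
    refine h1.trans ?_
    calc (B.card : ℝ) ^ (2 * n) * En B (2 ^ j)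
        ≤ (A.card : ℝ) ^ (2 * n) * (A.card : ℝ) ^ (2 * (2 : ℝ) ^ j - 1 - j * δ) :=
          mul_le_mul (pow_le_pow_left₀ (by positivity) hBA' _) (hFB j hj) (by positivity)
            (by positivity)
      _ = (A.card : ℝ) ^ (2 * ((n + 2 ^ j : ℕ) : ℝ) - 1 - j * δ) := by
          rw [← Real.rpow_natCast, ← Real.rpow_add cA0]
          congr 1
          push_cast
          ring
  · intro k hk ε hε hε1 u hu
    have hk0 : (1 : ℝ) ≤ k := by exact_mod_cast hk
    obtain ⟨L, hL⟩ : ∃ L, L = log (2 * (k : ℝ)) := ⟨_, rfl⟩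
    have hL2 : 0.69 ≤ L := by
      have h1 : log 2 ≤ L := by
        rw [hL]
        exact Real.log_le_log (by norm_num) (by linarith)
      have := Real.log_two_gt_d9
      norm_num at this ⊢
      linarith
    have hL0 : 0 < L := by
      norm_num at hL2
      linarith
    rw [← hL]
    -- the number of pieces
    have hcardD : (𝒟.card : ℝ) ≤ Real.exp (6 * δ * ℓ) := by
      have h1 : s * 𝒟.card ≤ Real.exp ℓ := by
        rw [hℓ, Real.exp_log cA0]
        exact h𝒟3
      have h2 : (8 : ℝ) ≤ Real.exp (δ * ℓ) := by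
        refine le_trans ?_ habs2
        nlinarith
      have h3 : (8 * K ^ 2) ≤ Real.exp (5 * δ * ℓ) := by
        calc 8 * K ^ 2 ≤ Real.exp (δ * ℓ) * Real.exp (2 * δ * ℓ) ^ 2 :=
              mul_le_mul h2 (pow_le_pow_left₀ (by linarith) hK2 2) (by positivity) (by positivity)
          _ = Real.exp (5 * δ * ℓ) := by
              rw [← Real.exp_nat_mul, ← Real.exp_add]; congr 1; push_cast; ring
      have h4 : Real.exp ((1 - δ) * ℓ) * 𝒟.card ≤
          Real.exp ((1 - δ) * ℓ) * Real.exp (6 * δ * ℓ) := by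
        calc Real.exp ((1 - δ) * ℓ) * 𝒟.card = (s * 𝒟.card) * (8 * K ^ 2) := by
              rw [hs]; field_simp
          _ ≤ Real.exp ℓ * Real.exp (5 * δ * ℓ) :=
              mul_le_mul h1 h3 (by positivity) (Real.exp_pos _).le
          _ = _ := by rw [← Real.exp_add, ← Real.exp_add]; congr 1; ring
      exact le_of_mul_le_mul_left h4 (Real.exp_pos _)
    -- one choice of the pieces
    obtain ⟨ε', hε'⟩ : ∃ ε', ε' = ε / (k * M) := ⟨_, rfl⟩
    have hε'0 : 0 < ε' := by rw [hε']; positivity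
    have hε'1 : ε' ≤ 1 := by
      rw [hε', div_le_one (by positivity)]
      nlinarith
    set W : ℝ := Real.exp (Real.exp (10 ^ 9 * L / ε')) with hW
    have hW0 : 0 < W := Real.exp_pos _
    set Y : ℝ := Real.exp (ε' * (M * ℓ) + 8064 * L * (21 * δ * ℓ)) with hY
    have hpieces : ∀ Δ : Fin k → Finset ℤ, (∀ i, Δ i ∈ 𝒟) →
        ((Fac Δ u).card : ℝ) ≤ W * Y ^ k := by
      intro Δ hΔ
      have hP := fun i => h𝒟1 (Δ i) (hΔ i)
      choose P hPne hPs1 hPs2 hPc using hP
      refine (divisor k hk ε' hε'0 hε'1 Δ (fun i => -(P i)) P (fun i => (hPne i).neg) hPne u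
        hu).trans ?_
      rw [← hL, ← hW]
      refine mul_le_mul_of_nonneg_left ?_ hW0.le
      have hbd : ∀ i : Fin k, (((-P i).card : ℝ) ^ ε' *
          (((Δ i + -P i).card : ℝ) / (-P i).card) ^ (64 * L) *
          (((-P i + P i).card : ℝ) / √(((-P i).card : ℝ) * (P i).card)) ^ (8000 * L)) ≤ Y := by
        intro i
        have cP : (1 : ℝ) ≤ (P i).card := by exact_mod_cast (hPne i).card_pos
        have cP0 : (0 : ℝ) < (P i).card := by linarith
        rw [Finset.card_neg, Real.sqrt_mul_self cP0.le]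
        have e1 : ((P i).card : ℝ) ^ ε' ≤ Real.exp (ε' * (M * ℓ)) := by
          have h1 : ((P i).card : ℝ) ≤ Real.exp (M * ℓ) := by
            refine (hPc i).trans (le_of_eq ?_)
            rw [← Real.rpow_natCast, hpow]
          calc ((P i).card : ℝ) ^ ε' ≤ (Real.exp (M * ℓ)) ^ ε' :=
                Real.rpow_le_rpow cP0.le h1 hε'0.le
            _ = Real.exp (ε' * (M * ℓ)) := by rw [← Real.exp_mul]; congr 1; ring
        have e2 : ((Δ i + -P i).card : ℝ) / (P i).card ≤ Real.exp (21 * δ * ℓ) := by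
          rw [div_le_iff₀ cP0]
          exact (hPs1 i).trans (mul_le_mul_of_nonneg_right hX2 cP0.le)
        have e3 : ((-P i + P i).card : ℝ) / (P i).card ≤ Real.exp (21 * δ * ℓ) := by
          rw [div_le_iff₀ cP0]
          exact (hPs2 i).trans (mul_le_mul_of_nonneg_right hX2 cP0.le)
        have e4 := Real.rpow_le_rpow (by positivity) e2 (show 0 ≤ 64 * L by positivity)
        have e5 := Real.rpow_le_rpow (by positivity) e3 (show 0 ≤ 8000 * L by positivity)
        rw [← Real.exp_mul] at e4 e5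
        calc _ ≤ Real.exp (ε' * (M * ℓ)) * Real.exp (21 * δ * ℓ * (64 * L)) *
              Real.exp (21 * δ * ℓ * (8000 * L)) :=
              mul_le_mul (mul_le_mul e1 e4 (by positivity) (by positivity)) e5 (by positivity)
                (by positivity)
          _ = Y := by
              rw [hY, ← Real.exp_add, ← Real.exp_add]
              congr 1
              ring
      calc _ ≤ ∏ _i : Fin k, Y :=
            Finset.prod_le_prod (fun i _ => by positivity) fun i _ => hbd i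
        _ = Y ^ k := by simp
    have h1 := fac_union k (A \ B) 𝒟 h𝒟2 u (W * Y ^ k) hpieces
    refine h1.trans ?_
    have h2 : (𝒟.card : ℝ) ^ k * Y ^ k ≤
        (A.card : ℝ) ^ (ε + 2 * 10 ^ 5 * k * L * δ) := by
      have h3 : (𝒟.card : ℝ) ^ k ≤ Real.exp (6 * δ * ℓ) ^ k :=
        pow_le_pow_left₀ (by positivity) hcardD k
      calc (𝒟.card : ℝ) ^ k * Y ^ k ≤ Real.exp (6 * δ * ℓ) ^ k * Y ^ k :=
            mul_le_mul_of_nonneg_right h3 (by positivity)
        _ = Real.exp ((k * M * ε') * ℓ + k * (6 + 169344 * L) * δ * ℓ) := by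
            rw [hY, ← Real.exp_nat_mul, ← Real.exp_nat_mul, ← Real.exp_add]
            congr 1
            ring
        _ ≤ (A.card : ℝ) ^ (ε + 2 * 10 ^ 5 * k * L * δ) := by
            rw [hpow, Real.exp_le_exp]
            have h4 : (k * M * ε') = ε := by
              rw [hε']
              field_simp
            rw [h4]
            have h5 : (6 + 169344 * L) ≤ 2 * 10 ^ 5 * L := by
              norm_num at hL2 ⊢
              linarith
            have h6 : k * (6 + 169344 * L) * (δ * ℓ) ≤ k * (2 * 10 ^ 5 * L) * (δ * ℓ) :=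
              mul_le_mul_of_nonneg_right (mul_le_mul_of_nonneg_left h5 (by linarith))
                (by positivity)
            linarith
    have h3 : W ≤ Real.exp (k * t₀ + Real.exp (10 ^ 9 * L / ε')) := by
      rw [hW, Real.exp_le_exp]
      have : 0 ≤ k * t₀ := by positivity
      linarith
    beta_reduce
    rw [← hL, ← hε']
    calc (𝒟.card : ℝ) ^ k * (W * Y ^ k) = W * ((𝒟.card : ℝ) ^ k * Y ^ k) := by ring
      _ ≤ Real.exp (k * t₀ + Real.exp (10 ^ 9 * L / ε')) *
          (A.card : ℝ) ^ (ε + 2 * 10 ^ 5 * k * L * δ) :=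
          mul_le_mul h3 h2 (by positivity) (Real.exp_pos _).le

end Pool.Agent.H87.LL
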