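import Mathlib
import Pool.Agent.H87.LL.Decomp

/-!
# Corollaries
-/

set_option autoImplicit false
set_option linter.unusedSectionVars false

namespace Pool.Agent.H87.LL

open Finset Real
open scoped Pointwise BigOperators

/-- The divisor bound in its classical form. -/
theorem divisor_opt (k : ℕ) (hk : 1 ≤ k) (N : ℝ) (hN : 16 ≤ N)
    (A P Q : Fin k → Finset ℤ) (hP : ∀ i, (P i).Nonempty) (hQ : ∀ i, (Q i).Nonempty)
    (hPN : ∀ i, ((P i).card : ℝ) ≤ N) (x : ℤ) (hx : x ≠ 0) :
    ((Fac A x).card : ℝ) ≤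
      Real.exp (4 * 10 ^ 9 * k * log (2 * k) * (log N / log (log N))) *
      ∏ i, ((((A i + P i).card : ℝ) / (P i).card) ^ (64 * log (2 * k)) *
        (((P i + Q i).card : ℝ) / √(((P i).card : ℝ) * (Q i).card)) ^ (8000 * log (2 * k))) := by
  rcases (Fac A x).eq_empty_or_nonempty with h0 | hne
  · rw [h0, Finset.card_empty, Nat.cast_zero]
    positivity
  have hk0 : (1 : ℝ) ≤ k := by exact_mod_cast hk
  obtain ⟨L, hL⟩ : ∃ L, L = log (2 * (k : ℝ)) := ⟨_, rfl⟩
  have hL2 : 0.69 ≤ L := by
    have h1 : log 2 ≤ L := by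
      rw [hL]
      exact Real.log_le_log (by norm_num) (by linarith)
    have := Real.log_two_gt_d9
    norm_num at this ⊢
    linarith
  have hL0 : 0 < L := by
    norm_num at hL2
    linarith
  rw [← hL]
  have hN0 : 0 < N := by linarith
  have hlogN : Real.exp 1 ≤ log N := by
    have h1 : 4 * log 2 ≤ log N := by
      have h2 : log 16 = 4 * log 2 := by
        rw [show (16 : ℝ) = 2 ^ (4 : ℕ) by norm_num, Real.log_pow]
        norm_num
      rw [← h2]
      exact Real.log_le_log (by norm_num) hN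
    have h3 := Real.log_two_gt_d9
    have h4 := Real.exp_one_lt_d9
    linarith
  have hlogN0 : 0 < log N := (Real.exp_pos 1).trans_le hlogN
  obtain ⟨lam, hlam⟩ : ∃ lam, lam = log (log N) := ⟨_, rfl⟩
  have hlam1 : 1 ≤ lam := by
    rw [hlam, Real.le_log_iff_exp_le hlogN0]
    exact hlogN
  have hexplam : Real.exp lam = log N := by rw [hlam, Real.exp_log hlogN0]
  rw [← hlam]
  obtain ⟨r, hr⟩ := hne
  have hAne : ∀ i, (A i).Nonempty := fun i =>
    ⟨r i, Fintype.mem_piFinset.1 (Finset.mem_filter.1 hr).1 i⟩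
  have hPc : ∀ i, (0 : ℝ) < (P i).card := fun i => by exact_mod_cast (hP i).card_pos
  have hQc : ∀ i, (0 : ℝ) < (Q i).card := fun i => by exact_mod_cast (hQ i).card_pos
  have hr1 : ∀ i, 1 ≤ ((A i + P i).card : ℝ) / (P i).card := fun i => by
    rw [le_div_iff₀ (hPc i), one_mul]
    exact_mod_cast Finset.card_le_card_add_left (hAne i)
  have hr2 : ∀ i, 1 ≤ ((P i + Q i).card : ℝ) / √(((P i).card : ℝ) * (Q i).card) := fun i => by
    have h1 : (0 : ℝ) < √(((P i).card : ℝ) * (Q i).card) :=
      Real.sqrt_pos.2 (mul_pos (hPc i) (hQc i))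
    rw [le_div_iff₀ h1, one_mul]
    apply Real.sqrt_le_iff.2
    refine ⟨by positivity, ?_⟩
    have h2 : ((P i).card : ℝ) ≤ (P i + Q i).card := by
      exact_mod_cast Finset.card_le_card_add_right (hQ i)
    have h3 : ((Q i).card : ℝ) ≤ (P i + Q i).card := by
      exact_mod_cast Finset.card_le_card_add_left (hP i)
    rw [sq]
    exact mul_le_mul h2 h3 (hQc i).le (by positivity)
  set G : Fin k → ℝ := fun i => (((A i + P i).card : ℝ) / (P i).card) ^ (64 * L) *
        (((P i + Q i).card : ℝ) / √(((P i).card : ℝ) * (Q i).card)) ^ (8000 * L) with hG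
  have hG0 : ∀ i, 0 < G i := fun i => by
    have h1 := hr1 i
    have h2 := hr2 i
    exact mul_pos (Real.rpow_pos_of_pos (by linarith) _) (Real.rpow_pos_of_pos (by linarith) _)
  have hprodG : 0 < ∏ i, G i := Finset.prod_pos fun i _ => hG0 i
  rcases le_or_gt (2 * 10 ^ 9 * L) lam with hc | hc
  · -- the theorem with a small `ε`
    obtain ⟨ε, hε⟩ : ∃ ε, ε = 2 * 10 ^ 9 * L / lam := ⟨_, rfl⟩
    have hε0 : 0 < ε := by rw [hε]; positivity
    have hε1 : ε ≤ 1 := by
      rw [hε, div_le_one (by linarith)]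
      exact hc
    have h1 := divisor k hk ε hε0 hε1 A P Q hP hQ x hx
    rw [← hL] at h1
    have h2 : ∏ i, (((P i).card : ℝ) ^ ε *
        (((A i + P i).card : ℝ) / (P i).card) ^ (64 * L) *
        (((P i + Q i).card : ℝ) / √(((P i).card : ℝ) * (Q i).card)) ^ (8000 * L)) =
        (∏ i, ((P i).card : ℝ) ^ ε) * ∏ i, G i := by
      rw [← Finset.prod_mul_distrib]
      exact Finset.prod_congr rfl fun i _ => by rw [hG, mul_assoc]
    have h3 : ∏ i, ((P i).card : ℝ) ^ ε ≤ Real.exp (k * (ε * log N)) := by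
      calc ∏ i, ((P i).card : ℝ) ^ ε ≤ ∏ _i : Fin k, Real.exp (ε * log N) := by
            refine Finset.prod_le_prod (fun i _ => by positivity) fun i _ => ?_
            calc ((P i).card : ℝ) ^ ε ≤ N ^ ε :=
                  Real.rpow_le_rpow (hPc i).le (hPN i) hε0.le
              _ = Real.exp (ε * log N) := by
                  rw [Real.rpow_def_of_pos hN0, mul_comm]
        _ = Real.exp (k * (ε * log N)) := by
            rw [Finset.prod_const, Finset.card_univ, Fintype.card_fin, ← Real.exp_nat_mul]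
    have h4 : 10 ^ 9 * L / ε = lam / 2 := by
      rw [hε]
      field_simp
    rw [h2, h4] at h1
    refine h1.trans ?_
    rw [← mul_assoc]
    refine mul_le_mul_of_nonneg_right ?_ hprodG.le
    calc Real.exp (Real.exp (lam / 2)) * ∏ i, ((P i).card : ℝ) ^ ε ≤
          Real.exp (Real.exp (lam / 2)) * Real.exp (k * (ε * log N)) :=
          mul_le_mul_of_nonneg_left h3 (Real.exp_pos _).le
      _ = Real.exp (Real.exp (lam / 2) + k * (ε * log N)) := by rw [Real.exp_add]
      _ ≤ Real.exp (4 * 10 ^ 9 * k * L * (log N / lam)) := by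
          rw [Real.exp_le_exp]
          have h5 : k * (ε * log N) = 2 * 10 ^ 9 * k * L * (log N / lam) := by
            rw [hε]
            field_simp
          rw [h5]
          have h6 : Real.exp (lam / 2) ≤ 2 * 10 ^ 9 * k * L * (log N / lam) := by
            rw [mul_div_assoc', le_div_iff₀ (by linarith), ← hexplam]
            have h7 : Real.exp lam = Real.exp (lam / 2) * Real.exp (lam / 2) := by
              rw [← Real.exp_add]
              congr 1
              ring
            rw [h7]
            have h8 : lam ≤ 2 * Real.exp (lam / 2) := by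
              have := Real.add_one_le_exp (lam / 2)
              linarith
            have h9 : 1 ≤ 10 ^ 9 * k * L := by
              have : 1 * 0.69 ≤ (k : ℝ) * L := mul_le_mul hk0 hL2 (by norm_num) (by linarith)
              norm_num at this ⊢
              nlinarith
            have h10 : 0 < Real.exp (lam / 2) := Real.exp_pos _
            calc Real.exp (lam / 2) * lam ≤ Real.exp (lam / 2) * (2 * Real.exp (lam / 2)) :=
                  mul_le_mul_of_nonneg_left h8 h10.le
              _ = 1 * (2 * (Real.exp (lam / 2) * Real.exp (lam / 2))) := by ring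
              _ ≤ (10 ^ 9 * k * L) * (2 * (Real.exp (lam / 2) * Real.exp (lam / 2))) :=
                  mul_le_mul_of_nonneg_right h9 (by positivity)
              _ = _ := by ring
          linarith
  · -- the trivial bound
    have h1 : ((Fac A x).card : ℝ) ≤ ∏ i, ((A i).card : ℝ) := by
      have h2 : (Fac A x).card ≤ ∏ i, (A i).card := by
        unfold Fac
        refine (Finset.card_filter_le _ _).trans ?_
        rw [Fintype.card_piFinset]
      exact_mod_cast h2
    have h2 : ∀ i, ((A i).card : ℝ) ≤ N * G i := by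
      intro i
      have h3 : ((A i).card : ℝ) ≤ (A i + P i).card := by
        exact_mod_cast Finset.card_le_card_add_right (hP i)
      have h4 : (((A i + P i).card : ℝ) / (P i).card) ≤ G i := by
        have h5 : (((A i + P i).card : ℝ) / (P i).card) ≤
            (((A i + P i).card : ℝ) / (P i).card) ^ (64 * L) := by
          calc (((A i + P i).card : ℝ) / (P i).card) =
                (((A i + P i).card : ℝ) / (P i).card) ^ (1 : ℝ) := (Real.rpow_one _).symm
            _ ≤ _ := by
                apply Real.rpow_le_rpow_of_exponent_le (hr1 i)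
                norm_num at hL2
                linarith
        have h6 : 1 ≤ (((P i + Q i).card : ℝ) / √(((P i).card : ℝ) * (Q i).card)) ^
            (8000 * L) := Real.one_le_rpow (hr2 i) (by positivity)
        have h7 := hr1 i
        calc (((A i + P i).card : ℝ) / (P i).card) ≤
              (((A i + P i).card : ℝ) / (P i).card) ^ (64 * L) * 1 := by rw [mul_one]; exact h5
          _ ≤ G i := mul_le_mul_of_nonneg_left h6 (by positivity)
      calc ((A i).card : ℝ) ≤ (A i + P i).card := h3
        _ = (P i).card * (((A i + P i).card : ℝ) / (P i).card) := by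
            have := (hPc i).ne'
            field_simp
        _ ≤ N * G i := mul_le_mul (hPN i) h4 (by positivity) hN0.le
    have h3 : ∏ i, ((A i).card : ℝ) ≤ N ^ k * ∏ i, G i := by
      calc ∏ i, ((A i).card : ℝ) ≤ ∏ i, (N * G i) :=
            Finset.prod_le_prod (fun i _ => by positivity) fun i _ => h2 i
        _ = N ^ k * ∏ i, G i := by
            rw [Finset.prod_mul_distrib, Finset.prod_const, Finset.card_univ, Fintype.card_fin]
    refine (h1.trans h3).trans ?_
    refine mul_le_mul_of_nonneg_right ?_ hprodG.le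
    have h4 : N ^ k = Real.exp (k * log N) := by
      rw [Real.exp_nat_mul, Real.exp_log hN0]
    rw [h4, Real.exp_le_exp]
    have h5 : 1 ≤ 4 * 10 ^ 9 * L / lam := by
      rw [le_div_iff₀ (by linarith)]
      linarith
    calc (k : ℝ) * log N = 1 * (k * log N) := by ring
      _ ≤ (4 * 10 ^ 9 * L / lam) * (k * log N) := mul_le_mul_of_nonneg_right h5 (by positivity)
      _ = 4 * 10 ^ 9 * k * L * (log N / lam) := by ring

/-- Many additive quadruples, many `k`-fold products. -/
theorem energy_one (k : ℕ) (hk : 1 ≤ k) (ε : ℝ) (hε : 0 < ε) (η : ℝ) :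
    ∃ c : ℝ, 0 < c ∧ ∀ A : Finset ℤ, (∃ a ∈ A, a ≠ 0) →
      (A.card : ℝ) ^ (3 - η) ≤ (A.addEnergy A : ℝ) →
      c * (A.card : ℝ) ^ ((k : ℝ) - ε - 10 ^ 5 * k * log (2 * k) * η) ≤ ((A ^ k).card : ℝ) := by
  have hk0 : (1 : ℝ) ≤ k := by exact_mod_cast hk
  have hL0 : 0 < log (2 * (k : ℝ)) := Real.log_pos (by linarith)
  obtain ⟨ε', hε'⟩ : ∃ ε', ε' = min 1 (ε / k) := ⟨_, rfl⟩
  have hε'0 : 0 < ε' := by rw [hε']; positivity
  have hε'1 : ε' ≤ 1 := by rw [hε']; exact min_le_left _ _
  have hkε : k * ε' ≤ ε := by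
    have h1 : ε' ≤ ε / k := by rw [hε']; exact min_le_right _ _
    rw [le_div_iff₀ (by linarith)] at h1
    linarith
  obtain ⟨c, hc, H⟩ := energy_prod k hk ε' hε'0 hε'1
  refine ⟨c, hc, fun A hA hE => ?_⟩
  have h := H (fun _ => A) (fun _ => hA)
  rw [Finset.prod_const, Finset.prod_const, Finset.card_univ, Fintype.card_fin] at h
  refine le_trans ?_ h
  have hAn : A.Nonempty := by
    obtain ⟨a, ha, _⟩ := hA
    exact ⟨a, ha⟩
  have hN0 : (0 : ℝ) < A.card := by exact_mod_cast hAn.card_pos
  have hN1 : (1 : ℝ) ≤ A.card := by exact_mod_cast hAn.card_pos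
  refine mul_le_mul_of_nonneg_left ?_ hc.le
  have h1 : (A.card : ℝ) ^ (-η) ≤ (A.addEnergy A : ℝ) / (A.card : ℝ) ^ 3 := by
    rw [le_div_iff₀ (by positivity)]
    refine le_trans (le_of_eq ?_) hE
    rw [← Real.rpow_natCast, ← Real.rpow_add hN0]
    congr 1
    push_cast
    ring
  have h2 : ((A.card : ℝ) ^ (-η)) ^ (10 ^ 5 * log (2 * (k : ℝ))) ≤
      ((A.addEnergy A : ℝ) / (A.card : ℝ) ^ 3) ^ (10 ^ 5 * log (2 * (k : ℝ))) :=
    Real.rpow_le_rpow (by positivity) h1 (by positivity)
  rw [← Real.rpow_mul hN0.le] at h2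
  have h3 : (A.card : ℝ) ^ (1 - ε') * (A.card : ℝ) ^ (-η * (10 ^ 5 * log (2 * (k : ℝ)))) ≤
      (A.card : ℝ) ^ (1 - ε') *
        ((A.addEnergy A : ℝ) / (A.card : ℝ) ^ 3) ^ (10 ^ 5 * log (2 * (k : ℝ))) :=
    mul_le_mul_of_nonneg_left h2 (by positivity)
  rw [← Real.rpow_add hN0] at h3
  have h4 := pow_le_pow_left₀ (by positivity) h3 k
  refine le_trans ?_ h4
  rw [← Real.rpow_natCast _ k, ← Real.rpow_mul hN0.le]
  apply Real.rpow_le_rpow_of_exponent_le hN1
  have h5 : (1 - ε' + -η * (10 ^ 5 * log (2 * (k : ℝ)))) * k =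
      k - k * ε' - 10 ^ 5 * k * log (2 * k) * η := by ring
  rw [h5]
  linarith

end Pool.Agent.H87.LL
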